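import Pool.Agent.H.MP_374efc_lc.Red.Tile

/-!
# MP_374efc_lc, general reduction: bounded letters of injective morphisms
-/

set_option autoImplicit false

namespace D0L

theorem ne_of_inj {α : Type} {h : α → List α} (inj : Function.Injective (app h)) (a : α) :
    h a ≠ [] := by
  intro h0
  have h1 : app h [a] = app h [] := by rw [app_singleton, h0, app_nil]
  have h2 := inj h1
  simp at h2

/-- lengths do not decrease -/
theorem length_it_mono {α : Type} {h : α → List α} (hne : ∀ a, h a ≠ []) (x : List α) {m n : ℕ}
    (hmn : m ≤ n) : (it h m x).length ≤ (it h n x).length := by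
  obtain ⟨k, rfl⟩ := Nat.exists_eq_add_of_le hmn
  rw [Nat.add_comm m k, it_add]
  generalize it h m x = y
  induction k with
  | zero => rw [it_zero]
  | succ k ih =>
    rw [it_succ]
    exact (ih (by omega)).trans (length_le_app hne _)

theorem Bdd_bound {α : Type} {h : α → List α} (x : List α) (hx : ∀ b ∈ x, ¬ Gr h b) :
    ∃ B, ∀ k, (it h k x).length < B := by
  induction x with
  | nil => exact ⟨1, fun k => by rw [it_nil]; simp⟩
  | cons b x ih =>
    obtain ⟨B, hB⟩ := ih (fun c hc => hx c (List.mem_cons_of_mem b hc))
    have hb : ¬ Gr h b := hx b List.mem_cons_self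
    unfold Gr at hb
    push Not at hb
    obtain ⟨C, hC⟩ := hb
    refine ⟨C + B, fun k => ?_⟩
    have e : b :: x = [b] ++ x := rfl
    rw [e, it_append, List.length_append]
    exact Nat.add_lt_add (hC k) (hB k)

theorem Bdd_mem_length {α : Type} {h : α → List α} {x : List α} {b : α} (hb : b ∈ x) (k : ℕ) :
    (it h k [b]).length ≤ (it h k x).length := by
  obtain ⟨s, t, rfl⟩ := List.append_of_mem hb
  have e : s ++ b :: t = s ++ ([b] ++ t) := rfl
  rw [e, it_append, it_append, List.length_append, List.length_append]
  omega

/-- `Gr h a` iff some (every) image contains a growing letter.  (`it h (n+k) [a]` is the product of the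
`it h k [b]`, `b ∈ it h n [a]`, finitely many letters; lengths do not decrease.) -/
theorem gr_iff {α : Type} {h : α → List α} (hne : ∀ a, h a ≠ []) (a : α)
    (n : ℕ) : Gr h a ↔ ∃ b ∈ it h n [a], Gr h b := by
  constructor
  · intro ha
    by_contra hcon
    push Not at hcon
    obtain ⟨B, hB⟩ := Bdd_bound (it h n [a]) hcon
    obtain ⟨k, hk⟩ := ha B
    have h1 := length_it_mono hne [a] (Nat.le_add_right k n)
    rw [it_add] at h1
    have h2 := hB k
    omega
  · rintro ⟨b, hb, hg⟩ B
    obtain ⟨k, hk⟩ := hg B
    refine ⟨k + n, ?_⟩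
    rw [it_add]
    exact hk.trans (Bdd_mem_length hb k)

/-- Bounded letters are mapped to single bounded letters.
Proof: the words `it h n [b]` have bounded length, finitely many words, so `it h i [b] = it h j [b]` for some
`i < j`, by injectivity `it h (j-i) [b] = [b]`; lengths do not decrease, so `|h b| ≤ |it h (j-i) [b]| = 1`. -/
theorem bdd_single {α : Type} [Fintype α] {h : α → List α} (inj : Function.Injective (app h))
    {b : α} (hb : ¬ Gr h b) : ∃ b', h b = [b'] ∧ ¬ Gr h b' := by
  have hne := fun a => ne_of_inj inj a
  obtain ⟨B, hB⟩ := Bdd_bound (h := h) [b] (fun c hc => by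
    rw [List.mem_singleton] at hc
    exact hc ▸ hb)
  obtain ⟨i, j, hij, he⟩ := (List.finite_length_lt α B).exists_lt_map_eq_of_forall_mem
    (f := fun k => it h k [b]) (fun k => hB k)
  obtain ⟨k, rfl⟩ := Nat.exists_eq_add_of_lt hij
  have he' : it h i [b] = it h i (it h (k + 1) [b]) := by
    rw [← it_add]
    exact he
  have h1 : [b] = it h (k + 1) [b] := (inj.iterate i) he'
  have h2 := length_it_mono hne [b] (Nat.le_add_left 1 k)
  rw [← h1, it_one, app_singleton] at h2
  have h3 : 0 < (h b).length := List.length_pos_iff.2 (hne b)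
  have h4 : (h b).length = 1 := by
    simp at h2
    omega
  obtain ⟨b', hb'⟩ := List.length_eq_one_iff.1 h4
  refine ⟨b', hb', fun hg => hb ((gr_iff hne b 1).2 ⟨b', ?_, hg⟩)⟩
  rw [it_one, app_singleton, hb']
  exact List.mem_singleton_self b'

theorem Bdd_app {α : Type} [Fintype α] {h : α → List α} (inj : Function.Injective (app h))
    (x : List α) (hx : Bw h x) : Bw h (app h x) ∧ (app h x).length = x.length := by
  induction x with
  | nil => exact ⟨fun b hb => by simp [app_nil] at hb, rfl⟩
  | cons c x ih =>
    obtain ⟨h1, h2⟩ := ih (fun b hb => hx b (List.mem_cons_of_mem c hb))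
    obtain ⟨c', hc', hg⟩ := bdd_single inj (hx c List.mem_cons_self)
    rw [app_cons, hc']
    constructor
    · intro b hb
      rw [List.mem_append, List.mem_singleton] at hb
      rcases hb with rfl | hb
      · exact hg
      · exact h1 b hb
    · rw [List.length_append, h2, List.length_cons]
      simp
      omega

theorem bw_it {α : Type} [Fintype α] {h : α → List α} (inj : Function.Injective (app h))
    {x : List α} (hx : Bw h x) (n : ℕ) : Bw h (it h n x) ∧ (it h n x).length = x.length := by
  induction n with
  | zero => exact ⟨hx, rfl⟩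
  | succ n ih =>
    obtain ⟨h1, h2⟩ := ih
    obtain ⟨h3, h4⟩ := Bdd_app inj _ h1
    rw [it_succ]
    exact ⟨h3, h4.trans h2⟩

/-- A system of bounded letters: the words `w_n` have the length of `w`, there are at most `s^s` such words,
so `w_i = w_j` for some `i < j ≤ s^s`. -/
theorem rel_of_bw {α : Type} [Fintype α] {h : α → List α} {w : List α} {s : ℕ} (hs : Sz s h w)
    (inj : Function.Injective (app h)) (hb : Bw h w) : ∃ p ≤ (s + 1) ^ (s + 1), Rel h w p := by
  obtain ⟨h1, h2, h3⟩ := hs
  set N := (s + 1) ^ (s + 1) with hN
  let f : Fin (N + 1) → List.Vector α w.length := fun n => ⟨it h n w, (bw_it inj hb n).2⟩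
  have hcard : Fintype.card (List.Vector α w.length) < Fintype.card (Fin (N + 1)) := by
    rw [card_vector, Fintype.card_fin]
    have h4 : Fintype.card α ^ w.length ≤ (s + 1) ^ w.length :=
      Nat.pow_le_pow_left (by omega) _
    have h5 : (s + 1) ^ w.length ≤ (s + 1) ^ (s + 1) :=
      Nat.pow_le_pow_right (by omega) (by omega)
    omega
  obtain ⟨i, j, hij, he⟩ := Fintype.exists_ne_map_eq_of_card_lt f hcard
  have he' : it h i w = it h j w := congrArg Subtype.val he
  have key : ∀ i j : Fin (N + 1), i < j → it h i w = it h j w → ∃ p ≤ N, Rel h w p := by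
    intro i j hlt e
    refine ⟨j, by omega, [(i : ℕ)], by simp, ?_, ?_⟩
    · intro k hk
      rw [List.mem_singleton] at hk
      subst hk
      exact hlt
    · simp [e]
  rcases lt_or_gt_of_ne hij with hlt | hlt
  · exact key i j hlt he'
  · exact key j i hlt he'.symm

theorem Bdd_double {α : Type} {h : α → List α} {K : ℕ} (hK : ∀ c, 2 ≤ (it h K [c]).length)
    (x : List α) (n : ℕ) : 2 ^ n * x.length ≤ (it h (K * n) x).length := by
  have step : ∀ y : List α, 2 * y.length ≤ (it h K y).length := by
    intro y
    induction y with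
    | nil => simp
    | cons c y ih =>
      have e : c :: y = [c] ++ y := rfl
      rw [e, it_append, List.length_append, List.length_append]
      have := hK c
      simp
      omega
  induction n with
  | zero => simp [it_zero]
  | succ n ih =>
    have e : K * (n + 1) = K + K * n := by ring
    rw [e, it_add]
    have h1 := step (it h (K * n) x)
    have h2 : 2 ^ (n + 1) * x.length = 2 * (2 ^ n * x.length) := by ring
    rw [h2]
    omega

theorem Bdd_gr {α : Type} {h : α → List α} {K : ℕ} (hK : ∀ c, 2 ≤ (it h K [c]).length)
    (a : α) : Gr h a := by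
  intro B
  refine ⟨K * B, ?_⟩
  have h1 := Bdd_double hK [a] B
  have h2 : B < 2 ^ B := Nat.lt_two_pow_self
  rw [List.length_singleton, mul_one] at h1
  omega

/-- A primitive system which does not grow has one letter `a` and `h a = [a]`.
Proof: let `K` be the exponent of `Prim`.  If there are two letters, then `|it h K [b]| ≥ 2` for all letters `b`, so
`|it h (K n) [b]| ≥ 2^n` and all letters grow.  So `a` is the only letter, `h a = a^r`, `r ≥ 1`, `|it h n [a]| = r^n`, `r = 1`. -/
theorem rel_of_prim_bdd {α : Type} [Fintype α] {h : α → List α} (hne : ∀ a, h a ≠ [])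
    (hp : Prim h) {a : α} (ha : ¬ Gr h a) (w : List α) : Rel h w 1 := by
  classical
  obtain ⟨K, hK0, hK⟩ := hp
  have hall : ∀ b, b = a := by
    intro b
    by_contra hba
    apply ha
    refine Bdd_gr (K := K) (fun c => ?_) a
    have h1 : a ∈ it h K [c] := hK c a
    have h2 : b ∈ it h K [c] := hK c b
    by_contra hlt
    have h3 : (it h K [c]).length = 1 := by
      have := List.length_pos_of_mem h1
      omega
    obtain ⟨d, hd⟩ := List.length_eq_one_iff.1 h3
    rw [hd, List.mem_singleton] at h1 h2
    exact hba (h2.trans h1.symm)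
  have hone : ∀ c, h c = [c] := by
    intro c
    have h1 : (h a).length = 1 := by
      have h2 : 0 < (h a).length := List.length_pos_iff.2 (hne a)
      by_contra hlt
      apply ha
      refine Bdd_gr (K := 1) (fun c => ?_) a
      rw [it_one, app_singleton, hall c]
      omega
    obtain ⟨d, hd⟩ := List.length_eq_one_iff.1 h1
    rw [hall c, hd, hall d]
  have happ : app h w = w := by
    induction w with
    | nil => rfl
    | cons c w ih =>
      rw [app_cons, hone c, ih]
      rfl
  refine ⟨[0], by simp, by simp, ?_⟩
  rw [it_one, happ]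
  simp [it_zero]

end D0L
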