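import Pool.Agent.H.MP_374efc_lc.Red.Tile

/-!
# MP_374efc_lc, general reduction: the axiom is legal
-/

set_option autoImplicit false

namespace D0L

theorem Legal_infix {α : Type} {h : α → List α} {x y : List α} (n : ℕ) (hxy : x <:+: y) :
    it h n x <:+: it h n y := by
  obtain ⟨u, v, rfl⟩ := hxy
  rw [it_append, it_append]
  exact ⟨_, _, rfl⟩

theorem Legal_self {α : Type} {h : α → List α} {w : List α}
    (inj : Function.Injective (app h)) (hlc : LC h w) : ∃ p, Rel h w p ∧ w <:+: it h p w := by
  classical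
  have hex : ∃ p, Rel h w p := hlc
  refine ⟨Nat.find hex, Nat.find_spec hex, ?_⟩
  obtain ⟨js, h1, h2, h3⟩ := Nat.find_spec hex
  have h0 : 0 ∈ js := by
    by_contra hc
    have hpos : ∀ j ∈ js, 1 ≤ j := by
      intro j hj
      rcases Nat.eq_zero_or_pos j with h4 | h4
      · rw [h4] at hj
        exact absurd hj hc
      · exact h4
    obtain ⟨j0, hj0⟩ := List.exists_mem_of_ne_nil js h1
    have hp1 : 1 ≤ Nat.find hex := le_trans (hpos j0 hj0) (h2 j0 hj0).le
    obtain ⟨q, hq⟩ : ∃ q, Nat.find hex = q + 1 := ⟨Nat.find hex - 1, by omega⟩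
    have hrel : Rel h w q := by
      refine ⟨js.map (· - 1), ?_, ?_, ?_⟩
      · intro h5
        exact h1 (List.map_eq_nil_iff.mp h5)
      · intro j hj
        rw [List.mem_map] at hj
        obtain ⟨i, hi, rfl⟩ := hj
        have e1 := hpos i hi
        have e2 := h2 i hi
        omega
      · apply inj
        rw [← it_succ, ← hq, h3, app_flatten, List.map_map, List.map_map]
        refine congrArg List.flatten (List.map_congr_left fun j hj => ?_)
        have e1 := hpos j hj
        simp only [Function.comp]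
        rw [← it_succ, Nat.sub_add_cancel e1]
    exact Nat.find_min hex (by omega) hrel
  rw [h3]
  exact List.infix_of_mem_flatten (List.mem_map.mpr ⟨0, h0, rfl⟩)

/-- Proof.  Let `p` be minimal with `Rel h w p`, list `js`.  Some `j ∈ js` is `0`: otherwise `w_p = app h w_(p-1)` and
`w_p = app h` (product of the `w_(j-1)`), by injectivity `Rel h w (p-1)`.  So `w <:+: w_p`.  Let `a` be a letter of `w`; for
some `n` `|it h n [a]| ≥ M` of `long_factor`, `it h n [a] <:+: it h n w`, so `it h i w <:+: it h n [a]` for some `i < p`; apply `it h (p-i)`: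
`w <:+: it h p w <:+: it h (n+p-i) [a]`. -/
theorem legal {α : Type} [Fintype α] {h : α → List α} {w : List α} (hne : ∀ a, h a ≠ [])
    (inj : Function.Injective (app h)) (hw : w ≠ []) (hlc : LC h w) (hgr : ∀ a, Gr h a) :
    Legal h w := by
  obtain ⟨p, hp, hwp⟩ := Legal_self inj hlc
  obtain ⟨M, hM⟩ := long_factor hp
  obtain ⟨a, ha⟩ := List.exists_mem_of_ne_nil w hw
  obtain ⟨n, hn⟩ := hgr a M
  obtain ⟨u, v, huv⟩ := List.append_of_mem ha
  have h1 : [a] <:+: w := ⟨u, v, by rw [huv]; simp⟩
  obtain ⟨i, hi, j, hj, hij⟩ := hM n _ (Legal_infix n h1) hn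
  have h2 : it h i w <:+: it h n [a] := (List.prefix_append _ _).isInfix.trans hij
  have h3 := Legal_infix (h := h) (p - i) h2
  rw [← it_add, ← it_add, Nat.sub_add_cancel hi.le] at h3
  exact ⟨a, _, hwp.trans h3⟩

end D0L
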