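import Pool.Agent.H.MP_374efc_lc.Red.Bdd

/-!
# MP_374efc_lc, general reduction: bounded blocks, first and last growing letters
-/

set_option autoImplicit false

namespace D0L

variable {α : Type} [Fintype α] {h : α → List α} {w : List α} {s : ℕ}

/-! ### the mirror image -/

omit [Fintype α] in
theorem Z1_app_rev (h : α → List α) (x : List α) :
    app (rev h) x.reverse = (app h x).reverse := by
  induction x with
  | nil => rfl
  | cons a x ih =>
    rw [List.reverse_cons, app_append, ih, app_singleton, app_cons, List.reverse_append]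
    rfl

omit [Fintype α] in
theorem Z1_rev_rev (h : α → List α) : rev (rev h) = h := by
  funext a
  simp [rev]

omit [Fintype α] in
theorem it_rev (h : α → List α) (n : ℕ) (x : List α) :
    it (rev h) n x.reverse = (it h n x).reverse := by
  induction n with
  | zero => rfl
  | succ n ih => rw [it_succ, it_succ, ih, Z1_app_rev]

omit [Fintype α] in
theorem Z1_it_rev_one (h : α → List α) (n : ℕ) (a : α) :
    it (rev h) n [a] = (it h n [a]).reverse := by
  rw [← it_rev]
  rfl

omit [Fintype α] in
theorem gr_rev {a : α} : Gr (rev h) a ↔ Gr h a := by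
  unfold Gr
  simp only [Z1_it_rev_one, List.length_reverse]

omit [Fintype α] in
theorem bw_rev {x : List α} : Bw (rev h) x.reverse ↔ Bw h x := by
  unfold Bw
  simp only [gr_rev, List.mem_reverse]

omit [Fintype α] in
theorem pl_rev {d : α} : PL (rev h) d ↔ PR h d := by
  unfold PL PR
  apply forall_congr'
  intro n
  rw [Z1_it_rev_one]
  constructor
  · rintro ⟨b, y, h1, h2⟩
    refine ⟨b, y.reverse, ?_, gr_rev.1 h2⟩
    have h3 := congrArg List.reverse h1
    rw [List.reverse_reverse, List.reverse_cons] at h3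
    exact h3
  · rintro ⟨b, y, h1, h2⟩
    refine ⟨b, y.reverse, ?_, gr_rev.2 h2⟩
    rw [h1, List.reverse_append]
    rfl

omit [Fintype α] in
theorem pr_rev {d : α} : PR (rev h) d ↔ PL h d := by
  rw [← pl_rev, Z1_rev_rev]

theorem sz_rev (hs : Sz s h w) : Sz s (rev h) w.reverse := by
  obtain ⟨h1, h2, h3⟩ := hs
  refine ⟨h1, fun a => ?_, ?_⟩
  · rw [rev, List.length_reverse]
    exact h2 a
  · rw [List.length_reverse]
    exact h3

omit [Fintype α] in
theorem Z1_inj_rev (inj : Function.Injective (app h)) : Function.Injective (app (rev h)) := by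
  intro x y hxy
  have h1 : (app h x.reverse).reverse = (app h y.reverse).reverse := by
    rw [← Z1_app_rev, ← Z1_app_rev, List.reverse_reverse, List.reverse_reverse]
    exact hxy
  exact List.reverse_injective (inj (List.reverse_injective h1))

/-- For `LC` reverse the list of the indices. -/
theorem mix_rev (hm : Mix h w) : Mix (rev h) w.reverse := by
  refine ⟨Z1_inj_rev hm.inj, fun n a => ?_, fun a ha i hi b => ?_, ?_, ?_⟩
  · rw [it_rev, List.mem_reverse]
    exact hm.full n a
  · rw [Z1_it_rev_one, List.mem_reverse]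
    exact hm.mix a (gr_rev.1 ha) i hi b
  · obtain ⟨a, ha⟩ := hm.gr
    exact ⟨a, gr_rev.2 ha⟩
  · obtain ⟨p, js, h1, h2, h3⟩ := hm.lc
    refine ⟨p, js.reverse, ?_, ?_, ?_⟩
    · intro h4
      exact h1 (List.reverse_eq_nil_iff.1 h4)
    · intro j hj
      exact h2 j (List.mem_reverse.1 hj)
    · rw [it_rev, h3, List.reverse_flatten, List.map_map, List.map_reverse]
      congr 2
      apply List.map_congr_left
      intro j _
      simp only [Function.comp]
      rw [it_rev]

/-! ### blocks -/

omit [Fintype α] in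
theorem Z1_bw_nil : Bw h ([] : List α) := by
  intro b hb
  simp at hb

omit [Fintype α] in
theorem Z1_bw_append {x y : List α} (hx : Bw h x) (hy : Bw h y) : Bw h (x ++ y) := by
  intro b hb
  rcases List.mem_append.1 hb with hb | hb
  · exact hx b hb
  · exact hy b hb

omit [Fintype α] in
theorem Z1_not_bw {x : List α} {a : α} (ha : a ∈ x) (hg : Gr h a) : ¬ Bw h x :=
  fun hx => hx a ha hg

omit [Fintype α] in
/-- first growing letter (`x = p ++ d :: y`, `p` bounded) -/
theorem bl_exists {x : List α} (hx : ¬ Bw h x) : ∃ p d y, x = p ++ d :: y ∧ Bw h p ∧ Gr h d := by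
  induction x with
  | nil => exact absurd Z1_bw_nil hx
  | cons a x ih =>
    by_cases ha : Gr h a
    · exact ⟨[], a, x, rfl, Z1_bw_nil, ha⟩
    · have h1 : ¬ Bw h x := by
        intro h2
        apply hx
        intro b hb
        rcases List.mem_cons.1 hb with hb | hb
        · rw [hb]
          exact ha
        · exact h2 b hb
      obtain ⟨p, d, y, h2, h3, h4⟩ := ih h1
      refine ⟨a :: p, d, y, by rw [h2]; rfl, ?_, h4⟩
      intro b hb
      rcases List.mem_cons.1 hb with hb | hb
      · rw [hb]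
        exact ha
      · exact h3 b hb

omit [Fintype α] in
theorem bl_unique {p p' y y' : List α} {d d' : α} (h1 : Bw h p) (h2 : Gr h d) (h3 : Bw h p')
    (h4 : Gr h d') (he : p ++ d :: y = p' ++ d' :: y') : p = p' ∧ d = d' ∧ y = y' := by
  induction p generalizing p' with
  | nil =>
    cases p' with
    | nil =>
      rw [List.nil_append, List.nil_append, List.cons.injEq] at he
      exact ⟨rfl, he.1, he.2⟩
    | cons b p' =>
      rw [List.nil_append, List.cons_append, List.cons.injEq] at he
      exact absurd (he.1 ▸ h2) (h3 b List.mem_cons_self)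
  | cons a p ih =>
    cases p' with
    | nil =>
      rw [List.nil_append, List.cons_append, List.cons.injEq] at he
      exact absurd (he.1 ▸ h4) (h1 a List.mem_cons_self)
    | cons b p' =>
      rw [List.cons_append, List.cons_append, List.cons.injEq] at he
      obtain ⟨e1, e2, e3⟩ := ih (fun c hc => h1 c (List.mem_cons_of_mem _ hc))
        (fun c hc => h3 c (List.mem_cons_of_mem _ hc)) he.2
      exact ⟨by rw [he.1, e1], e2, e3⟩

omit [Fintype α] in
/-- last growing letter (`x = y ++ d :: s`, `s` bounded) -/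
theorem br_exists {x : List α} (hx : ¬ Bw h x) : ∃ y d s, x = y ++ d :: s ∧ Bw h s ∧ Gr h d := by
  have h1 : ¬ Bw (rev h) x.reverse := fun h2 => hx (bw_rev.1 h2)
  obtain ⟨p, d, y, h2, h3, h4⟩ := bl_exists h1
  refine ⟨y.reverse, d, p.reverse, ?_, ?_, gr_rev.1 h4⟩
  · have h5 := congrArg List.reverse h2
    rw [List.reverse_reverse, List.reverse_append, List.reverse_cons, List.append_assoc] at h5
    exact h5
  · rw [← bw_rev, List.reverse_reverse]
    exact h3

omit [Fintype α] in
theorem br_unique {s s' y y' : List α} {d d' : α} (h1 : Bw h s) (h2 : Gr h d) (h3 : Bw h s')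
    (h4 : Gr h d') (he : y ++ d :: s = y' ++ d' :: s') : s = s' ∧ d = d' ∧ y = y' := by
  have h5 := congrArg List.reverse he
  rw [List.reverse_append, List.reverse_append, List.reverse_cons, List.reverse_cons,
    List.append_assoc, List.append_assoc] at h5
  obtain ⟨e1, e2, e3⟩ := bl_unique (bw_rev.2 h1) (gr_rev.2 h2) (bw_rev.2 h3) (gr_rev.2 h4) h5
  exact ⟨List.reverse_injective e1, e2, List.reverse_injective e3⟩

omit [Fintype α] in
theorem Z1_it_cons (h : α → List α) (n : ℕ) (d : α) (y : List α) :
    it h n (d :: y) = it h n [d] ++ it h n y := by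
  rw [← it_append]
  rfl

omit [Fintype α] in
/-- `PL` passes to the first letter of an image. -/
theorem Z1_pl_step (hne : ∀ a, h a ≠ []) {d b : α} {y : List α} {n : ℕ} (hd : PL h d)
    (he : it h n [d] = b :: y) : PL h b := by
  intro m
  obtain ⟨c, z, h1, h2⟩ := hd (m + n)
  rw [it_add, he, Z1_it_cons] at h1
  have h3 : it h m [b] ≠ [] := by
    intro h4
    have h5 := length_it_mono hne [b] (Nat.zero_le m)
    rw [h4, it_zero] at h5
    simp at h5
  obtain ⟨c', z', h6⟩ := List.exists_cons_of_ne_nil h3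
  rw [h6, List.cons_append, List.cons.injEq] at h1
  exact ⟨c', z', h6, h1.1 ▸ h2⟩

/-- The letters of `PL` keep the length of the block in front of them. -/
theorem pl_const (inj : Function.Injective (app h)) {p y : List α} {d : α} (hp : Bw h p)
    (hd : PL h d) (n : ℕ) :
    ∃ p' d' y', it h n (p ++ d :: y) = p' ++ d' :: y' ∧ Bw h p' ∧ p'.length = p.length ∧
      PL h d' := by
  obtain ⟨b, z, h1, h2⟩ := hd n
  obtain ⟨h3, h4⟩ := bw_it inj hp n
  refine ⟨it h n p, b, z ++ it h n y, ?_, h3, h4, Z1_pl_step (fun a => ne_of_inj inj a) hd h1⟩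
  rw [it_append, Z1_it_cons, h1]
  rfl

theorem pr_const (inj : Function.Injective (app h)) {s y : List α} {d : α} (hs : Bw h s)
    (hd : PR h d) (n : ℕ) :
    ∃ y' d' s', it h n (y ++ d :: s) = y' ++ d' :: s' ∧ Bw h s' ∧ s'.length = s.length ∧
      PR h d' := by
  obtain ⟨p', d', y', h1, h2, h3, h4⟩ := pl_const (y := y.reverse) (Z1_inj_rev inj)
    (bw_rev.2 hs) (pl_rev.2 hd) n
  refine ⟨y'.reverse, d', p'.reverse, ?_, ?_, ?_, pl_rev.1 h4⟩
  · have h5 : s.reverse ++ d :: y.reverse = (y ++ d :: s).reverse := by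
      rw [List.reverse_append, List.reverse_cons, List.append_assoc]
      rfl
    rw [h5, it_rev] at h1
    have h6 := congrArg List.reverse h1
    rw [List.reverse_reverse, List.reverse_append, List.reverse_cons, List.append_assoc] at h6
    exact h6
  · rw [← bw_rev, List.reverse_reverse]
    exact h2
  · rw [List.length_reverse, h3, List.length_reverse]

/-- The bounded factors of the `w_n` have bounded length.
Proof: `long_factor` gives `M`; a bounded factor of length `≥ M` contains a full tile, which contains a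
growing letter. -/
theorem block_bound (hm : Mix h w) : ∃ B, ∀ n x, x <:+: it h n w → Bw h x → x.length < B := by
  obtain ⟨p, hp⟩ := hm.lc
  obtain ⟨M, hM⟩ := long_factor hp
  refine ⟨M, fun n x hx hb => ?_⟩
  by_contra hlt
  obtain ⟨i, _, j, _, hij⟩ := hM n x hx (not_lt.1 hlt)
  obtain ⟨a, ha⟩ := hm.gr
  have h1 : a ∈ it h i w ++ it h j w := List.mem_append_left _ (hm.full i a)
  exact hb a (hij.subset h1) ha

omit [Fintype α] in
theorem Z1_not_bw_it (hne : ∀ a, h a ≠ []) {a : α} (ha : Gr h a) (n : ℕ) :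
    ¬ Bw h (it h n [a]) := by
  obtain ⟨b, h1, h2⟩ := (gr_iff hne a n).1 ha
  exact Z1_not_bw h1 h2

omit [Fintype α] in
/-- The first growing letter of `it h k (p ++ d :: y)` is the one of `it h k [d]`. -/
theorem Z1_first_step {p y p' y' : List α} {d d' : α} {k : ℕ} (_hp : Bw h (it h k p))
    (hk : it h k [d] = p' ++ d' :: y') :
    it h k (p ++ d :: y) = (it h k p ++ p') ++ d' :: (y' ++ it h k y) := by
  rw [it_append, Z1_it_cons, hk]
  simp [List.append_assoc]

/-- A growing letter `d` which is the first growing letter of `it h q [d]`, `0 < q`, is in `PL`. -/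
theorem Z1_pl_of_cycle (hm : Mix h w) {d : α} (hd : Gr h d) {q : ℕ} (hq : 0 < q)
    {z y : List α} (hz : Bw h z) (he : it h q [d] = z ++ d :: y) : PL h d := by
  have hne := fun a => ne_of_inj hm.inj a
  have key : ∀ n, ∃ Z Y, it h (q * n) [d] = Z ++ d :: Y ∧ Bw h Z ∧ Z.length = n * z.length := by
    intro n
    induction n with
    | zero => exact ⟨[], [], rfl, Z1_bw_nil, by simp⟩
    | succ n ih =>
      obtain ⟨Z, Y, h1, h2, h3⟩ := ih
      obtain ⟨h4, h5⟩ := bw_it hm.inj h2 q
      refine ⟨it h q Z ++ z, y ++ it h q Y, ?_, Z1_bw_append h4 hz, ?_⟩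
      · have e : q * (n + 1) = q + q * n := by ring
        rw [e, it_add, h1]
        exact Z1_first_step h4 he
      · rw [List.length_append, h5, h3]
        ring
  obtain ⟨B, hB⟩ := block_bound hm
  have hz0 : z.length = 0 := by
    by_contra hz1
    obtain ⟨Z, Y, h1, h2, h3⟩ := key B
    obtain ⟨u, v, huv⟩ := List.append_of_mem (hm.full 0 d)
    rw [it_zero] at huv
    have h4 : Z <:+: it h (q * B) w := by
      rw [huv, it_append, Z1_it_cons, h1]
      exact ⟨it h (q * B) u, (d :: Y) ++ it h (q * B) v, by simp [List.append_assoc]⟩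
    have h5 := hB (q * B) Z h4 h2
    rw [h3] at h5
    have h6 : 1 ≤ z.length := Nat.one_le_iff_ne_zero.2 hz1
    have h7 : B * 1 ≤ B * z.length := Nat.mul_le_mul_left _ h6
    omega
  intro n
  have h0 : it h n [d] ≠ [] := by
    intro h4
    have h5 := length_it_mono hne [d] (Nat.zero_le n)
    rw [h4, it_zero] at h5
    simp at h5
  obtain ⟨b, x, h6⟩ := List.exists_cons_of_ne_nil h0
  refine ⟨b, x, h6, ?_⟩
  by_contra hb
  obtain ⟨Z, Y, h1, h2, h3⟩ := key n
  have h7 : Z = [] := by
    rw [← List.length_eq_zero_iff, h3, hz0, Nat.mul_zero]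
  rw [h7, List.nil_append] at h1
  have h8 : q * n = (q * n - n) + n := by
    have : 1 * n ≤ q * n := Nat.mul_le_mul_right _ hq
    omega
  rw [h8, it_add, h6, Z1_it_cons] at h1
  have hb1 : Bw h [b] := by
    intro c hc
    rw [List.mem_singleton] at hc
    rw [hc]
    exact hb
  obtain ⟨h9, h10⟩ := bw_it hm.inj hb1 (q * n - n)
  obtain ⟨c, hc⟩ := List.length_eq_one_iff.1 h10
  rw [hc] at h1 h9
  rw [List.cons_append, List.cons.injEq] at h1
  have h11 := h9 c List.mem_cons_self
  rw [h1.1] at h11
  exact h11 hd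

/-- After `card α` steps the first growing letter of the image of a growing letter is in `PL`.
Proof: let `d_i` be the first growing letter of `it h i [a]`.  Then `d_i = d_j =: d` for some `i < j ≤ card α`.  With
`q = j - i` we get `it h q [d] = z ++ d :: y`, `z` bounded (the first growing letter of `it h (q+i) [a]` is the one of
`it h q [d_i]`, by `bl_unique`).  `it h (q n) [d]` begins with a bounded word of length `n |z|` and is a factor of `it h (q n) w`;
by `block_bound` `z = []`.  So `it h (q n) [d]` begins with `d` for all `n`.  If some `it h n [d]` began with a bounded letter, then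
also `it h n' [d]` for all `n' ≥ n` (`bw_it`), a contradiction; so `PL h d`.  `PL` passes from `d` to the first
letter of every `it h n [d]`; for `n ≥ i` the letter `d_n` is the first letter of `it h (n - i) [d_i]`. -/
theorem first_pl (hm : Mix h w) {a : α} (ha : Gr h a) {n : ℕ} (hn : Fintype.card α ≤ n)
    {p y : List α} {d : α} (he : it h n [a] = p ++ d :: y) (hp : Bw h p) (hd : Gr h d) :
    PL h d := by
  have hne := fun a => ne_of_inj hm.inj a
  choose P D Y h1 h2 h3 using fun i : ℕ => bl_exists (Z1_not_bw_it hne ha i)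
  obtain ⟨i, j, hij, hD⟩ : ∃ i j : Fin (Fintype.card α + 1), i < j ∧ D i = D j := by
    obtain ⟨i, j, hij, hD⟩ := Fintype.exists_ne_map_eq_of_card_lt
      (fun i : Fin (Fintype.card α + 1) => D i) (by rw [Fintype.card_fin]; omega)
    rcases lt_or_gt_of_ne hij with hlt | hlt
    · exact ⟨i, j, hlt, hD⟩
    · exact ⟨j, i, hlt, hD.symm⟩
  obtain ⟨i, hi⟩ := i
  obtain ⟨j, hj⟩ := j
  simp only [Fin.mk_lt_mk] at hij
  simp only at hD
  -- the cycle
  obtain ⟨z, e, y0, g1, g2, g3⟩ := bl_exists (Z1_not_bw_it hne (h3 i) (j - i))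
  have hjj : j = (j - i) + i := by omega
  have g4 := h1 j
  have g5 : it h j [a] = (it h (j - i) (P i) ++ z) ++ e :: (y0 ++ it h (j - i) (Y i)) := by
    conv_lhs => rw [hjj]
    rw [it_add, h1 i]
    exact Z1_first_step (bw_it hm.inj (h2 i) (j - i)).1 g1
  rw [g5] at g4
  obtain ⟨-, g6, -⟩ := bl_unique (Z1_bw_append (bw_it hm.inj (h2 i) (j - i)).1 g2) g3 (h2 j)
    (h3 j) g4
  rw [g6, ← hD] at g1
  have hpl : PL h (D i) := Z1_pl_of_cycle hm (h3 i) (by omega) g2 g1
  -- transport to `n`
  obtain ⟨b, y1, k1, k2⟩ := hpl (n - i)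
  have k3 : it h n [a] = (it h (n - i) (P i) ++ []) ++ b :: (y1 ++ it h (n - i) (Y i)) := by
    have hnn : n = (n - i) + i := by omega
    conv_lhs => rw [hnn]
    rw [it_add, h1 i]
    exact Z1_first_step (bw_it hm.inj (h2 i) (n - i)).1 k1
  rw [he] at k3
  obtain ⟨-, k4, -⟩ := bl_unique hp hd
    (Z1_bw_append (bw_it hm.inj (h2 i) (n - i)).1 Z1_bw_nil) k2 k3
  rw [k4]
  exact Z1_pl_step hne hpl k1

omit [Fintype α] in
theorem Z1_rev_split {x y t : List α} {d : α} (he : x = y ++ d :: t) :
    x.reverse = t.reverse ++ d :: y.reverse := by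
  rw [he, List.reverse_append, List.reverse_cons, List.append_assoc]
  rfl

theorem last_pr (hm : Mix h w) {a : α} (ha : Gr h a) {n : ℕ} (hn : Fintype.card α ≤ n)
    {s y : List α} {d : α} (he : it h n [a] = y ++ d :: s) (hp : Bw h s) (hd : Gr h d) :
    PR h d := by
  have h1 : it (rev h) n [a] = s.reverse ++ d :: y.reverse := by
    rw [Z1_it_rev_one]
    exact Z1_rev_split he
  exact pl_rev.1 (first_pl (mix_rev hm) (gr_rev.2 ha) hn h1 (bw_rev.2 hp) (gr_rev.2 hd))

omit [Fintype α] in
theorem Z1_pl_gr {d : α} (hd : PL h d) : Gr h d := by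
  obtain ⟨b, y, h1, h2⟩ := hd 0
  rw [it_zero, List.cons.injEq] at h1
  rw [h1.1]
  exact h2

/-- `|p|` is the same for all `n` for which the first growing letter is in `PL` (`pl_const`, `bl_unique`). -/
theorem first_const (inj : Function.Injective (app h)) {a : α} {m n : ℕ} {p y p' y' : List α}
    {d d' : α} (h1 : it h m [a] = p ++ d :: y) (h2 : Bw h p) (h3 : PL h d)
    (h4 : it h n [a] = p' ++ d' :: y') (h5 : Bw h p') (h6 : PL h d') : p.length = p'.length := by
  have key : ∀ (m n : ℕ) (p y p' y' : List α) (d d' : α), m ≤ n → it h m [a] = p ++ d :: y →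
      Bw h p → PL h d → it h n [a] = p' ++ d' :: y' → Bw h p' → PL h d' →
      p.length = p'.length := by
    intro m n p y p' y' d d' hmn h1 h2 h3 h4 h5 h6
    obtain ⟨p1, d1, y1, g1, g2, g3, g4⟩ := pl_const (y := y) inj h2 h3 (n - m)
    have hnn : n = (n - m) + m := by omega
    rw [hnn, it_add, h1, g1] at h4
    obtain ⟨e1, -, -⟩ := bl_unique g2 (Z1_pl_gr g4) h5 (Z1_pl_gr h6) h4
    rw [← e1, g3]
  rcases le_total m n with hmn | hmn
  · exact key m n p y p' y' d d' hmn h1 h2 h3 h4 h5 h6
  · exact (key n m p' y' p y d' d hmn h4 h5 h6 h1 h2 h3).symm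

theorem last_const (inj : Function.Injective (app h)) {a : α} {m n : ℕ} {s y s' y' : List α}
    {d d' : α} (h1 : it h m [a] = y ++ d :: s) (h2 : Bw h s) (h3 : PR h d)
    (h4 : it h n [a] = y' ++ d' :: s') (h5 : Bw h s') (h6 : PR h d') : s.length = s'.length := by
  have g1 : it (rev h) m [a] = s.reverse ++ d :: y.reverse := by
    rw [Z1_it_rev_one]
    exact Z1_rev_split h1
  have g2 : it (rev h) n [a] = s'.reverse ++ d' :: y'.reverse := by
    rw [Z1_it_rev_one]
    exact Z1_rev_split h4
  have g3 := first_const (Z1_inj_rev inj) g1 (bw_rev.2 h2) (pl_rev.2 h3) g2 (bw_rev.2 h5)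
    (pl_rev.2 h6)
  rw [List.length_reverse, List.length_reverse] at g3
  exact g3

/-- For `n ≤ card α` `|p| ≤ |it h n [a]| ≤ s^n`; for `n ≥ card α` the length is the one for `card α`. -/
theorem first_le (hm : Mix h w) (hs : Sz s h w) {a : α} (ha : Gr h a) {n : ℕ} {p y : List α}
    {d : α} (he : it h n [a] = p ++ d :: y) (hp : Bw h p) (hd : Gr h d) : p.length ≤ s ^ s := by
  have hne := fun a => ne_of_inj hm.inj a
  have hcard : 0 < Fintype.card α := Fintype.card_pos_iff.2 ⟨a⟩
  obtain ⟨hs1, hs2, hs3⟩ := hs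
  have key : ∀ (n : ℕ) (p y : List α) (d : α), n ≤ Fintype.card α → it h n [a] = p ++ d :: y →
      p.length ≤ s ^ s := by
    intro n p y d hn he
    have h1 := length_it_le hs2 n [a]
    rw [he, List.length_append, List.length_singleton, mul_one] at h1
    have h2 : s ^ n ≤ s ^ s := Nat.pow_le_pow_right (by omega) (by omega)
    omega
  rcases le_total n (Fintype.card α) with hn | hn
  · exact key n p y d hn he
  · obtain ⟨p0, d0, y0, h1, h2, h3⟩ := bl_exists (Z1_not_bw_it hne ha (Fintype.card α))
    have h4 : PL h d := first_pl hm ha hn he hp hd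
    have h5 : PL h d0 := first_pl hm ha le_rfl h1 h2 h3
    rw [first_const hm.inj he hp h4 h1 h2 h5]
    exact key _ p0 y0 d0 le_rfl h1

theorem last_le (hm : Mix h w) (hs : Sz s h w) {a : α} (ha : Gr h a) {n : ℕ} {t y : List α}
    {d : α} (he : it h n [a] = y ++ d :: t) (hp : Bw h t) (hd : Gr h d) : t.length ≤ s ^ s := by
  have h1 : it (rev h) n [a] = t.reverse ++ d :: y.reverse := by
    rw [Z1_it_rev_one]
    exact Z1_rev_split he
  have h2 := first_le (mix_rev hm) (sz_rev hs) (gr_rev.2 ha) h1 (bw_rev.2 hp) (gr_rev.2 hd)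
  rw [List.length_reverse] at h2
  exact h2

end D0L
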