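import Pool.Agent.H.MP_374efc_lc.Red.Defs

/-!
# MP_374efc_lc, general reduction: the periodic case, structure
-/

set_option autoImplicit false

namespace D0L

/-- The structure of the periodic case: all legal words are chains `a, σ a, σ (σ a), ...`. -/
structure Cyc {α : Type} (h : α → List α) (σ : α → α) : Prop where
  ne : ∀ a, h a ≠ []
  cyc : ∀ a b, ∃ i, σ^[i] a = b
  chain : ∀ w, Legal h w → w.IsChain (fun a b => b = σ a)
  pair : ∀ a, Legal h [a, σ a]
  inj : ∀ a b c x y, h a = c :: x → h b = c :: y → a = b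

section seg

variable {α : Type}

/-- the segment of length `n` of `U` at `x` -/
def Per1_sg (U : ℕ → α) (x n : ℕ) : List α := (List.range n).map (fun i => U (x + i))

theorem Per1_len (U : ℕ → α) (x n : ℕ) : (Per1_sg U x n).length = n := by
  simp [Per1_sg]

theorem Per1_app (U : ℕ → α) (x a b : ℕ) :
    Per1_sg U x (a + b) = Per1_sg U x a ++ Per1_sg U (x + a) b := by
  unfold Per1_sg
  rw [List.range_add, List.map_append, List.map_map]
  congr 1
  apply List.map_congr_left
  intro i _
  simp only [Function.comp]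
  rw [Nat.add_assoc]

theorem Per1_congr {U : ℕ → α} {x y : ℕ} (h : ∀ i, U (x + i) = U (y + i)) (n : ℕ) :
    Per1_sg U x n = Per1_sg U y n := by
  unfold Per1_sg
  apply List.map_congr_left
  intro i _
  exact h i

theorem Per1_get {U : ℕ → α} {x y n : ℕ} (h : Per1_sg U x n = Per1_sg U y n) (i : ℕ) (hi : i < n) :
    U (x + i) = U (y + i) := by
  unfold Per1_sg at h
  have h1 := List.map_inj_left.1 h i (List.mem_range.2 hi)
  exact h1

/-- A prefix of a segment is a segment. -/
theorem Per1_pre {U : ℕ → α} {x n : ℕ} {u v : List α} (h : u ++ v = Per1_sg U x n) :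
    u = Per1_sg U x u.length ∧ v = Per1_sg U (x + u.length) v.length := by
  have h1 : u.length + v.length = n := by
    have := congrArg List.length h
    rwa [List.length_append, Per1_len] at this
  rw [← h1, Per1_app] at h
  exact List.append_inj h (Per1_len _ _ _).symm

theorem Per1_fac {U : ℕ → α} {x n : ℕ} {u : List α} (h : u <:+: Per1_sg U x n) :
    ∃ y, u = Per1_sg U y u.length := by
  obtain ⟨s, t, h1⟩ := h
  have h2 := (Per1_pre h1).1
  exact ⟨x + s.length, (Per1_pre (x := x) (n := (s ++ u).length) h2).2⟩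

theorem Per1_mul {U : ℕ → α} {q : ℕ} (hU : ∀ x, U (x + q) = U x) (k x : ℕ) :
    U (x + k * q) = U x := by
  induction k with
  | zero => simp
  | succ k ih => rw [Nat.succ_mul, ← Nat.add_assoc, hU, ih]

theorem Per1_mod {U : ℕ → α} {q : ℕ} (hU : ∀ x, U (x + q) = U x) (x : ℕ) (i : ℕ) :
    U (x % q + i) = U (x + i) := by
  have h1 : x + i = (x % q + i) + (x / q) * q := by
    have := Nat.mod_add_div x q
    have h2 : (x / q) * q = q * (x / q) := Nat.mul_comm _ _
    omega
  rw [h1, Per1_mul hU]

/-- Segments of length at least `q` determine the shift. -/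
theorem Per1_det {U : ℕ → α} {q : ℕ} (hq : 0 < q) (hU : ∀ x, U (x + q) = U x) {x y n : ℕ}
    (hn : q ≤ n) (h : Per1_sg U x n = Per1_sg U y n) (i : ℕ) : U (x + i) = U (y + i) := by
  have h1 := Per1_get h (i % q) (lt_of_lt_of_le (Nat.mod_lt _ hq) hn)
  have key : ∀ z, U (z + i) = U (z + i % q) := by
    intro z
    have h2 : z + i = (z + i % q) + (i / q) * q := by
      have := Nat.mod_add_div i q
      have h2 : (i / q) * q = q * (i / q) := Nat.mul_comm _ _
      omega
    rw [h2, Per1_mul hU]
  rw [key, key, h1]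

end seg

theorem Per1_legal_app {α : Type} {h : α → List α} {w : List α} (hw : Legal h w) :
    Legal h (app h w) := by
  obtain ⟨c, n, s, t, h1⟩ := hw
  refine ⟨c, n + 1, app h s, app h t, ?_⟩
  rw [it_succ, ← h1, app_append, app_append]

/-- Iterated images. -/
def Per1_R {α : Type} (h : α → List α) (U : ℕ → α) : ℕ → ℕ → ℕ → Prop
  | 0, x, y => ∀ i, U (x + i) = U (y + i)
  | m + 1, x, y => ∃ z, IsIm h (fun i => U (x + i)) (fun i => U (z + i)) ∧ Per1_R h U m z y

theorem Per1_R_word {α : Type} {h : α → List α} {U : ℕ → α} (m : ℕ) : ∀ x y, Per1_R h U m x y →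
    ∀ n, ∃ k, it h m (Per1_sg U x n) = Per1_sg U y k := by
  induction m with
  | zero =>
    intro x y hR n
    exact ⟨n, Per1_congr hR n⟩
  | succ m ih =>
    rintro x y ⟨z, hz, hR⟩ n
    obtain ⟨k, hk⟩ := hz n
    obtain ⟨l, hl⟩ := ih z y hR k
    refine ⟨l, ?_⟩
    rw [it_succ']
    have h1 : app h (Per1_sg U x n) = Per1_sg U z k := hk
    rw [h1, hl]

theorem Per1_R_inj {α : Type} {h : α → List α} (hi : InjR h) {U : ℕ → α} (m : ℕ) :
    ∀ x x' y y', Per1_R h U m x y → Per1_R h U m x' y' → (∀ i, U (y + i) = U (y' + i)) →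
      ∀ i, U (x + i) = U (x' + i) := by
  induction m with
  | zero =>
    intro x x' y y' h1 h2 h3 i
    rw [h1 i, h3 i, h2 i]
  | succ m ih =>
    rintro x x' y y' ⟨z, hz, hR⟩ ⟨z', hz', hR'⟩ h3 i
    have h4 := ih z z' y y' hR hR' h3
    have h5 : (fun i => U (z + i)) = fun i => U (z' + i) := funext h4
    rw [← h5] at hz'
    exact congrFun (hi _ _ _ hz hz') i

/-- Proof.  Let `U`, `q` be as in `Per`, `T x = fun i => U (x + i)` (so `T (x + q) = T x`); `U[x, x+n)` the list of the letters at
`x, ..., x+n-1`.  (If there is no letter everything is trivial.)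
(b) Every `U[x, x+n)` is legal: take a letter `c` and `m` with `|it h m [c]| ≥ n + q`; it is `U[z, z+len)`, and one of `z, ..., z+q-1`
is congruent to `x` mod `q`.
(c) For every `x` there is `y < q` with `IsIm h (T x) (T y)`: for all `n` `app h U[x, x+n)` is a factor of some `it h (m+1) [c]`, so
it is `U[y_n, y_n + len)` with `y_n < q`; some `y` occurs for infinitely many `n`.
(d) `IsIm h (T x) Y`, `IsIm h (T x') Y` imply `T x = T x'` (`InjR`).
(e) `U x = U x'` implies `T x = T x'`.  Let `c = U x`, `m` with `|it h m [c]| ≥ q`.  By (c) there are `x = x_0, x_1, ..., x_m` with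
`T x_(i+1)` the image of `T x_i`, so `T x_m` begins with `it h m [c]`; same for `x'`; so `T x_m` and `T x'_m` agree on the first `q`
letters, `T x_m = T x'_m`, and by (d) `T x_(m-1) = T x'_(m-1)`, ..., `T x = T x'`.
(f) All letters occur in `U` (`Prim`).  (g) `σ a = U (x+1)` for any `x` with `U x = a` (well defined by (e)).
`cyc`: `a = U x`, `b = U y` with `y ≥ x` (add multiples of `q`), `i = y - x`.  `chain`: legal words are factors of some
`it h n [c]`, so of `U`.  `pair`: (b).  `inj`: `a = U x`, `b = U x'`, images `T y`, `T y'` by (c), `U y = c = U y'`, so `T y = T y'` by (e),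
`T x = T x'` by (d), `a = b`. -/
theorem per1 {α : Type} [Fintype α] {h : α → List α} (hg : Good h) (hp : Prim h)
    (hgr : ∀ a, Gr h a) (hper : Per h) : ∃ σ : α → α, Cyc h σ := by
  obtain ⟨K, hK, hKp⟩ := hp
  obtain ⟨U, q, hq, hU, hP⟩ := hper
  have hP' : ∀ c n, ∃ x, it h n [c] = Per1_sg U x (it h n [c]).length := hP
  -- legal words are segments
  have hseg : ∀ w, Legal h w → ∃ y, w = Per1_sg U y w.length := by
    rintro w ⟨c, n, hw⟩
    obtain ⟨x, hx⟩ := hP' c n
    rw [hx] at hw
    exact Per1_fac hw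
  -- segments are legal
  have hb : ∀ x n, Legal h (Per1_sg U x n) := by
    intro x n
    obtain ⟨m, hm⟩ := hgr (U 0) (n + q)
    obtain ⟨z, hz⟩ := hP' (U 0) m
    refine ⟨U 0, m, ?_⟩
    rw [hz]
    obtain ⟨t, ht, k, hk⟩ : ∃ t, t < q ∧ ∃ k, z + t + k * q = x + z * q := by
      refine ⟨(x + z * q - z) % q, Nat.mod_lt _ hq, (x + z * q - z) / q, ?_⟩
      have h1 : z ≤ z * q := Nat.le_mul_of_pos_right z hq
      have h2 := Nat.mod_add_div (x + z * q - z) q
      have h3 : ((x + z * q - z) / q) * q = q * ((x + z * q - z) / q) := Nat.mul_comm _ _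
      omega
    have h1 : Per1_sg U x n = Per1_sg U (z + t) n := by
      apply Per1_congr
      intro i
      have h2 : U (x + i) = U (x + i + z * q) := (Per1_mul hU z (x + i)).symm
      have h3 : U (z + t + i) = U (z + t + i + k * q) := (Per1_mul hU k (z + t + i)).symm
      rw [h2, h3]
      congr 1
      omega
    obtain ⟨r, hr⟩ : ∃ r, (it h m [U 0]).length = t + n + r :=
      ⟨(it h m [U 0]).length - (t + n), by omega⟩
    rw [hr, h1, Per1_app, Per1_app]
    exact ⟨Per1_sg U z t, Per1_sg U (z + (t + n)) r, by simp⟩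
  -- images
  have hc : ∀ x, ∃ y, IsIm h (fun i => U (x + i)) (fun i => U (y + i)) := by
    intro x
    have h1 : ∀ n, ∃ y, y < q ∧ app h (Per1_sg U x n) =
        Per1_sg U y (app h (Per1_sg U x n)).length := by
      intro n
      obtain ⟨y, hy⟩ := hseg _ (Per1_legal_app (hb x n))
      refine ⟨y % q, Nat.mod_lt _ hq, ?_⟩
      rw [Per1_congr (fun i => Per1_mod hU y i)]
      exact hy
    have h2 : ∀ n n', n ≤ n' → ∀ y, app h (Per1_sg U x n') =
        Per1_sg U y (app h (Per1_sg U x n')).length → app h (Per1_sg U x n) =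
        Per1_sg U y (app h (Per1_sg U x n)).length := by
      intro n n' hn y hy
      obtain ⟨d, rfl⟩ := Nat.exists_eq_add_of_le hn
      generalize hL : (app h (Per1_sg U x (n + d))).length = L at hy
      rw [Per1_app, app_append] at hy
      exact (Per1_pre hy).1
    by_contra hcon
    push Not at hcon
    have h3 : ∀ y, ∃ n, ¬ app h (Per1_sg U x n) =
        Per1_sg U y (app h (Per1_sg U x n)).length := by
      intro y
      by_contra h4
      push Not at h4
      exact hcon y fun n => ⟨_, h4 n⟩
    choose f hf using h3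
    obtain ⟨y, hy, h5⟩ := h1 ((Finset.range q).sup f)
    exact hf y (h2 _ _ (Finset.le_sup (Finset.mem_range.2 hy)) y h5)
  -- iterated images
  have hR : ∀ m x, ∃ y, Per1_R h U m x y := by
    intro m
    induction m with
    | zero => exact fun x => ⟨x, fun i => rfl⟩
    | succ m ih =>
      intro x
      obtain ⟨z, hz⟩ := hc x
      obtain ⟨y, hy⟩ := ih z
      exact ⟨y, z, hz, hy⟩
  have he : ∀ x x', U x = U x' → ∀ i, U (x + i) = U (x' + i) := by
    intro x x' hx
    obtain ⟨m, hm⟩ := hgr (U x) q
    obtain ⟨y, hy⟩ := hR m x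
    obtain ⟨y', hy'⟩ := hR m x'
    refine Per1_R_inj hg.injR m x x' y y' hy hy' ?_
    obtain ⟨k, hk⟩ := Per1_R_word m x y hy 1
    obtain ⟨k', hk'⟩ := Per1_R_word m x' y' hy' 1
    have e1 : ∀ z, Per1_sg U z 1 = [U z] := by
      intro z
      simp [Per1_sg]
    rw [e1] at hk hk'
    rw [← hx] at hk'
    have hkk : k = k' := by
      have h1 := congrArg List.length hk
      have h2 := congrArg List.length hk'
      rw [Per1_len] at h1 h2
      omega
    subst hkk
    have hkq : q ≤ k := by
      have h1 := congrArg List.length hk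
      rw [Per1_len] at h1
      omega
    exact Per1_det hq hU hkq (hk.symm.trans hk')
  -- all letters occur
  have hf : ∀ a, ∃ x, U x = a := by
    intro a
    obtain ⟨x, hx⟩ := hP' a K
    have h1 := hKp a a
    rw [hx, Per1_sg, List.mem_map] at h1
    obtain ⟨i, _, hi⟩ := h1
    exact ⟨x + i, hi⟩
  choose pos hpos using hf
  have hσ : ∀ x, U (pos (U x) + 1) = U (x + 1) := fun x => he _ _ (hpos (U x)) 1
  refine ⟨fun a => U (pos a + 1), hg.ne, ?_, ?_, ?_, ?_⟩
  · intro a b
    have h1 : ∀ i x, (fun a => U (pos a + 1))^[i] (U x) = U (x + i) := by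
      intro i
      induction i with
      | zero => intro x; rfl
      | succ i ih =>
        intro x
        rw [Function.iterate_succ_apply']
        show U (pos ((fun a => U (pos a + 1))^[i] (U x)) + 1) = _
        rw [ih, hσ, Nat.add_assoc]
    refine ⟨pos b + pos a * q - pos a, ?_⟩
    have h2 := h1 (pos b + pos a * q - pos a) (pos a)
    rw [hpos] at h2
    rw [h2]
    have h3 : pos a ≤ pos a * q := Nat.le_mul_of_pos_right _ hq
    have h4 : pos a + (pos b + pos a * q - pos a) = pos b + pos a * q := by omega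
    rw [h4, Per1_mul hU, hpos]
  · intro w hw
    obtain ⟨y, hy⟩ := hseg w hw
    rw [hy, List.isChain_iff_getElem]
    intro i hi
    simp only [Per1_sg, List.getElem_map, List.getElem_range]
    rw [hσ, Nat.add_assoc]
  · intro a
    have h1 := hb (pos a) 2
    have h2 : Per1_sg U (pos a) 2 = [a, U (pos a + 1)] := by
      simp [Per1_sg, List.range_succ, hpos]
    rwa [h2] at h1
  · intro a b c x y ha hb'
    obtain ⟨z, hz⟩ := hc (pos a)
    obtain ⟨z', hz'⟩ := hc (pos b)
    have key : ∀ (d : α) (v : List α) (t : ℕ), h d = c :: v →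
        IsIm h (fun i => U (pos d + i)) (fun i => U (t + i)) → U t = c := by
      intro d v t hd ht
      obtain ⟨k, hk⟩ := ht 1
      have e1 : (List.range 1).map (fun i => U (pos d + i)) = [d] := by
        simp [hpos]
      rw [e1, app_singleton, hd] at hk
      cases k with
      | zero => simp at hk
      | succ k =>
        rw [List.range_succ_eq_map, List.map_cons] at hk
        exact (List.cons.inj hk).1.symm
    have h1 := key a x z ha hz
    have h2 := key b y z' hb' hz'
    have h3 : (fun i => U (z + i)) = fun i => U (z' + i) := funext (he z z' (h1.trans h2.symm))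
    rw [← h3] at hz'
    have h4 := congrFun (hg.injR _ _ _ hz hz') 0
    have h5 : U (pos a + 0) = U (pos b + 0) := h4
    rw [Nat.add_zero, Nat.add_zero, hpos, hpos] at h5
    exact h5

end D0L
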