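import Pool.Agent.H.MP_374efc_lc.Red.Z2

/-!
# MP_374efc_lc, general reduction: bound of the bounded blocks, cuts
-/

set_option autoImplicit false

namespace D0L

variable {α : Type} [Fintype α] {h : α → List α} {w : List α} {s : ℕ}

theorem Z3_notbw {β : Type} {k : β → List β} {x : List β} {a : β} (ha : a ∈ x) (hg : Gr k a) :
    ¬ Bw k x := fun hb => hb a ha hg

theorem Z3_notbw_it {β : Type} {k : β → List β} (hne : ∀ a, k a ≠ []) {a : β} (hg : Gr k a)
    (n : ℕ) : ¬ Bw k (it k n [a]) := by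
  obtain ⟨b, hb, hgb⟩ := (gr_iff hne a n).1 hg
  exact Z3_notbw hb hgb

theorem Z3_bw_append {β : Type} {k : β → List β} {x y : List β} (hx : Bw k x) (hy : Bw k y) :
    Bw k (x ++ y) := by
  intro b hb
  rcases List.mem_append.1 hb with h1 | h1
  · exact hx b h1
  · exact hy b h1

theorem Z3_tt_le (hm : Mix h w) (hs : Sz s h w) {j : ℕ} {d d' e e' : α} {v u : List α}
    (hd : Gr h d) (hd' : Gr h d') (hv : Bw h v) (hvs : v.length ≤ s)
    (ht : TT h j d v d' e u e') : u.length ≤ s + 2 * s ^ s := by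
  obtain ⟨y, t, p, z, h1, h2, h3, h4, h5, h6, h7⟩ := ht
  have h8 := last_le hm hs hd h1 h3 h5
  have h9 := first_le hm hs hd' h2 h4 h6
  have h10 := (bw_it hm.inj hv j).2
  rw [h7, List.length_append, List.length_append, h10]
  omega

/-- Explicit bound of the bounded factors.
Proof: `bw_cases` for `y = it h n w`.  First block: `w = p0 ++ d0 :: y0` (`bl_exists`), the first block of
`it h n w` is `it h n p0` followed by the first block of `it h n [d0]`: at most `s + s^s` (`bw_it`, `first_le`).  Last block: the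
same with `last_le`.  Triple `(e, u, e')` of `it h n w`: `tri_it`: it is the image (under some `h^j`) of a triple `(d, v, d')` of `h c` or
of `w`, `|v| ≤ s`, so `|u| ≤ s^s + |v| + s^s`. -/
theorem block_le (hm : Mix h w) (hs : Sz s h w) (n : ℕ) (x : List α) (hx : x <:+: it h n w)
    (hb : Bw h x) : x.length ≤ s + 2 * s ^ s := by
  have hne := fun a => ne_of_inj hm.inj a
  obtain ⟨g, hg⟩ := hm.gr
  have hw0 : ¬ Bw h w := Z3_notbw (hm.full 0 g) hg
  have hwn : ¬ Bw h (it h n w) := Z3_notbw (hm.full n g) hg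
  have hws := hs.2.2
  rcases bw_cases hb hx hwn with ⟨p, d, z, h1, h2, h3, h4⟩ | ⟨z, d, t, h1, h2, h3, h4⟩ |
    ⟨d, v, d', h1, h2⟩
  · obtain ⟨p0, d0, y0, e1, e2, e3⟩ := bl_exists hw0
    obtain ⟨p1, d1, y1, e4, e5, e6⟩ := bl_exists (Z3_notbw_it hne e3 n)
    have e7 : it h n w = (it h n p0 ++ p1) ++ d1 :: (y1 ++ it h n y0) := by
      have : w = p0 ++ ([d0] ++ y0) := by rw [e1]; rfl
      rw [this, it_append, it_append, e4]
      simp
    have e8 := bl_unique h2 h3 (Z3_bw_append (bw_it hm.inj e2 n).1 e5) e6 (h1.symm.trans e7)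
    have e9 := first_le hm hs e3 e4 e5 e6
    have e10 := (bw_it hm.inj e2 n).2
    have e11 : p0.length ≤ w.length := by rw [e1]; simp
    rw [e8.1, List.length_append] at h4
    omega
  · obtain ⟨y0, d0, t0, e1, e2, e3⟩ := br_exists hw0
    obtain ⟨y1, d1, t1, e4, e5, e6⟩ := br_exists (Z3_notbw_it hne e3 n)
    have e7 : it h n w = (it h n y0 ++ y1) ++ d1 :: (t1 ++ it h n t0) := by
      have : w = y0 ++ ([d0] ++ t0) := by rw [e1]; rfl
      rw [this, it_append, it_append, e4]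
      simp
    have e8 := br_unique h2 h3 (Z3_bw_append e5 (bw_it hm.inj e2 n).1) e6 (h1.symm.trans e7)
    have e9 := last_le hm hs e3 e4 e5 e6
    have e10 := (bw_it hm.inj e2 n).2
    have e11 : t0.length ≤ w.length := by rw [e1]; simp; omega
    rw [e8.1, List.length_append] at h4
    omega
  · refine h2.trans ?_
    rcases tri_it hm.inj n h1 with ⟨j, _, c, e, u, e', _, k1, k2⟩ | ⟨e, u, e', k1, k2⟩
    · refine Z3_tt_le hm hs k1.1 k1.2.1 k1.2.2.1 ?_ k2
      have k3 := k1.2.2.2.length_le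
      have k4 := hs.2.1 c
      rw [List.length_cons, List.length_append] at k3
      omega
    · refine Z3_tt_le hm hs k1.1 k1.2.1 k1.2.2.1 ?_ k2
      have k3 := k1.2.2.2.length_le
      rw [List.length_cons, List.length_append] at k3
      omega

theorem Z3_pr_gr {β : Type} {k : β → List β} {d : β} (hd : PR k d) : Gr k d := by
  obtain ⟨b, y, h1, h2⟩ := hd 0
  rw [it_zero] at h1
  have h3 : b ∈ [d] := by rw [h1]; simp
  rw [List.mem_singleton] at h3
  exact h3 ▸ h2

theorem Z3_pl_gr {β : Type} {k : β → List β} {d : β} (hd : PL k d) : Gr k d := by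
  obtain ⟨b, y, h1, h2⟩ := hd 0
  rw [it_zero] at h1
  have h3 : b ∈ [d] := by rw [h1]; simp
  rw [List.mem_singleton] at h3
  exact h3 ▸ h2

theorem Z3_infix_it {β : Type} {k : β → List β} (n : ℕ) {x : List β} {a : β} (ha : a ∈ x) :
    it k n [a] <:+: it k n x := by
  obtain ⟨u, v, rfl⟩ := List.append_of_mem ha
  refine ⟨it k n u, it k n v, ?_⟩
  rw [← it_append, ← it_append]
  simp

/-- Every image `it h (2 ^ s + s + 1) [c]` of a growing letter contains a cut.
Proof.  Let `Rel h w p0` (`hm.lc`), `M` from `long_factor`.  Let `c` be growing, `n` with `|it h n [c]| ≥ M`; `it h n [c] <:+: it h n w`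
(`c ∈ w`), so `it h i w ++ it h j w <:+: it h n [c]` for some `i`, `j`.  By `pl_const`, `pr_const` `it h i w = y ++ d :: s1`, `s1` bounded of length `sg`,
`PR h d`, and `it h j w = p1 ++ d' :: z`, `|p1| = rho`, `PL h d'`: so `Tri h (it h n [c]) d (s1 ++ p1) d'`.  By `tri_it` it is the image under some `h^l`
of a triple `(e, u, e')` of some `h c1`, `c1` growing (`[c]` contains no triple).  Let `m1 ≥ card α`; let
`(f, t, f')` be the image of `(e, u, e')` under `h^m1` (`tt_exists`).  `PR h f`, `PL h f'` by `last_pr`, `first_pl`, and `|t| = sg + rho` because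
the lengths of the last block of `it h l [e]` and of `it h m1 [e]` are equal (`last_const`), and same for `e'` (`first_const`).
So `it h m1 (h c1)` contains a cut (`tt_tri`).  For growing `c`: `c1 ∈ it h (2^s) [c]` (`hm.mix`, `2 ^ card α ≤ 2 ^ s`); take `m1 = s`. -/
theorem cut_exists (hm : Mix h w) (hs : Sz s h w) {rho sg : ℕ}
    (hl : ∃ p d y, w = p ++ d :: y ∧ Bw h p ∧ p.length = rho ∧ PL h d)
    (hr : ∃ y d t, w = y ++ d :: t ∧ Bw h t ∧ t.length = sg ∧ PR h d) {c : α} (hc : Gr h c) :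
    ∃ d v d', Tri h (it h (2 ^ s + s + 1) [c]) d v d' ∧ PR h d ∧ PL h d' ∧
      v.length = sg + rho := by
  obtain ⟨pl, dl, yl, hl1, hl2, hl3, hl4⟩ := hl
  obtain ⟨yr, dr, tr, hr1, hr2, hr3, hr4⟩ := hr
  obtain ⟨p0, hp0⟩ := hm.lc
  obtain ⟨M, hM⟩ := long_factor hp0
  obtain ⟨n, hn⟩ := hc M
  obtain ⟨i, _, j, _, hij⟩ := hM n _ (Z3_infix_it n (hm.full 0 c)) hn
  obtain ⟨y1, d1, s1, a1, a2, a3, a4⟩ := pr_const (y := yr) hm.inj hr2 hr4 i
  obtain ⟨p1, d2, y2, b1, b2, b3, b4⟩ := pl_const (y := yl) hm.inj hl2 hl4 j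
  rw [← hr1] at a1
  rw [← hl1] at b1
  have htri : Tri h (it h n [c]) d1 (s1 ++ p1) d2 := by
    refine ⟨Z3_pr_gr a4, Z3_pl_gr b4, Z3_bw_append a2 b2, List.IsInfix.trans ?_ hij⟩
    refine ⟨y1, y2, ?_⟩
    rw [a1, b1]
    simp
  rcases tri_it hm.inj n htri with ⟨l, _, c1, e, u, e', hc1, k1, k2⟩ | ⟨e, u, e', k1, k2⟩
  · obtain ⟨q1, t1, q2, t2, m1, m2, m3, m4, m5, m6, m7⟩ := k2
    obtain ⟨f, t, f', k3⟩ := tt_exists hm.inj k1.1 k1.2.1 u s
    have k3' := k3
    obtain ⟨r1, x1, r2, x2, n1, n2, n3, n4, n5, n6, n7⟩ := k3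
    have hf : PR h f := last_pr hm k1.1 hs.1 n1 n3 n5
    have hf' : PL h f' := first_pl hm k1.2.1 hs.1 n2 n4 n6
    have o1 := last_const hm.inj m1 m3 a4 n1 n3 hf
    have o2 := first_const hm.inj m2 m4 b4 n2 n4 hf'
    have o3 := (bw_it hm.inj k1.2.2.1 l).2
    have o4 := (bw_it hm.inj k1.2.2.1 s).2
    have o5 := congrArg List.length m7
    rw [List.length_append, List.length_append, List.length_append, o3] at o5
    refine ⟨f, t, f', ?_, hf, hf', ?_⟩
    · have o6 := tt_tri hm.inj k1 k3'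
      refine ⟨o6.1, o6.2.1, o6.2.2.1, o6.2.2.2.trans ?_⟩
      have o7 : c1 ∈ it h (2 ^ s) [c] :=
        hm.mix c hc (2 ^ s) (Nat.pow_le_pow_right (by norm_num) hs.1) c1
      have o8 := Z3_infix_it (k := h) (s + 1) o7
      rw [← it_add, it_succ' h s [c1], app_singleton] at o8
      rw [show 2 ^ s + s + 1 = s + 1 + 2 ^ s by ring]
      exact o8
    · rw [n7, List.length_append, List.length_append, o4]
      omega
  · exfalso
    have k3 := k1.2.2.2.length_le
    rw [List.length_cons, List.length_append] at k3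
    simp at k3

end D0L
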