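import Pool.Agent.H.MP_374efc_lc.Red.Trans

/-!
# MP_374efc_lc, general reduction: tiles
-/

set_option autoImplicit false

namespace D0L

/-- All words of a locally catenative system are products of the first `p`.
Proof: strong induction on `n`; `n < p`: `ks = [n]`; `n = p + m`: `w_n` is the product of the `w_(j+m)`, `j ∈ js`
(`rel_shift`), and `j + m < n`. -/
theorem tiles {α : Type} {h : α → List α} {w : List α} {p : ℕ} (hp : Rel h w p) (n : ℕ) :
    ∃ ks : List ℕ, ks ≠ [] ∧ (∀ k ∈ ks, k < p) ∧
      it h n w = (ks.map (fun k => it h k w)).flatten := by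
  induction n using Nat.strong_induction_on with
  | _ n ih =>
    by_cases hn : n < p
    · exact ⟨[n], by simp, by simpa using hn, by simp⟩
    · obtain ⟨m, rfl⟩ := Nat.exists_eq_add_of_le (not_lt.1 hn)
      obtain ⟨js, h1, h2, h3⟩ := hp
      have key : ∀ l : List ℕ, (∀ j ∈ l, j < p) → ∃ ks : List ℕ, (l ≠ [] → ks ≠ []) ∧
          (∀ k ∈ ks, k < p) ∧ (l.map (fun j => it h (j + m) w)).flatten
            = (ks.map (fun k => it h k w)).flatten := by
        intro l
        induction l with
        | nil => intro _; exact ⟨[], by simp, by simp, by simp⟩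
        | cons j l ihl =>
          intro hl
          obtain ⟨ks, _, g2, g3⟩ := ihl (fun i hi => hl i (List.mem_cons_of_mem _ hi))
          have hj : j < p := hl j List.mem_cons_self
          obtain ⟨ks', k1, k2, k3⟩ := ih (j + m) (by omega)
          refine ⟨ks' ++ ks, fun _ => by simp [k1], ?_, ?_⟩
          · intro k hk
            rcases List.mem_append.1 hk with hk | hk
            · exact k2 k hk
            · exact g2 k hk
          · rw [List.map_cons, List.flatten_cons, k3, g3, List.map_append, List.flatten_append]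
      obtain ⟨ks, g1, g2, g3⟩ := key js h2
      exact ⟨ks, g1 h1, g2, (rel_shift h3 m).trans g3⟩

/-- An initial piece of a product is a product of full tiles and an initial piece of a tile (induction on `L`). -/
theorem prefix_flatten {α : Type} (L : List (List α)) (x : List α) (hx : x <+: L.flatten) :
    ∃ M f, M <+: L ∧ x = M.flatten ++ f ∧ (f = [] ∨ ∃ y ∈ L, f <+: y) := by
  induction L generalizing x with
  | nil =>
    have : x = [] := by simpa using hx
    subst this
    exact ⟨[], [], List.prefix_refl _, by simp, Or.inl rfl⟩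
  | cons y L ih =>
    rw [List.flatten_cons] at hx
    rcases List.prefix_or_prefix_of_prefix hx (List.prefix_append y L.flatten) with h | h
    · exact ⟨[], x, List.nil_prefix, by simp, Or.inr ⟨y, List.mem_cons_self, h⟩⟩
    · obtain ⟨x', rfl⟩ := h
      have h2 : x' <+: L.flatten := (List.prefix_append_right_inj y).1 hx
      obtain ⟨M, f, h3, h4, h5⟩ := ih x' h2
      refine ⟨y :: M, f, ?_, ?_, ?_⟩
      · exact (List.prefix_cons_inj y).2 h3
      · rw [h4, List.flatten_cons, List.append_assoc]
      · rcases h5 with h5 | ⟨z, hz, h5⟩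
        · exact Or.inl h5
        · exact Or.inr ⟨z, List.mem_cons_of_mem _ hz, h5⟩

theorem Tile_suffix_flatten {α : Type} (L : List (List α)) : ∀ x : List α, x <:+ L.flatten →
    ∃ M e, M <:+ L ∧ x = e ++ M.flatten ∧ (e = [] ∨ ∃ y ∈ L, e <:+ y) := by
  induction L using List.reverseRecOn with
  | nil =>
    intro x hx
    have : x = [] := by simpa using hx
    subst this
    exact ⟨[], [], List.suffix_refl _, by simp, Or.inl rfl⟩
  | append_singleton L y ih =>
    intro x hx
    have hfl : (L ++ [y]).flatten = L.flatten ++ y := by simp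
    rw [hfl] at hx
    rcases List.suffix_or_suffix_of_suffix hx (List.suffix_append L.flatten y) with h | h
    · exact ⟨[], x, List.nil_suffix, by simp, Or.inr ⟨y, by simp, h⟩⟩
    · obtain ⟨x', rfl⟩ := h
      have h2 : x' <:+ L.flatten := (List.suffix_append_inj_of_length_eq rfl).1 hx |>.1
      obtain ⟨M, e, h3, h4, h5⟩ := ih x' h2
      refine ⟨M ++ [y], e, ?_, ?_, ?_⟩
      · obtain ⟨t, rfl⟩ := h3
        exact ⟨t, by simp⟩
      · rw [h4]; simp
      · rcases h5 with h5 | ⟨z, hz, h5⟩
        · exact Or.inl h5
        · exact Or.inr ⟨z, by simp [hz], h5⟩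

/-- Factors of a product: a factor of a single tile, or a piece, full tiles, and a piece.
Proof: `x` is a suffix of an initial piece `M.flatten ++ f` of `L.flatten` (`prefix_flatten`); if it is a suffix of
`f` it is a factor of a tile; otherwise `x = x' ++ f` with `x'` a suffix of `M.flatten`; apply the mirror
image of `prefix_flatten`. -/
theorem infix_flatten {α : Type} (L : List (List α)) (x : List α) (hx : x <:+: L.flatten) :
    (∃ y ∈ L, x <:+: y) ∨ ∃ e M f, M <:+: L ∧ x = e ++ M.flatten ++ f ∧
      (e = [] ∨ ∃ y ∈ L, e <:+ y) ∧ (f = [] ∨ ∃ y ∈ L, f <+: y) := by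
  obtain ⟨s, t, hst⟩ := hx
  obtain ⟨M, f, h1, h2, h3⟩ := prefix_flatten L (s ++ x) ⟨t, hst⟩
  have h4 : x <:+ M.flatten ++ f := ⟨s, h2⟩
  rcases List.suffix_or_suffix_of_suffix h4 (List.suffix_append M.flatten f) with h | h
  · rcases h3 with h3 | ⟨y, hy, h3⟩
    · subst h3
      have : x = [] := by simpa using h
      subst this
      exact Or.inr ⟨[], [], [], ⟨[], L, by simp⟩, by simp, Or.inl rfl, Or.inl rfl⟩
    · exact Or.inl ⟨y, hy, h.isInfix.trans h3.isInfix⟩
  · obtain ⟨x', rfl⟩ := h
    have h5 : x' <:+ M.flatten := (List.suffix_append_inj_of_length_eq rfl).1 h4 |>.1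
    obtain ⟨M', e, h6, h7, h8⟩ := Tile_suffix_flatten M x' h5
    refine Or.inr ⟨e, M', f, h6.isInfix.trans h1.isInfix, by rw [h7], ?_, h3⟩
    rcases h8 with h8 | ⟨y, hy, h8⟩
    · exact Or.inl h8
    · exact Or.inr ⟨y, h1.subset hy, h8⟩

/-- A long factor of some `w_n` contains two consecutive full tiles.
Proof: let `m` be the maximal length of the `w_j`, `j < p`.  `w_n` is a product of such words (`tiles`), use
`infix_flatten`: if `|x| ≥ 4 m + 1` then the product of the full tiles has length `> m`, so there are at least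
two full tiles. -/
theorem long_factor {α : Type} {h : α → List α} {w : List α} {p : ℕ} (hp : Rel h w p) :
    ∃ M, ∀ n x, x <:+: it h n w → M ≤ x.length → ∃ i < p, ∃ j < p,
      it h i w ++ it h j w <:+: x := by
  obtain ⟨m, hm⟩ : ∃ m, ∀ j < p, (it h j w).length ≤ m :=
    ⟨(Finset.range p).sup (fun j => (it h j w).length), fun j hj =>
      Finset.le_sup (f := fun j => (it h j w).length) (Finset.mem_range.2 hj)⟩
  refine ⟨4 * m + 1, fun n x hx hlen => ?_⟩
  obtain ⟨ks, _, h2, h3⟩ := tiles hp n
  rw [h3] at hx
  have hL : ∀ y ∈ ks.map (fun k => it h k w), ∃ i < p, y = it h i w := by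
    intro y hy
    obtain ⟨k, hk, rfl⟩ := List.mem_map.1 hy
    exact ⟨k, h2 k hk, rfl⟩
  have hLlen : ∀ y ∈ ks.map (fun k => it h k w), y.length ≤ m := by
    intro y hy
    obtain ⟨i, hi, rfl⟩ := hL y hy
    exact hm i hi
  rcases infix_flatten _ x hx with ⟨y, hy, h4⟩ | ⟨e, M, f, h4, h5, h6, h7⟩
  · have h5 := h4.length_le
    have h6 := hLlen y hy
    omega
  · have he : e.length ≤ m := by
      rcases h6 with h6 | ⟨y, hy, h6⟩
      · rw [h6]; simp
      · exact h6.length_le.trans (hLlen y hy)
    have hf : f.length ≤ m := by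
      rcases h7 with h7 | ⟨y, hy, h7⟩
      · rw [h7]; simp
      · exact h7.length_le.trans (hLlen y hy)
    have hM : 2 * m + 1 ≤ M.flatten.length := by
      rw [h5] at hlen
      simp only [List.length_append] at hlen
      omega
    cases M with
    | nil => simp at hM
    | cons y1 M =>
      cases M with
      | nil =>
        have h8 := hLlen y1 (h4.subset List.mem_cons_self)
        simp only [List.flatten_cons, List.flatten_nil, List.append_nil] at hM
        omega
      | cons y2 M =>
        obtain ⟨i, hi, e1⟩ := hL y1 (h4.subset List.mem_cons_self)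
        obtain ⟨j, hj, e2⟩ := hL y2 (h4.subset (List.mem_cons_of_mem _ List.mem_cons_self))
        refine ⟨i, hi, j, hj, e, M.flatten ++ f, ?_⟩
        rw [h5, ← e1, ← e2]
        simp

end D0L
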