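import Pool.Agent.H.MP_374efc_lc.Red.Defs

/-!
# MP_374efc_lc, general reduction: transfer of relations
-/

set_option autoImplicit false

namespace D0L

theorem it_code {α β : Type} {h : α → List α} {k : β → List β} {c : β → List α}
    (hk : ∀ b, app h (c b) = app c (k b)) (n : ℕ) (x : List β) :
    app c (it k n x) = it h n (app c x) := by
  have h1 : ∀ x : List β, app c (app k x) = app h (app c x) := by
    intro x
    rw [app_app, app_app]
    congr 1
    funext b
    exact (hk b).symm
  induction n with
  | zero => rfl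
  | succ n ih => rw [it_succ, it_succ, h1, ih]

theorem rel_code {α β : Type} {h : α → List α} {k : β → List β} {c : β → List α}
    (hc : Function.Injective (app c)) (hk : ∀ b, app h (c b) = app c (k b)) {w : List α}
    {v : List β} (hw : w = app c v) {p : ℕ} : Rel h w p ↔ Rel k v p := by
  subst hw
  constructor
  · rintro ⟨js, h1, h2, h3⟩
    refine ⟨js, h1, h2, ?_⟩
    apply hc
    rw [it_code hk, h3, app_flatten, List.map_map]
    congr 1
    apply List.map_congr_left
    intro j _
    simp only [Function.comp]
    rw [it_code hk]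
  · rintro ⟨js, h1, h2, h3⟩
    refine ⟨js, h1, h2, ?_⟩
    rw [← it_code hk, h3, app_flatten, List.map_map]
    congr 1
    apply List.map_congr_left
    intro j _
    simp only [Function.comp]
    rw [it_code hk]

theorem it_pow {α : Type} (h : α → List α) (t n : ℕ) (x : List α) :
    it (fun a => it h t [a]) n x = it h (t * n) x := by
  induction n with
  | zero => rfl
  | succ n ih =>
    rw [it_succ, ih, ← it_eq_app, ← it_add]
    congr 1
    ring

theorem it_gf {α δ : Type} {h : α → List α} {f : α → List δ} {g : δ → List α}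
    (hfg : ∀ a, app g (f a) = h a) (n : ℕ) (x : List α) :
    it (fun d => app f (g d)) n (app f x) = app f (it h n x) := by
  have h1 : ∀ x : List α, app (fun d => app f (g d)) (app f x) = app f (app h x) := by
    intro x
    rw [← app_app, app_app g f]
    congr 2
    funext a
    exact hfg a
  induction n with
  | zero => rfl
  | succ n ih => rw [it_succ, it_succ, ih, h1]

theorem rel_gf {α δ : Type} {h : α → List α} {f : α → List δ} {g : δ → List α}
    (hfg : ∀ a, app g (f a) = h a) {w : List α} {p : ℕ} (hp : Rel h w p) :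
    Rel (fun d => app f (g d)) (app f w) p := by
  obtain ⟨js, h1, h2, h3⟩ := hp
  refine ⟨js, h1, h2, ?_⟩
  rw [it_gf hfg, h3, app_flatten, List.map_map]
  congr 1
  apply List.map_congr_left
  intro j _
  simp only [Function.comp]
  rw [it_gf hfg]

theorem rel_of_gf {α δ : Type} {h : α → List α} {f : α → List δ} {g : δ → List α}
    (hfg : ∀ a, app g (f a) = h a) {w : List α} {p : ℕ}
    (hp : Rel (fun d => app f (g d)) (app f w) p) : Rel h w (p + 1) := by
  obtain ⟨js, h1, h2, h3⟩ := hp
  have h4 : ∀ x : List α, app g (app f x) = app h x := by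
    intro x
    rw [app_app]
    congr 1
    funext a
    exact hfg a
  rw [it_gf hfg] at h3
  refine ⟨js.map (· + 1), by simpa using h1, ?_, ?_⟩
  · intro j hj
    rw [List.mem_map] at hj
    obtain ⟨i, hi, rfl⟩ := hj
    have := h2 i hi
    omega
  · rw [it_succ, ← h4, h3, app_flatten, List.map_map, List.map_map]
    congr 1
    apply List.map_congr_left
    intro j _
    simp only [Function.comp]
    rw [it_gf hfg, h4, it_succ]

/-- Simplification step: sizes. -/
theorem simp_sizes {α δ : Type} [Fintype α] [Fintype δ] {h : α → List α} {f : α → List δ}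
    {g : δ → List α} (hcard : Fintype.card δ < Fintype.card α) (hfg : ∀ a, app g (f a) = h a)
    (hg : ∀ d, g d ≠ []) (hf : ∀ d, ∃ a, d ∈ f a) {w : List α} {s : ℕ} (hs : Sz s h w) :
    Sz (s * s) (fun d => app f (g d)) (app f w) := by
  obtain ⟨h1, h2, h3⟩ := hs
  have hfa : ∀ a, (f a).length ≤ s := by
    intro a
    have h4 := length_le_app hg (f a)
    rw [hfg] at h4
    exact h4.trans (h2 a)
  have hgd : ∀ d, (g d).length ≤ s := by
    intro d
    obtain ⟨a, ha⟩ := hf d
    have h4 : (g d).length ≤ (app g (f a)).length := by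
      obtain ⟨l1, l2, h5⟩ := List.append_of_mem ha
      rw [h5, app_append, app_cons, List.length_append, List.length_append]
      omega
    rw [hfg] at h4
    exact h4.trans (h2 a)
  refine ⟨?_, ?_, ?_⟩
  · have : s ≤ s * s := Nat.le_mul_self s
    omega
  · intro d
    exact (length_app_le hfa (g d)).trans (Nat.mul_le_mul_left _ (hgd d))
  · exact (length_app_le hfa w).trans (Nat.mul_le_mul_left _ h3)

theorem prim_gf {α δ : Type} {h : α → List α} {f : α → List δ} {g : δ → List α}
    (hfg : ∀ a, app g (f a) = h a) (hg : ∀ d, g d ≠ []) (hf : ∀ d, ∃ a, d ∈ f a)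
    (hp : Prim h) : Prim (fun d => app f (g d)) := by
  obtain ⟨K, hK, h1⟩ := hp
  refine ⟨K + 1, by omega, ?_⟩
  intro d e
  rw [it_succ', app_singleton, it_gf hfg]
  obtain ⟨a, ha⟩ := hf e
  obtain ⟨b, hb⟩ := List.exists_mem_of_ne_nil _ (hg d)
  rw [mem_app]
  refine ⟨a, ?_, ha⟩
  rw [it_eq_app, mem_app]
  exact ⟨b, hb, h1 b a⟩

end D0L
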