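import Pool.Agent.H.MP_374efc_lc.Red.Tile

/-!
# MP_374efc_lc, general reduction: the orbit of the alphabets
-/

set_option autoImplicit false

namespace D0L

/-- Finite dynamics: an orbit which reaches a fixed point reaches it within `card X` steps.
Proof: pigeonhole gives `i < j ≤ card X` with `f^[i] x = f^[j] x`; then the orbit is periodic from `i` on, and it contains
the fixed point `y`, so `f^[i] x = y`. -/
theorem orbit_fixed {X : Type} [Fintype X] (f : X → X) (x y : X) (hy : f y = y) (n0 : ℕ)
    (h0 : f^[n0] x = y) (n : ℕ) (hn : Fintype.card X ≤ n) : f^[n] x = y := by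
  classical
  have hfix : ∀ r, f^[r] y = y := fun r => Function.iterate_fixed hy r
  have hafter : ∀ m, n0 ≤ m → f^[m] x = y := by
    intro m hm
    obtain ⟨r, rfl⟩ := Nat.exists_eq_add_of_le hm
    rw [Nat.add_comm, Function.iterate_add_apply, h0, hfix]
  obtain ⟨i, j, hij, he⟩ : ∃ i j : Fin (Fintype.card X + 1), i < j ∧ f^[(i : ℕ)] x = f^[(j : ℕ)] x := by
    obtain ⟨i, j, hne, he⟩ := Fintype.exists_ne_map_eq_of_card_lt
      (fun i : Fin (Fintype.card X + 1) => f^[(i : ℕ)] x) (by simp)
    rcases lt_or_gt_of_ne hne with h | h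
    · exact ⟨i, j, h, he⟩
    · exact ⟨j, i, h, he.symm⟩
  have hij' : (i : ℕ) < (j : ℕ) := hij
  have hjn : (j : ℕ) < Fintype.card X + 1 := j.isLt
  obtain ⟨d, hd0, hjd⟩ : ∃ d, 0 < d ∧ (j : ℕ) = (i : ℕ) + d :=
    ⟨(j : ℕ) - (i : ℕ), by omega, by omega⟩
  have hper : ∀ m, (i : ℕ) ≤ m → f^[m + d] x = f^[m] x := by
    intro m hm
    obtain ⟨r, rfl⟩ := Nat.exists_eq_add_of_le hm
    have e1 : (i : ℕ) + r + d = r + (j : ℕ) := by omega
    rw [e1, Function.iterate_add_apply, ← he, ← Function.iterate_add_apply, Nat.add_comm]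
  have hper2 : ∀ k m, (i : ℕ) ≤ m → f^[m + k * d] x = f^[m] x := by
    intro k
    induction k with
    | zero => intro m _; simp
    | succ k ih =>
      intro m hm
      have e1 : m + (k + 1) * d = (m + k * d) + d := by ring
      rw [e1, hper _ (by omega), ih m hm]
  have h1 := hper2 n0 n (by omega)
  rw [hafter _ (by nlinarith)] at h1
  exact h1.symm

/-- The map of the sets of letters. -/
noncomputable def Orbit_Phi {α : Type} (h : α → List α) (E : Finset α) : Finset α := by
  classical
  exact E.biUnion (fun a => (h a).toFinset)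

/-- The set of the letters of a word. -/
noncomputable def Orbit_set {α : Type} (w : List α) : Finset α := by
  classical
  exact w.toFinset

theorem Orbit_mem_set {α : Type} {w : List α} {b : α} : b ∈ Orbit_set w ↔ b ∈ w := by
  classical
  unfold Orbit_set
  simp

theorem Orbit_mem_Phi {α : Type} {h : α → List α} {E : Finset α} {b : α} :
    b ∈ Orbit_Phi h E ↔ ∃ a ∈ E, b ∈ h a := by
  classical
  unfold Orbit_Phi
  simp

theorem Orbit_set_it {α : Type} (h : α → List α) (n : ℕ) (w : List α) :
    Orbit_set (it h n w) = (Orbit_Phi h)^[n] (Orbit_set w) := by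
  induction n with
  | zero => rfl
  | succ n ih =>
    rw [it_succ, Function.iterate_succ_apply', ← ih]
    ext b
    rw [Orbit_mem_set, Orbit_mem_Phi, mem_app]
    simp only [Orbit_mem_set]

theorem Orbit_mono {α : Type} (h : α → List α) : Monotone (Orbit_Phi h) := by
  intro E F hEF b hb
  rw [Orbit_mem_Phi] at hb ⊢
  obtain ⟨a, ha, hb⟩ := hb
  exact ⟨a, hEF ha, hb⟩

theorem Orbit_chain {α : Type} {Φ : Finset α → Finset α} (hΦ : Monotone Φ) {X : Finset α}
    {δ t : ℕ} (ht : 0 < t) (h1 : X ⊆ Φ^[δ] X) (h2 : Φ^[t * δ] X = X) : Φ^[δ] X = X := by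
  have h3 : ∀ k, Φ^[δ] X ⊆ Φ^[(k + 1) * δ] X := by
    intro k
    induction k with
    | zero => rw [Nat.zero_add, Nat.one_mul]
    | succ k ih =>
      have e1 : (k + 1 + 1) * δ = (k + 1) * δ + δ := by ring
      rw [e1, Function.iterate_add_apply]
      exact ih.trans ((hΦ.iterate _) h1)
  obtain ⟨k, rfl⟩ : ∃ k, t = k + 1 := ⟨t - 1, by omega⟩
  have h4 := h3 k
  rw [h2] at h4
  exact Finset.Subset.antisymm h4 h1

theorem Orbit_map_app {α β : Type} {h : α → List α} {g : β → List β} {ι : β → α} {t : ℕ}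
    (hg : ∀ b, (g b).map ι = it h t [ι b]) (z : List β) :
    (app g z).map ι = it h t (z.map ι) := by
  induction z with
  | nil => rw [app_nil, List.map_nil, it_nil]
  | cons b z ih =>
    rw [app_cons, List.map_append, hg, ih, List.map_cons, ← it_append]
    rfl

theorem Orbit_map_it {α β : Type} {h : α → List α} {g : β → List β} {ι : β → α} {t : ℕ}
    (hg : ∀ b, (g b).map ι = it h t [ι b]) (n : ℕ) (z : List β) :
    (it g n z).map ι = it h (t * n) (z.map ι) := by
  induction n with
  | zero => rfl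
  | succ n ih =>
    rw [it_succ, Orbit_map_app hg, ih, ← it_add]
    congr 1
    ring

/-- Growing letters produce all letters. -/
theorem Orbit_grow {β : Type} [Fintype β] {g : β → List β} {u : List β} (hlc : LC g u)
    (hall : ∀ n b, b ∈ it g n u) (a : β) (ha : Gr g a) (i : ℕ) (hi : 2 ^ Fintype.card β ≤ i)
    (b : β) : b ∈ it g i [a] := by
  classical
  obtain ⟨p, hp⟩ := hlc
  obtain ⟨M, hM⟩ := long_factor hp
  obtain ⟨n, hn⟩ := ha M
  have hau : a ∈ u := hall 0 a
  obtain ⟨x, y, hxy⟩ := List.append_of_mem hau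
  have hfac : it g n [a] <:+: it g n u := by
    refine ⟨it g n x, it g n y, ?_⟩
    rw [← it_append, ← it_append, hxy]
    simp
  obtain ⟨i', _, j', _, hij⟩ := hM n _ hfac hn
  have hunivn : Orbit_set (it g n [a]) = Finset.univ := by
    ext c
    rw [Orbit_mem_set]
    simp only [Finset.mem_univ, iff_true]
    exact hij.subset (List.mem_append_left _ (hall i' c))
  have hfix : Orbit_Phi g Finset.univ = Finset.univ := by
    have e0 : Orbit_set u = Finset.univ := by
      ext c
      rw [Orbit_mem_set]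
      simp only [Finset.mem_univ, iff_true]
      exact hall 0 c
    have e1 : Orbit_set (it g 1 u) = Finset.univ := by
      ext c
      rw [Orbit_mem_set]
      simp only [Finset.mem_univ, iff_true]
      exact hall 1 c
    rw [Orbit_set_it, e0] at e1
    exact e1
  rw [Orbit_set_it] at hunivn
  have h1 := orbit_fixed (Orbit_Phi g) (Orbit_set [a]) Finset.univ hfix n hunivn i
    (by rw [Fintype.card_finset]; exact hi)
  rw [← Orbit_set_it] at h1
  rw [← Orbit_mem_set, h1]
  exact Finset.mem_univ b

/-- Relations of the restricted system. -/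
theorem Orbit_rel {α β : Type} {h : α → List α} {g : β → List β} {ι : β → α} {t m : ℕ}
    {w : List α} {u : List β} (ht : 0 < t)
    (hg : ∀ b, (g b).map ι = it h t [ι b]) (hu : u.map ι = it h m w) (p : ℕ)
    (hp : Rel g u p) : Rel h w (t * p + m) := by
  obtain ⟨js, h1, h2, h3⟩ := hp
  refine ⟨js.map (fun j => t * j + m), by simpa using h1, ?_, ?_⟩
  · intro j hj
    rw [List.mem_map] at hj
    obtain ⟨i, hi, rfl⟩ := hj
    have h4 := h2 i hi
    have h5 : t * i < t * p := Nat.mul_lt_mul_of_pos_left h4 ht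
    omega
  · have h4 := congrArg (List.map ι) h3
    rw [Orbit_map_it hg, hu, ← it_add, List.map_flatten, List.map_map] at h4
    rw [h4, List.map_map]
    congr 1
    apply List.map_congr_left
    intro j _
    simp only [Function.comp]
    rw [Orbit_map_it hg, hu, ← it_add]

/-- The periodic orbit of the alphabets. -/
theorem Orbit_period {α : Type} [Fintype α] (h : α → List α) (w : List α) :
    ∃ n0 t, n0 ≤ 2 ^ Fintype.card α ∧ 0 < t ∧ t ≤ 2 ^ Fintype.card α ∧
      (∀ k, (Orbit_Phi h)^[t * k] (Orbit_set (it h n0 w)) = Orbit_set (it h n0 w)) ∧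
      ∀ δ, (Orbit_Phi h)^[δ] (Orbit_set (it h n0 w)) = Orbit_set (it h n0 w) → t ∣ δ := by
  classical
  obtain ⟨i, j, hij, he⟩ : ∃ i j : Fin (Fintype.card (Finset α) + 1), i < j ∧
      Orbit_set (it h (i : ℕ) w) = Orbit_set (it h (j : ℕ) w) := by
    obtain ⟨i, j, hne, he⟩ := Fintype.exists_ne_map_eq_of_card_lt
      (fun i : Fin (Fintype.card (Finset α) + 1) => Orbit_set (it h (i : ℕ) w)) (by simp)
    rcases lt_or_gt_of_ne hne with h | h
    · exact ⟨i, j, h, he⟩
    · exact ⟨j, i, h, he.symm⟩
  have hij' : (i : ℕ) < (j : ℕ) := hij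
  have hjn : (j : ℕ) < Fintype.card (Finset α) + 1 := j.isLt
  have hjn2 : (j : ℕ) < 2 ^ Fintype.card α + 1 := by
    have e := Fintype.card_finset (α := α)
    omega
  obtain ⟨d, hd0, hjd⟩ : ∃ d, 0 < d ∧ (j : ℕ) = d + (i : ℕ) :=
    ⟨(j : ℕ) - (i : ℕ), by omega, by omega⟩
  have hper : Function.IsPeriodicPt (Orbit_Phi h) d (Orbit_set (it h (i : ℕ) w)) := by
    unfold Function.IsPeriodicPt Function.IsFixedPt
    rw [← Orbit_set_it, ← it_add, ← hjd, ← he]
  refine ⟨(i : ℕ), Function.minimalPeriod (Orbit_Phi h) (Orbit_set (it h (i : ℕ) w)), by omega,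
    hper.minimalPeriod_pos hd0, ?_, ?_, ?_⟩
  · have h1 := hper.minimalPeriod_le hd0
    omega
  · intro k
    have h1 := (Function.isPeriodicPt_minimalPeriod (Orbit_Phi h)
      (Orbit_set (it h (i : ℕ) w))).mul_const k
    exact h1
  · intro δ hδ
    have h1 : Function.IsPeriodicPt (Orbit_Phi h) δ (Orbit_set (it h (i : ℕ) w)) := hδ
    exact h1.minimalPeriod_dvd

/-- The orbit of the alphabets of the `w_n`: restriction of a power of `h` to an alphabet `β` such
that all letters occur in all words.
Proof.  `X = Finset α`, `Φ E` = the set of the letters of the `h a`, `a ∈ E`; `E_n` = set of the letters of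
`w_n = Φ^[n] E_0`.  Pigeonhole: for some `n0 ≤ 2 ^ card α` the set `E_(n0)` is a periodic point of `Φ`, of
minimal period `t ≤ 2 ^ card α`.  Put `w' = it h n0 w`, `E'_n = Φ^[n] E_(n0)`.  Let `Rel h w' N` with the list `js`
(`LC.shift`).  For `j ∈ js`: `E'_j ⊆ E'_N`, `Φ` is monotone, so with `δ = N - j` `E'_j ⊆ E'_(j+δ) ⊆ E'_(j+2δ) ⊆ ... ⊆
E'_(j+tδ) = E'_j`, so `E'_j = E'_N`, and `t` divides `N - j` (minimal period).  Let `r = N % t`, `N = r + t N'`,
`j = r + t j'`; `u0 = it h r w'`; `β = {a // a ∈ E'_r}`; `g` = restriction of `a ↦ it h t [a]` to `β` (`List.attachWith`;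
`Φ^[t] E'_r = E'_r`); `u` = `u0` over `β`; `ι = Subtype.val`; `m = n0 + r`.  Then `(it g n u).map ι = it h (t n) u0`, its alphabet
is `E'_(r+tn) = E'_r`, and `Rel g u N'` with the list of the `j'` (`List.map` of the injective `ι`).
Growing letters `a`: `it g i [a]` is a factor of `it g i u`, arbitrarily long; by `long_factor` for `(g, u)` some `it g i [a]`
contains a full tile `it g l u`, so all letters of `β`; the alphabets of `it g i [a]` are an orbit of a map of
`Finset β`, for which `Finset.univ` is a fixed point (all letters occur in `it g 1 u`, all letters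
occur in `u`); use `orbit_fixed`, `card (Finset β) = 2 ^ card β`. -/
theorem orbit_step {α : Type} [Fintype α] {h : α → List α} {w : List α} {s : ℕ} (hs : Sz s h w)
    (hne : ∀ a, h a ≠ []) (hw : w ≠ []) (hlc : LC h w) :
    ∃ (β : Type) (_ : Fintype β) (g : β → List β) (u : List β) (ι : β → α) (t m : ℕ),
      Function.Injective ι ∧ 0 < t ∧ t ≤ 2 ^ s ∧ m ≤ 2 ^ (s + 1) ∧
      (∀ b, (g b).map ι = it h t [ι b]) ∧ u.map ι = it h m w ∧ LC g u ∧
      (∀ n b, b ∈ it g n u) ∧
      (∀ a, Gr g a → ∀ i, 2 ^ Fintype.card β ≤ i → ∀ b, b ∈ it g i [a]) ∧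
      ∀ p, Rel g u p → Rel h w (t * p + m) := by
  classical
  obtain ⟨n0, t, hn0, ht, htle, hper, hmin⟩ := Orbit_period h w
  have hcs : 2 ^ Fintype.card α ≤ 2 ^ s := Nat.pow_le_pow_right (by norm_num) hs.1
  obtain ⟨N, js, hjs0, hjsN, hrel⟩ := hlc.shift n0
  -- the differences are divisible by the period
  have hdvd : ∀ j ∈ js, t ∣ N - j := by
    intro j hj
    apply hmin
    have hjN := hjsN j hj
    have hsub : Orbit_set (it h j (it h n0 w)) ⊆
        (Orbit_Phi h)^[N - j] (Orbit_set (it h j (it h n0 w))) := by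
      rw [← Orbit_set_it, ← it_add h (N - j) j, Nat.sub_add_cancel hjN.le]
      intro b hb
      rw [Orbit_mem_set] at hb ⊢
      rw [hrel, List.mem_flatten]
      exact ⟨it h j (it h n0 w), List.mem_map.2 ⟨j, hj, rfl⟩, hb⟩
    have hcyc : (Orbit_Phi h)^[t * (N - j)] (Orbit_set (it h j (it h n0 w))) =
        Orbit_set (it h j (it h n0 w)) := by
      rw [Orbit_set_it h j, ← Function.iterate_add_apply, Nat.add_comm,
        Function.iterate_add_apply, hper]
    have heq := Orbit_chain (Orbit_mono h) ht hsub hcyc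
    rw [Orbit_set_it h j] at heq
    -- push to the starting point
    have hk : ∃ k c, k + j = t * c := by
      refine ⟨(t - 1) * j, j, ?_⟩
      obtain ⟨t', rfl⟩ : ∃ t', t = t' + 1 := ⟨t - 1, by omega⟩
      rw [Nat.add_sub_cancel]
      ring
    obtain ⟨k, c, hkc⟩ := hk
    have h5 := congrArg (Orbit_Phi h)^[k] heq
    rw [← Function.iterate_add_apply, Nat.add_comm k (N - j), Function.iterate_add_apply,
      ← Function.iterate_add_apply (Orbit_Phi h) k j, hkc, hper] at h5
    exact h5
  obtain ⟨m, hm⟩ : ∃ m, m = N % t + n0 := ⟨_, rfl⟩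
  have hmw : it h m w = it h (N % t) (it h n0 w) := by rw [hm, it_add]
  have hrt : N % t < t := Nat.mod_lt _ ht
  -- the alphabet is invariant
  have hinv : ∀ k, Orbit_set (it h (t * k + m) w) = Orbit_set (it h m w) := by
    intro k
    rw [it_add, Orbit_set_it, hmw, Orbit_set_it h (N % t), ← Function.iterate_add_apply,
      Nat.add_comm, Function.iterate_add_apply, hper]
  have hclosed : ∀ a ∈ it h m w, ∀ c ∈ it h t [a], c ∈ it h m w := by
    intro a ha c hc
    rw [← Orbit_mem_set, ← hinv 1, Orbit_mem_set, Nat.mul_one, it_add, it_eq_app, mem_app]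
    exact ⟨a, ha, hc⟩
  let β : Type := {a : α // a ∈ it h m w}
  let ι : β → α := Subtype.val
  let g : β → List β := fun b => (it h t [b.1]).attachWith (fun a => a ∈ it h m w)
    (fun c hc => hclosed b.1 b.2 c hc)
  let u : List β := (it h m w).attach
  have hinj : Function.Injective ι := Subtype.val_injective
  have hg : ∀ b, (g b).map ι = it h t [ι b] := by
    intro b
    simp only [g, ι]
    exact List.attachWith_map_subtype_val _
  have hu : u.map ι = it h m w := by
    simp only [u, ι]
    exact List.attach_map_subtype_val _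
  have hall : ∀ n b, b ∈ it g n u := by
    intro n b
    have h1 : ι b ∈ (it g n u).map ι := by
      rw [Orbit_map_it hg, hu, ← it_add, ← Orbit_mem_set, hinv, Orbit_mem_set]
      exact b.2
    rw [List.mem_map] at h1
    obtain ⟨b', hb', he⟩ := h1
    rw [← hinj he]
    exact hb'
  have hdecomp : ∀ j ∈ js, j = t * (j / t) + N % t := by
    intro j hj
    have h1 : j ≡ N [MOD t] := (Nat.modEq_iff_dvd' (hjsN j hj).le).2 (hdvd j hj)
    have h2 : j % t = N % t := h1
    rw [← h2]
    exact (Nat.div_add_mod j t).symm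
  have hLC : LC g u := by
    refine ⟨N / t, js.map (fun j => j / t), by simpa using hjs0, ?_, ?_⟩
    · intro j hj
      rw [List.mem_map] at hj
      obtain ⟨i, hi, rfl⟩ := hj
      have h1 := hdecomp i hi
      have h2 := hjsN i hi
      have h3 := Nat.div_add_mod N t
      have h4 : t * (i / t) < t * (N / t) := by omega
      exact Nat.lt_of_mul_lt_mul_left h4
    · apply (List.map_injective_iff.2 hinj)
      rw [Orbit_map_it hg, hu, hmw, ← it_add h (t * (N / t)) (N % t), Nat.div_add_mod, hrel, List.map_flatten,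
        List.map_map, List.map_map]
      congr 1
      apply List.map_congr_left
      intro j hj
      simp only [Function.comp]
      rw [Orbit_map_it hg, hu, hmw, ← it_add h (t * (j / t)) (N % t), ← hdecomp j hj]
  refine ⟨β, inferInstance, g, u, ι, t, m, hinj, ht, htle.trans hcs, ?_, hg, hu, hLC, hall, ?_, ?_⟩
  · rw [pow_succ]
    omega
  · intro a ha i hi b
    exact Orbit_grow hLC hall a ha i hi b
  · intro p hp
    exact Orbit_rel ht hg hu p hp

end D0L
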