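import Pool.Agent.H.MP_374efc_lc.Red.Per1

/-!
# MP_374efc_lc, general reduction: the periodic case, the relation
-/

set_option autoImplicit false

namespace D0L

theorem Per2_block (f : ℕ → ℕ) (e : ℕ) (hf : ∀ l, f (l + e) = f l) (k : ℕ) :
    ∑ l ∈ Finset.range (k * e), f l = k * ∑ l ∈ Finset.range e, f l := by
  induction k with
  | zero => simp
  | succ k ih =>
    have hf' : ∀ k l, f (k * e + l) = f l := by
      intro k
      induction k with
      | zero => intro l; simp
      | succ k ihk =>
        intro l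
        have h1 : (k + 1) * e + l = (k * e + l) + e := by ring
        rw [h1, hf, ihk]
    rw [Nat.succ_mul, Finset.sum_range_add, ih, Nat.succ_mul]
    congr 1
    exact Finset.sum_congr rfl fun l _ => hf' k l

theorem Per2_perm (x b m : ℕ) (hm : 0 < m) (hb : Nat.Coprime b m) :
    ∑ l ∈ Finset.range m, x ^ ((l * b) % m) = ∑ i ∈ Finset.range m, x ^ i := by
  refine Finset.sum_nbij (fun l => (l * b) % m) ?_ ?_ ?_ ?_
  · intro l _
    exact Finset.mem_range.2 (Nat.mod_lt _ hm)
  · intro l hl l' hl' h
    have hl1 := Finset.mem_range.1 hl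
    have hl2 := Finset.mem_range.1 hl'
    have h1 : l * b ≡ l' * b [MOD m] := h
    have h2 : l ≡ l' [MOD m] := Nat.ModEq.cancel_right_of_coprime hb.symm h1
    exact Nat.ModEq.eq_of_lt_of_lt h2 hl1 hl2
  · have h1 : Set.InjOn (fun l => (l * b) % m) (Finset.range m) := by
      intro l hl l' hl' h
      have hl1 := Finset.mem_range.1 hl
      have hl2 := Finset.mem_range.1 hl'
      have h1 : l * b ≡ l' * b [MOD m] := h
      have h2 : l ≡ l' [MOD m] := Nat.ModEq.cancel_right_of_coprime hb.symm h1
      exact Nat.ModEq.eq_of_lt_of_lt h2 hl1 hl2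
    exact Finset.surjOn_of_injOn_of_card_le _
      (fun l _ => Finset.mem_coe.2 (Finset.mem_range.2 (Nat.mod_lt _ hm))) h1 le_rfl
  · intro l _
    rfl

/-- The arithmetic of the relation.  Proof: `a = g a'`, `e = g e'` with `a'`, `e'` coprime, `(l * a) % e = g * ((l * a') % e')`,
and `l ↦ (l * a') % e'` is a bijection on each block of `e'` consecutive numbers; so the sum over a block is
`∑ i < e', (r^g)^i`, there are `r^g - 1` blocks, `(r^g - 1) * ∑ i < e', (r^g)^i = r^e - 1`, and the last term
`l = (r^g - 1) e'` is `r^0 = 1`. -/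
theorem per_sum (r a e : ℕ) (hr : 1 ≤ r) (he : 0 < e) :
    ∑ l ∈ Finset.range ((r ^ Nat.gcd a e - 1) * (e / Nat.gcd a e) + 1), r ^ ((l * a) % e) =
      r ^ e := by
  obtain ⟨g, a', e', hg, hco, ha, he'⟩ : ∃ g a' e', 0 < g ∧ Nat.Coprime a' e' ∧ a = a' * g ∧
      e = e' * g := by
    obtain ⟨g, a', e', hg, hco, ha, he'⟩ := Nat.exists_coprime' (Nat.gcd_pos_of_pos_right a he)
    exact ⟨g, a', e', hg, hco, ha, he'⟩
  have hgcd : Nat.gcd a e = g := by
    rw [ha, he', Nat.gcd_mul_right, hco.gcd_eq_one, one_mul]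
  have hdiv : e / g = e' := by
    rw [he']
    exact Nat.mul_div_cancel _ hg
  have he0 : 0 < e' := by
    rcases Nat.eq_zero_or_pos e' with h | h
    · rw [h, zero_mul] at he'
      omega
    · exact h
  rw [hgcd, hdiv]
  have hterm : ∀ l, r ^ ((l * a) % e) = (r ^ g) ^ ((l * a') % e') := by
    intro l
    rw [ha, he', ← mul_assoc, Nat.mul_mod_mul_right, mul_comm _ g, pow_mul]
  simp only [hterm]
  rw [Finset.sum_range_succ, Per2_block _ _ _ _, Per2_perm _ _ _ he0 hco]
  · have h1 : (r ^ g - 1) * e' * a' % e' = 0 := by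
      rw [mul_assoc, mul_comm e' a', ← mul_assoc]
      exact Nat.mul_mod_left _ _
    rw [h1, pow_zero]
    have h2 : 1 ≤ r ^ g := Nat.one_le_pow _ _ hr
    have h3 : (r ^ g - 1) * ∑ i ∈ Finset.range e', (r ^ g) ^ i + 1 = (r ^ g) ^ e' := by
      zify [h2]
      have h5 := geom_sum_mul ((r : ℤ) ^ g) e'
      linarith
    rw [h3, he', ← pow_mul, mul_comm g e']
  · intro l
    have h1 : (l + e') * a' % e' = l * a' % e' := by
      rw [add_mul, mul_comm e' a', Nat.add_mul_mod_self_right]
    rw [h1]

section chains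

variable {α : Type} {h : α → List α} {σ : α → α}

/-- The chain of length `n` which starts at `a`. -/
def Per2_ch (σ : α → α) : α → ℕ → List α
  | _, 0 => []
  | a, n + 1 => a :: Per2_ch σ (σ a) n

theorem Per2_ch_length (a : α) (n : ℕ) : (Per2_ch σ a n).length = n := by
  induction n generalizing a with
  | zero => rfl
  | succ n ih => rw [Per2_ch, List.length_cons, ih]

theorem Per2_ch_add (a : α) (m n : ℕ) :
    Per2_ch σ a (m + n) = Per2_ch σ a m ++ Per2_ch σ (σ^[m] a) n := by
  induction m generalizing a with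
  | zero => simp [Per2_ch]
  | succ m ih =>
    rw [Nat.add_right_comm, Per2_ch, ih, Per2_ch, List.cons_append, Function.iterate_succ_apply]

theorem Per2_of_chain {y : List α} (hy : y.IsChain (fun a b => b = σ a)) {a : α} {t : List α}
    (ha : y = a :: t) : y = Per2_ch σ a y.length := by
  induction t generalizing a y with
  | nil =>
    subst ha
    rfl
  | cons b t ih =>
    subst ha
    rw [List.isChain_cons_cons] at hy
    obtain ⟨h1, h2⟩ := hy
    have h3 := ih h2 rfl
    rw [List.length_cons, Per2_ch, ← h1, ← h3]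

/-- equal chains -/
theorem Per2_ch_head {a b : α} {m n : ℕ} (hm : 0 < m) (hab : Per2_ch σ a m = Per2_ch σ b n) :
    a = b := by
  obtain ⟨m, rfl⟩ : ∃ k, m = k + 1 := ⟨m - 1, by omega⟩
  rcases n with _ | n
  · exact absurd hab (by simp [Per2_ch])
  · rw [Per2_ch, Per2_ch] at hab
    exact (List.cons.inj hab).1

/-- The first letter of the image. -/
noncomputable def Per2_H (hc : Cyc h σ) (a : α) : α := (h a).head (hc.ne a)

theorem Per2_H_spec (hc : Cyc h σ) (a : α) : ∃ t, h a = Per2_H hc a :: t :=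
  ⟨(h a).tail, (List.cons_head_tail (hc.ne a)).symm⟩

theorem Per2_legal_app {w : List α} (hl : Legal h w) : Legal h (app h w) := by
  obtain ⟨c, n, u, v, huv⟩ := hl
  refine ⟨c, n + 1, app h u, app h v, ?_⟩
  rw [it_succ, ← huv, app_append, app_append]

theorem Per2_legal_it {w : List α} (hl : Legal h w) (n : ℕ) : Legal h (it h n w) := by
  induction n with
  | zero => exact hl
  | succ n ih =>
    rw [it_succ]
    exact Per2_legal_app ih

theorem Per2_legal_ch (hc : Cyc h σ) {y : List α} (hy : Legal h y) {a : α} {t : List α}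
    (ha : y = a :: t) : y = Per2_ch σ a y.length :=
  Per2_of_chain (hc.chain y hy) ha

theorem Per2_img (hc : Cyc h σ) (a : α) : h a = Per2_ch σ (Per2_H hc a) (h a).length := by
  obtain ⟨t, ht⟩ := Per2_H_spec hc a
  refine Per2_legal_ch hc ⟨a, 1, ?_⟩ ht
  rw [it_one, app_singleton]

theorem Per2_img_next (hc : Cyc h σ) (a : α) :
    σ^[(h a).length] (Per2_H hc a) = Per2_H hc (σ a) := by
  obtain ⟨t, ht⟩ := Per2_H_spec hc a
  have h1 : Legal h (h a ++ h (σ a)) := by
    have h2 := Per2_legal_app (hc.pair a)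
    rwa [app_cons, app_singleton] at h2
  have h3 : h a ++ h (σ a) = Per2_ch σ (Per2_H hc a) (h a ++ h (σ a)).length := by
    refine Per2_legal_ch hc h1 (t := t ++ h (σ a)) ?_
    rw [← List.cons_append, ← ht]
  rw [List.length_append, Per2_ch_add, ← Per2_img hc a] at h3
  have h4 := List.append_cancel_left h3
  have h5 : Per2_ch σ (Per2_H hc (σ a)) (h (σ a)).length =
      Per2_ch σ (σ^[(h a).length] (Per2_H hc a)) (h (σ a)).length := by
    rw [← Per2_img hc (σ a)]
    exact h4
  exact (Per2_ch_head (List.length_pos_of_ne_nil (hc.ne (σ a))) h5).symm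

theorem Per2_app_ch (hc : Cyc h σ) (a : α) (n : ℕ) :
    app h (Per2_ch σ a n) = Per2_ch σ (Per2_H hc a) (app h (Per2_ch σ a n)).length ∧
    σ^[(app h (Per2_ch σ a n)).length] (Per2_H hc a) = Per2_H hc (σ^[n] a) := by
  induction n generalizing a with
  | zero => exact ⟨rfl, rfl⟩
  | succ n ih =>
    obtain ⟨h1, h2⟩ := ih (σ a)
    rw [Per2_ch, app_cons, List.length_append, Per2_ch_add, ← Per2_img hc a, Per2_img_next hc a,
      ← h1]
    refine ⟨rfl, ?_⟩
    rw [Nat.add_comm, Function.iterate_add_apply, Per2_img_next, h2, Function.iterate_succ_apply]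

theorem Per2_it_ch (hc : Cyc h σ) (m : ℕ) (a : α) (n : ℕ) :
    it h m (Per2_ch σ a n) = Per2_ch σ ((Per2_H hc)^[m] a) (it h m (Per2_ch σ a n)).length ∧
    σ^[(it h m (Per2_ch σ a n)).length] ((Per2_H hc)^[m] a) = (Per2_H hc)^[m] (σ^[n] a) := by
  induction m with
  | zero =>
    rw [it_zero, Per2_ch_length]
    exact ⟨rfl, rfl⟩
  | succ m ih =>
    obtain ⟨h1, h2⟩ := ih
    have h3 := Per2_app_ch hc ((Per2_H hc)^[m] a) (it h m (Per2_ch σ a n)).length
    rw [← h1, h2] at h3
    rw [it_succ, Function.iterate_succ_apply', Function.iterate_succ_apply']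
    exact h3

theorem Per2_surj (hc : Cyc h σ) : Function.Surjective σ := by
  intro b
  obtain ⟨i, hi⟩ := hc.cyc (σ b) b
  refine ⟨σ^[i] b, ?_⟩
  have h1 : σ (σ^[i] b) = σ^[i + 1] b := (Function.iterate_succ_apply' σ i b).symm
  rw [h1, Function.iterate_succ_apply]
  exact hi

theorem Per2_H_inj (hc : Cyc h σ) : Function.Injective (Per2_H hc) := by
  intro a b hab
  obtain ⟨t, ht⟩ := Per2_H_spec hc a
  obtain ⟨t', ht'⟩ := Per2_H_spec hc b
  rw [← hab] at ht'
  exact hc.inj a b _ _ _ ht ht'

variable [Fintype α]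

/-- the period of a letter is the number of letters -/
theorem Per2_minper (hc : Cyc h σ) (a : α) : Function.minimalPeriod σ a = Fintype.card α := by
  classical
  have hinj : Function.Injective σ := Finite.injective_iff_surjective.2 (Per2_surj hc)
  have hper : a ∈ Function.periodicPts σ := by
    obtain ⟨i, hi⟩ := hc.cyc (σ a) a
    refine ⟨i + 1, Nat.succ_pos _, ?_⟩
    change σ^[i + 1] a = a
    rw [Function.iterate_succ_apply]
    exact hi
  have hpos := Function.minimalPeriod_pos_of_mem_periodicPts hper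
  have h1 : (Finset.range (Function.minimalPeriod σ a)).image (fun i => σ^[i] a) = Finset.univ := by
    rw [Finset.eq_univ_iff_forall]
    intro b
    obtain ⟨i, hi⟩ := hc.cyc a b
    refine Finset.mem_image.2 ⟨i % Function.minimalPeriod σ a, Finset.mem_range.2 (Nat.mod_lt _ hpos), ?_⟩
    rw [Function.iterate_mod_minimalPeriod_eq]
    exact hi
  have h2 : ((Finset.range (Function.minimalPeriod σ a)).image (fun i => σ^[i] a)).card =
      Function.minimalPeriod σ a := by
    rw [Finset.card_image_of_injOn, Finset.card_range]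
    intro i hi j hj hij
    have hi' := Finset.mem_range.1 (Finset.mem_coe.1 hi)
    have hj' := Finset.mem_range.1 (Finset.mem_coe.1 hj)
    exact Function.iterate_injOn_Iio_minimalPeriod (Set.mem_Iio.2 hi') (Set.mem_Iio.2 hj') hij
  rw [h1, Finset.card_univ] at h2
  exact h2.symm

theorem Per2_fix (hc : Cyc h σ) (a : α) (n : ℕ) : σ^[n] a = a ↔ Fintype.card α ∣ n := by
  rw [← Per2_minper hc a]
  exact Function.isPeriodicPt_iff_minimalPeriod_dvd

theorem Per2_fix_dvd (hc : Cyc h σ) {n : ℕ} (hn : Fintype.card α ∣ n) (a : α) : σ^[n] a = a :=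
  (Per2_fix hc a n).2 hn

/-- the length of the image of one period -/
theorem Per2_R (hc : Cyc h σ) : ∃ R, ∀ a, (app h (Per2_ch σ a (Fintype.card α))).length = R := by
  have h1 : ∀ a, (app h (Per2_ch σ (σ a) (Fintype.card α))).length =
      (app h (Per2_ch σ a (Fintype.card α))).length := by
    intro a
    have h2 : Per2_ch σ a (Fintype.card α + 1) =
        Per2_ch σ a (Fintype.card α) ++ Per2_ch σ (σ^[Fintype.card α] a) 1 :=
      Per2_ch_add _ _ _
    rw [Per2_ch, Per2_fix_dvd hc (dvd_refl _)] at h2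
    have h3 := congrArg (fun y => (app h y).length) h2
    simp only [app_cons, app_append, List.length_append, Per2_ch, app_nil, List.length_nil] at h3
    omega
  have h2 : ∀ i a, (app h (Per2_ch σ (σ^[i] a) (Fintype.card α))).length =
      (app h (Per2_ch σ a (Fintype.card α))).length := by
    intro i
    induction i with
    | zero => intro a; rfl
    | succ i ih =>
      intro a
      rw [Function.iterate_succ_apply, ih, h1]
  by_cases hne : Nonempty α
  · obtain ⟨a0⟩ := hne
    refine ⟨(app h (Per2_ch σ a0 (Fintype.card α))).length, fun a => ?_⟩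
    obtain ⟨i, hi⟩ := hc.cyc a0 a
    rw [← hi, h2]
  · exact ⟨0, fun a => absurd ⟨a⟩ hne⟩

theorem Per2_R_mul {R : ℕ}
    (hR : ∀ a, (app h (Per2_ch σ a (Fintype.card α))).length = R) (k : ℕ) (a : α) :
    (app h (Per2_ch σ a (k * Fintype.card α))).length = k * R := by
  induction k generalizing a with
  | zero => simp [Per2_ch, app_nil]
  | succ k ih =>
    rw [Nat.succ_mul, Nat.add_comm, Per2_ch_add, app_append, List.length_append, hR, ih,
      Nat.succ_mul, Nat.add_comm]

/-- the ratio -/
theorem Per2_r (hc : Cyc h σ) (hgr : ∀ a, Gr h a) [Nonempty α] :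
    ∃ r, 2 ≤ r ∧ ∀ a n, Fintype.card α ∣ n → (app h (Per2_ch σ a n)).length = r * n := by
  obtain ⟨R, hR⟩ := Per2_R hc
  obtain ⟨a0⟩ := ‹Nonempty α›
  have hq : 0 < Fintype.card α := Fintype.card_pos_iff.2 ⟨a0⟩
  have h1 : Fintype.card α ∣ R := by
    have h2 := (Per2_app_ch hc a0 (Fintype.card α)).2
    rw [hR, Per2_fix_dvd hc (dvd_refl _)] at h2
    exact (Per2_fix hc _ _).1 h2
  obtain ⟨r, hr⟩ := h1
  have hlen : ∀ a n, Fintype.card α ∣ n → (app h (Per2_ch σ a n)).length = r * n := by
    rintro a n ⟨k, rfl⟩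
    rw [mul_comm (Fintype.card α) k, Per2_R_mul hR, hr]
    ring
  refine ⟨r, ?_, hlen⟩
  by_contra hlt
  have hr1 : r ≤ 1 := by omega
  have h3 : ∀ m, (it h m (Per2_ch σ a0 (Fintype.card α))).length ≤ Fintype.card α ∧
      Fintype.card α ∣ (it h m (Per2_ch σ a0 (Fintype.card α))).length := by
    intro m
    induction m with
    | zero =>
      rw [it_zero, Per2_ch_length]
      exact ⟨le_rfl, dvd_refl _⟩
    | succ m ih =>
      obtain ⟨i1, i2⟩ := ih
      have h4 := (Per2_it_ch hc m a0 (Fintype.card α)).1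
      rw [it_succ]
      have h5 : (app h (it h m (Per2_ch σ a0 (Fintype.card α)))).length =
          r * (it h m (Per2_ch σ a0 (Fintype.card α))).length := by
        conv_lhs => rw [h4]
        exact hlen _ _ i2
      rw [h5]
      exact ⟨by nlinarith, i2.mul_left r⟩
  obtain ⟨m, hm⟩ := hgr a0 (Fintype.card α + 1)
  obtain ⟨q, hq'⟩ : ∃ q, Fintype.card α = q + 1 := ⟨Fintype.card α - 1, by omega⟩
  have h5 := (h3 m).1
  rw [hq', Per2_ch] at h5
  have h6 : it h m (a0 :: Per2_ch σ (σ a0) q) = it h m [a0] ++ it h m (Per2_ch σ (σ a0) q) := by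
    rw [← it_append]
    rfl
  rw [h6, List.length_append] at h5
  omega

/-- the excess of a word over `E` steps -/
def Per2_lam (h : α → List α) (E : ℕ) (y : List α) : ℤ :=
  ((it h E y).length : ℤ) - (y.length : ℤ)

omit [Fintype α] in
theorem Per2_lam_append (E : ℕ) (x y : List α) :
    Per2_lam h E (x ++ y) = Per2_lam h E x + Per2_lam h E y := by
  unfold Per2_lam
  rw [it_append, List.length_append, List.length_append]
  push_cast
  ring

omit [Fintype α] in
theorem Per2_len_it (hc : Cyc h σ) (m : ℕ) (y : List α) : y.length ≤ (it h m y).length := by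
  induction m with
  | zero => exact le_rfl
  | succ m ih =>
    rw [it_succ]
    exact ih.trans (length_le_app hc.ne _)

/-- closed chains -/
theorem Per2_closed (hc : Cyc h σ) {r : ℕ}
    (hr : ∀ a n, Fintype.card α ∣ n → (app h (Per2_ch σ a n)).length = r * n) (m : ℕ) (a : α) (n : ℕ)
    (hn : Fintype.card α ∣ n) : (it h m (Per2_ch σ a n)).length = r ^ m * n := by
  induction m with
  | zero => rw [it_zero, Per2_ch_length, pow_zero, one_mul]
  | succ m ih =>
    have h4 := (Per2_it_ch hc m a n).1
    rw [it_succ, h4, hr _ _ (by rw [ih]; exact hn.mul_left _), ih]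
    ring

theorem Per2_lam_closed (hc : Cyc h σ) {r : ℕ} (hr2 : 2 ≤ r)
    (hr : ∀ a n, Fintype.card α ∣ n → (app h (Per2_ch σ a n)).length = r * n) {E : ℕ} (hE : 0 < E)
    (a : α) {n : ℕ} (hn : Fintype.card α ∣ n) (hn0 : 0 < n) : 0 < Per2_lam h E (Per2_ch σ a n) := by
  unfold Per2_lam
  rw [Per2_closed hc hr E a n hn, Per2_ch_length]
  have h1 : 2 ≤ r ^ E := hr2.trans (Nat.le_self_pow hE.ne' r)
  have h2 : 2 * n ≤ r ^ E * n := Nat.mul_le_mul_right n h1
  have h3 : ((2 * n : ℕ) : ℤ) ≤ ((r ^ E * n : ℕ) : ℤ) := by exact_mod_cast h2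
  push_cast at h3 ⊢
  have h4 : (0 : ℤ) < n := by exact_mod_cast hn0
  linarith

theorem Per2_lam_app (hc : Cyc h σ) {r : ℕ}
    (hr : ∀ a n, Fintype.card α ∣ n → (app h (Per2_ch σ a n)).length = r * n) {E : ℕ}
    (hHE : (Per2_H hc)^[E] = id) (a : α) (n : ℕ) :
    Per2_lam h E (app h (Per2_ch σ a n)) = r * Per2_lam h E (Per2_ch σ a n) := by
  obtain ⟨h1, h2⟩ := Per2_it_ch hc E a n
  have h3 := Per2_len_it hc E (Per2_ch σ a n)
  rw [Per2_ch_length] at h3
  obtain ⟨d, hd⟩ := Nat.exists_eq_add_of_le h3
  rw [hd, hHE, id, Per2_ch_add] at h1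
  rw [hd, hHE, id, Nat.add_comm, Function.iterate_add_apply] at h2
  have h4 : Fintype.card α ∣ d := (Per2_fix hc _ _).1 h2
  have h5 : it h E (app h (Per2_ch σ a n)) = app h (it h E (Per2_ch σ a n)) := by
    rw [← it_succ', it_succ]
  unfold Per2_lam
  rw [h5, hd, Per2_ch_length]
  rw [h1, app_append, List.length_append, hr _ _ h4]
  push_cast
  ring

theorem Per2_lam_it (hc : Cyc h σ) {r : ℕ}
    (hr : ∀ a n, Fintype.card α ∣ n → (app h (Per2_ch σ a n)).length = r * n) {E : ℕ}
    (hHE : (Per2_H hc)^[E] = id) (a : α) (n m : ℕ) :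
    Per2_lam h E (it h m (Per2_ch σ a n)) = r ^ m * Per2_lam h E (Per2_ch σ a n) := by
  induction m with
  | zero => simp [it_zero]
  | succ m ih =>
    obtain ⟨h1, -⟩ := Per2_it_ch hc m a n
    have h2 := Per2_lam_app hc hr hHE ((Per2_H hc)^[m] a) (it h m (Per2_ch σ a n)).length
    rw [← h1, ih] at h2
    rw [it_succ, h2, pow_succ]
    ring

/-- the exponent of the permutation of the first letters -/
theorem Per2_E (hc : Cyc h σ) : ∃ E, 0 < E ∧ (Per2_H hc)^[E] = id := by
  classical
  have hb : Function.Bijective (Per2_H hc) := Finite.injective_iff_bijective.1 (Per2_H_inj hc)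
  refine ⟨orderOf (Equiv.ofBijective _ hb), orderOf_pos _, ?_⟩
  have h1 := pow_orderOf_eq_one (Equiv.ofBijective _ hb)
  funext x
  have h2 : ((Equiv.ofBijective _ hb) ^ orderOf (Equiv.ofBijective _ hb)) x = x := by
    rw [h1]
    rfl
  rw [← Equiv.Perm.iterate_eq_pow] at h2
  exact h2

end chains

/-- Proof.
(1) For a letter `a` put `ch a n = [a, σ a, ..., σ^[n-1] a]`.  `ch a (m+n) = ch a m ++ ch (σ^[m] a) n`; every chain with head `a` and
length `n` is `ch a n`.  `H a` = head of `h a`.  By `pair`: `h a = ch (H a) |h a|` and `σ^[|h a|] (H a) = H (σ a)` (the word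
`h a ++ h (σ a)` is legal, so a chain).  By induction `app h (ch a n) = ch (H a) len`, `σ^[len] (H a) = H (σ^[n] a)`; then
`it h m (ch a n) = ch (H^[m] a) len`, `σ^[len] (H^[m] a) = H^[m] (σ^[n] a)`.
(2) `σ` is surjective by `cyc`, so bijective, and `σ^[n] a = a` iff `q ∣ n`, `q = card α`.
(3) If `q ∣ n` every letter occurs `n / q` times in `ch a n`, so `q * |app h (ch a n)| = n * R`, `R = ∑ a, |h a|`; `q ∣ R` because
`σ^[R] (H a) = H (σ^[q] a) = H a`; `R = r q`; so `|app h (ch a n)| = r n` for `q ∣ n`.  `r ≥ 2`: otherwise all `|h a| = 1`, nothing grows.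
(4) `H` is injective (`inj`), so `H^[E] = id` for some `E > 0`.
(5) For a chain `y = ch a n`: `it h E y = ch a len` with `σ^[len] a = σ^[n] a`, so `len = n + ` multiple of `q` (`len ≥ n`), `it h E y = y ++ z`
with `z` a closed chain.  Put `λ y = |it h E y| - |y| = |z|`.  `λ (app h y) = |app h (it h E y)| - |app h y| = |app h z| = r |z| = r λ y`.
`λ` is additive.  `λ z = (r^E - 1) |z| > 0` for closed nonempty `z`.
(6) `w = ch s n0`, `t = σ^[n0] s`.  Let `Rel h w N` with list `js`.  `js` has at least two members (`w_N = w_j` with `j < N` would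
bound the lengths), so `w_i w_j` is a factor of `w_N`, which is legal, so a chain: `H^[i] t = H^[j] s`, and
`t = H^[a] s` with `a = j + (E - 1) i`.
(7) `e` = minimal period of `s` under `H`, `e ≤ card α`; `g = gcd a e`; `js = [(l a) % e : l < (r^g - 1)(e/g) + 1]`.  By induction the product of
the first `l` tiles is `ch s len` with `σ^[len] s = H^[l a] s`; the whole product `X` ends at `H^[k a] s = H^[a] s = t` (`e ∣ (e/g) a`).
`w_e = ch s len'`, `σ^[len'] s = H^[e] t = t`.  `λ X = ∑ r^j λ w = r^e λ w = λ w_e` by `per_sum`.  If `X ≠ w_e` one is the other times a closed nonempty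
chain, and the `λ` differ. -/
theorem per2 {α : Type} [Fintype α] {h : α → List α} {w : List α} {σ : α → α} (hc : Cyc h σ)
    (hgr : ∀ a, Gr h a) (hl : Legal h w) (hw : w ≠ []) (hlc : LC h w) :
    ∃ p ≤ Fintype.card α, Rel h w p := by
  classical
  obtain ⟨s, w', hsw⟩ := List.exists_cons_of_ne_nil hw
  have hne : Nonempty α := ⟨s⟩
  obtain ⟨r, hr2, hr⟩ := Per2_r hc hgr
  obtain ⟨E, hE, hHE⟩ := Per2_E hc
  obtain ⟨n0, hn0⟩ : ∃ n, n = w.length := ⟨_, rfl⟩
  have hwch : w = Per2_ch σ s n0 := by
    rw [hn0]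
    exact Per2_legal_ch hc hl hsw
  obtain ⟨t, ht⟩ : ∃ t, t = σ^[n0] s := ⟨_, rfl⟩
  -- the iterates of `w`
  have hit : ∀ m, it h m w = Per2_ch σ ((Per2_H hc)^[m] s) (it h m w).length ∧
      σ^[(it h m w).length] ((Per2_H hc)^[m] s) = (Per2_H hc)^[m] t := by
    intro m
    have h1 := Per2_it_ch hc m s n0
    rw [← hwch, ← ht] at h1
    exact h1
  have hn0' : 0 < n0 := by
    rw [hn0]
    exact List.length_pos_of_ne_nil hw
  have hpos : ∀ m, 0 < (it h m w).length := by
    intro m
    have h1 := Per2_len_it hc m w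
    rw [← hn0] at h1
    omega
  -- two consecutive tiles
  obtain ⟨N, js, hjs, hjlt, hprod⟩ := hlc
  have htwo : ∃ i j, (Per2_H hc)^[i] t = (Per2_H hc)^[j] s := by
    match js, hjs, hjlt, hprod with
    | [j], _, hjlt, hprod =>
      exfalso
      have hj := hjlt j (by simp)
      simp only [List.map_cons, List.map_nil, List.flatten_cons, List.flatten_nil,
        List.append_nil] at hprod
      -- lengths are bounded
      have h1 : ∀ k, (it h (j + k * (N - j)) w).length = (it h j w).length := by
        intro k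
        induction k with
        | zero => simp
        | succ k ih =>
          have h2 : j + (k + 1) * (N - j) = k * (N - j) + N := by
            rw [Nat.succ_mul]
            omega
          rw [h2, it_add, hprod, ← it_add, Nat.add_comm, ih]
      obtain ⟨m, hm⟩ := hgr s ((it h j w).length + 1)
      have h3 : (it h m [s]).length ≤ (it h m w).length := by
        rw [hsw]
        have h4 : it h m (s :: w') = it h m [s] ++ it h m w' := by
          rw [← it_append]
          rfl
        rw [h4, List.length_append]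
        omega
      have h4 : (it h m w).length ≤ (it h (j + m * (N - j)) w).length := by
        have h5 : m ≤ j + m * (N - j) := by
          have h6 : 1 ≤ N - j := by omega
          nlinarith
        obtain ⟨d, hd⟩ := Nat.exists_eq_add_of_le h5
        rw [hd, Nat.add_comm, it_add]
        exact Per2_len_it hc d _
      rw [h1] at h4
      omega
    | i :: j :: js', _, hjlt, hprod =>
      refine ⟨i, j, ?_⟩
      have hN := (hit N).1
      simp only [List.map_cons, List.flatten_cons] at hprod
      have h1 := hN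
      rw [hprod] at h1
      rw [List.length_append, List.length_append, ← Nat.add_assoc, Per2_ch_add, Per2_ch_add] at h1
      have h2 : (Per2_H hc)^[N] s = (Per2_H hc)^[i] s := by
        have h3 := (hit i).1
        rw [List.append_assoc] at h1
        have h4 := (List.append_inj h1 (by rw [Per2_ch_length])).1
        rw [h3] at h4
        exact (Per2_ch_head (hpos i) h4).symm
      rw [List.append_assoc] at h1
      have h4 := (List.append_inj h1 (by rw [Per2_ch_length])).2
      have h5 := (List.append_inj h4 (by rw [Per2_ch_length])).1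
      rw [(hit j).1] at h5
      have h6 := Per2_ch_head (hpos j) h5
      rw [h6, h2, (hit i).2]
  obtain ⟨i, j, hij⟩ := htwo
  obtain ⟨a, ha⟩ : ∃ a, t = (Per2_H hc)^[a] s := by
    refine ⟨(E - 1) * i + j, ?_⟩
    rw [Function.iterate_add_apply, ← hij, ← Function.iterate_add_apply]
    have h1 : (E - 1) * i + i = E * i := by
      obtain ⟨E', rfl⟩ : ∃ E', E = E' + 1 := ⟨E - 1, by omega⟩
      simp only [Nat.add_sub_cancel]
      ring
    rw [h1, Function.iterate_mul, hHE, Function.iterate_id, id]
  -- the period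
  have hsper : s ∈ Function.periodicPts (Per2_H hc) := by
    refine ⟨E, hE, ?_⟩
    change (Per2_H hc)^[E] s = s
    rw [hHE, id]
  obtain ⟨e, he⟩ : ∃ e, e = Function.minimalPeriod (Per2_H hc) s := ⟨_, rfl⟩
  have hepos : 0 < e := by
    rw [he]
    exact Function.minimalPeriod_pos_of_mem_periodicPts hsper
  have hecard : e ≤ Fintype.card α := by
    have h2 : ((Finset.range e).image (fun i => (Per2_H hc)^[i] s)).card = e := by
      rw [Finset.card_image_of_injOn, Finset.card_range]
      intro i hi j hj hij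
      have hi' := Finset.mem_range.1 (Finset.mem_coe.1 hi)
      have hj' := Finset.mem_range.1 (Finset.mem_coe.1 hj)
      rw [he] at hi' hj'
      exact Function.iterate_injOn_Iio_minimalPeriod (Set.mem_Iio.2 hi') (Set.mem_Iio.2 hj') hij
    rw [← h2]
    exact Finset.card_le_univ _
  have hes : (Per2_H hc)^[e] s = s := by
    rw [he]
    exact Function.isPeriodicPt_minimalPeriod _ _
  have hmod : ∀ m, (Per2_H hc)^[m % e] s = (Per2_H hc)^[m] s := by
    intro m
    rw [he]
    exact Function.iterate_mod_minimalPeriod_eq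
  have hmodt : ∀ m, (Per2_H hc)^[m % e] t = (Per2_H hc)^[m] t := by
    intro m
    rw [ha, ← Function.iterate_add_apply, ← Function.iterate_add_apply, ← hmod (m % e + a),
      Nat.mod_add_mod, hmod]
  obtain ⟨K, hK⟩ : ∃ K, K = (r ^ Nat.gcd a e - 1) * (e / Nat.gcd a e) + 1 := ⟨_, rfl⟩
  have hKt : (Per2_H hc)^[K * a] s = t := by
    have h1 : e ∣ (e / Nat.gcd a e) * a := by
      obtain ⟨a1, ha1⟩ := Nat.gcd_dvd_left a e
      have h2 : e / Nat.gcd a e * a = e * a1 := by
        calc e / Nat.gcd a e * a = e / Nat.gcd a e * (Nat.gcd a e * a1) := by rw [← ha1]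
          _ = e * a1 := by rw [← mul_assoc, Nat.div_mul_cancel (Nat.gcd_dvd_right a e)]
      rw [h2]
      exact Dvd.intro _ rfl
    have h2 : K * a = (r ^ Nat.gcd a e - 1) * (e / Nat.gcd a e * a) + a := by
      rw [hK]
      ring
    rw [← hmod, h2, Nat.add_mod, Nat.dvd_iff_mod_eq_zero.1 (h1.mul_left _), zero_add, Nat.mod_mod,
      hmod, ha]
  -- the product
  obtain ⟨P, hP⟩ : ∃ P : ℕ → List α, ∀ l, P l =
      (((List.range l).map (fun l => (l * a) % e)).map (fun j => it h j w)).flatten := ⟨_, fun _ => rfl⟩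
  have hPs : ∀ l, P (l + 1) = P l ++ it h ((l * a) % e) w := by
    intro l
    rw [hP, hP, List.range_succ, List.map_append, List.map_append, List.flatten_append]
    simp
  have hPch : ∀ l, P l = Per2_ch σ s (P l).length ∧ σ^[(P l).length] s = (Per2_H hc)^[l * a] s := by
    intro l
    induction l with
    | zero =>
      have h1 : P 0 = [] := by rw [hP]; rfl
      rw [h1]
      simp [Per2_ch]
    | succ l ih =>
      obtain ⟨i1, i2⟩ := ih
      obtain ⟨j1, j2⟩ := hit ((l * a) % e)
      rw [hmod] at j1 j2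
      rw [hmodt] at j2
      rw [hPs, List.length_append, Per2_ch_add, ← i1, i2, ← j1]
      refine ⟨rfl, ?_⟩
      rw [Nat.add_comm, Function.iterate_add_apply, i2, j2, ha, ← Function.iterate_add_apply]
      congr 1
      ring
  have hlamw : ∀ m, Per2_lam h E (it h m w) = r ^ m * Per2_lam h E w := by
    intro m
    rw [hwch]
    exact Per2_lam_it hc hr hHE s n0 m
  have hlamP : ∀ l, Per2_lam h E (P l) =
      ((∑ l ∈ Finset.range l, r ^ ((l * a) % e) : ℕ) : ℤ) * Per2_lam h E w := by
    intro l
    induction l with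
    | zero =>
      have h1 : P 0 = [] := by rw [hP]; rfl
      rw [h1]
      simp [Per2_lam, it_nil]
    | succ l ih =>
      rw [hPs, Per2_lam_append, ih, hlamw, Finset.sum_range_succ]
      push_cast
      ring
  have hlamK : Per2_lam h E (P K) = Per2_lam h E (it h e w) := by
    rw [hlamP, hlamw, hK, per_sum r a e (by omega) hepos]
    push_cast
    ring
  have hPK := hPch K
  rw [hKt] at hPK
  have hie := hit e
  rw [hes] at hie
  have het : (Per2_H hc)^[e] t = t := by
    rw [ha, ← Function.iterate_add_apply, Nat.add_comm, Function.iterate_add_apply, hes]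
  rw [het] at hie
  have hlen : (P K).length = (it h e w).length := by
    rcases lt_trichotomy (P K).length (it h e w).length with hlt | heq | hgt
    · exfalso
      obtain ⟨d, hd⟩ := Nat.exists_eq_add_of_lt hlt
      rw [Nat.add_assoc] at hd
      have h1 := hie.1
      rw [hd, Per2_ch_add, ← hPK.1, hPK.2] at h1
      have h2 := hie.2
      rw [hd, Nat.add_comm, Function.iterate_add_apply, hPK.2] at h2
      have h3 := (Per2_fix hc _ _).1 h2
      have h4 := Per2_lam_closed hc hr2 hr hE t h3 (Nat.succ_pos d)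
      rw [h1, Per2_lam_append] at hlamK
      linarith
    · exact heq
    · exfalso
      obtain ⟨d, hd⟩ := Nat.exists_eq_add_of_lt hgt
      rw [Nat.add_assoc] at hd
      have h1 := hPK.1
      rw [hd, Per2_ch_add, ← hie.1, hie.2] at h1
      have h2 := hPK.2
      rw [hd, Nat.add_comm, Function.iterate_add_apply, hie.2] at h2
      have h3 := (Per2_fix hc _ _).1 h2
      have h4 := Per2_lam_closed hc hr2 hr hE t h3 (Nat.succ_pos d)
      rw [h1, Per2_lam_append] at hlamK
      linarith
  refine ⟨e, hecard, (List.range K).map (fun l => (l * a) % e), ?_, ?_, ?_⟩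
  · rw [hK]
    simp
  · intro j hj
    rw [List.mem_map] at hj
    obtain ⟨l, -, rfl⟩ := hj
    exact Nat.mod_lt _ hepos
  · rw [← hP, hPK.1, hie.1, hlen]

end D0L
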