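import Pool.Agent.H.MP_374efc_lc.Red.Defs

/-!
# MP_374efc_lc, general reduction: simplification (defect)
-/

set_option autoImplicit false

namespace D0L

/-- Initial segments of an infinite word. -/
def Simp_pre {α : Type} (X : ℕ → α) (m : ℕ) : List α := (List.range m).map X

theorem Simp_pre_length {α : Type} (X : ℕ → α) (m : ℕ) : (Simp_pre X m).length = m := by
  simp [Simp_pre]

theorem Simp_pre_succ {α : Type} (X : ℕ → α) (m : ℕ) :
    Simp_pre X (m + 1) = Simp_pre X m ++ [X m] := by
  simp [Simp_pre, List.range_succ]

theorem Simp_pre_prefix {α : Type} (X : ℕ → α) {m k : ℕ} (h : m ≤ k) :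
    Simp_pre X m <+: Simp_pre X k := by
  induction k, h using Nat.le_induction with
  | base => exact List.prefix_rfl
  | succ k _ ih =>
    rw [Simp_pre_succ]
    exact ih.trans (List.prefix_append _ _)

theorem Simp_app_prefix {α β : Type} (h : α → List β) {u v : List α} (huv : u <+: v) :
    app h u <+: app h v := by
  obtain ⟨t, rfl⟩ := huv
  rw [app_append]
  exact List.prefix_append _ _

theorem Simp_pre_get {α : Type} (X : ℕ → α) {m i : ℕ} (h : i < m) :
    (Simp_pre X m)[i]? = some (X i) := by
  rw [Simp_pre, List.getElem?_map, List.getElem?_range h]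
  rfl

theorem Simp_of_prefix {α : Type} {Y : ℕ → α} {l : List α} {k : ℕ} (h : l <+: Simp_pre Y k) :
    l = Simp_pre Y l.length := by
  have h1 := List.prefix_iff_eq_take.1 h
  have h2 : l.length ≤ k := by
    have := h.length_le
    rwa [Simp_pre_length] at this
  rw [Simp_pre, ← List.map_take, List.take_range, min_eq_left h2] at h1
  exact h1

theorem Simp_get_prefix {α : Type} {l l' : List α} (h : l <+: l') {i : ℕ} (hi : i < l.length) :
    l[i]? = l'[i]? := by
  obtain ⟨t, rfl⟩ := h
  rw [List.getElem?_append_left hi]

/-- A nonerasing morphism has an image of every right infinite word.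
Proof: `Y n = (app h (first n+1 letters of X))[n]`; the words `app h (X[0..n))` are prefixes of each other
and have length at least `n`. -/
theorem exists_isIm {α β : Type} (h : α → List β) (hne : ∀ a, h a ≠ []) (X : ℕ → α) :
    ∃ Y, IsIm h X Y := by
  have hlen : ∀ n, n ≤ (app h (Simp_pre X n)).length := fun n => by
    have := length_le_app hne (Simp_pre X n)
    rwa [Simp_pre_length] at this
  let Y : ℕ → β := fun n => (app h (Simp_pre X (n + 1)))[n]'(hlen (n + 1))
  have hY : ∀ n, (app h (Simp_pre X (n + 1)))[n]? = some (Y n) := fun n =>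
    List.getElem?_eq_getElem (hlen (n + 1))
  refine ⟨Y, fun n => ⟨(app h (Simp_pre X n)).length, ?_⟩⟩
  show app h (Simp_pre X n) = Simp_pre Y _
  apply List.ext_getElem?
  intro i
  rcases lt_or_ge i (app h (Simp_pre X n)).length with hi | hi
  · rw [Simp_pre_get Y hi, ← hY i]
    rcases le_total n (i + 1) with h1 | h1
    · exact Simp_get_prefix (Simp_app_prefix h (Simp_pre_prefix X h1)) hi
    · exact (Simp_get_prefix (Simp_app_prefix h (Simp_pre_prefix X h1)) (hlen (i + 1))).symm
  · rw [List.getElem?_eq_none hi, List.getElem?_eq_none (by rw [Simp_pre_length]; exact hi)]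

/-- It is enough to check `IsIm` for arbitrarily large `n`: a prefix of `Y[0..k)` is `Y[0..k')`. -/
theorem isIm_of_frequently {α β : Type} {h : α → List β} {X : ℕ → α} {Y : ℕ → β}
    (H : ∀ n, ∃ m, n ≤ m ∧ ∃ k, app h ((List.range m).map X) = (List.range k).map Y) :
    IsIm h X Y := by
  intro n
  obtain ⟨m, hnm, k, hk⟩ := H n
  have h1 : app h (Simp_pre X n) <+: Simp_pre Y k := by
    have h2 := Simp_app_prefix h (Simp_pre_prefix X hnm)
    have h3 : app h (Simp_pre X m) = Simp_pre Y k := hk
    rwa [h3] at h2
  exact ⟨_, Simp_of_prefix h1⟩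

/-- Composition: if `h = g f` on letters, `X1 = f(X)`, `Y = h(X)`, then `Y = g(X1)`.
Proof: `X1[0..n)` is a prefix of `app f (X[0..n))` (`f` nonerasing), so `app g (X1[0..n))` is a prefix of
`app h (X[0..n)) = Y[0..k)`. -/
theorem isIm_comp {α β γ : Type} {h : α → List γ} {f : α → List β} {g : β → List γ}
    (hfg : ∀ a, app g (f a) = h a) (hf : ∀ a, f a ≠ []) {X : ℕ → α} {X1 : ℕ → β} {Y : ℕ → γ}
    (h1 : IsIm f X X1) (h2 : IsIm h X Y) : IsIm g X1 Y := by
  intro n
  obtain ⟨k1, hk1⟩ := h1 n
  obtain ⟨k, hk⟩ := h2 n
  have e1 : app f (Simp_pre X n) = Simp_pre X1 k1 := hk1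
  have e2 : app h (Simp_pre X n) = Simp_pre Y k := hk
  have hn : n ≤ k1 := by
    have := length_le_app hf (Simp_pre X n)
    rwa [e1, Simp_pre_length, Simp_pre_length] at this
  have h3 := Simp_app_prefix g (Simp_pre_prefix X1 hn)
  have e3 : app g (Simp_pre X1 k1) = Simp_pre Y k := by
    rw [← e1, app_app, ← e2]
    congr 1
    funext a
    exact hfg a
  rw [e3] at h3
  exact ⟨_, Simp_of_prefix h3⟩

/-- identifying the letter `b` with the letter `a` -/
theorem Simp_ident {α β : Type} [Fintype α] (h : α → List β) (hne : ∀ a, h a ≠ []) {a b : α}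
    (hab : a ≠ b) (hh : h b = h a) :
    ∃ (δ : Type) (_ : Fintype δ) (f : α → List δ) (g : δ → List β),
      Fintype.card δ < Fintype.card α ∧ (∀ a, app g (f a) = h a) ∧ (∀ d, g d ≠ []) ∧
      ∀ d, ∃ a, d ∈ f a := by
  classical
  refine ⟨{c // c ≠ b}, inferInstance,
    fun c => if hc : c = b then [⟨a, hab⟩] else [⟨c, hc⟩], fun d => h d.1, ?_, ?_, fun d => hne d.1,
    ?_⟩
  · exact Fintype.card_subtype_lt (x := b) (by simp)
  · intro c
    by_cases hc : c = b
    · simp only [dif_pos hc]
      rw [app_singleton, hc, hh]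
    · simp only [dif_neg hc]
      rw [app_singleton]
  · intro d
    refine ⟨d.1, ?_⟩
    simp only [dif_neg d.2]
    exact List.mem_singleton.2 rfl

/-- A morphism which is not injective on right infinite words: two infinite words with the same
image, with first different letters `a`, `b`, where `h a` is a prefix of `h b`. -/
theorem Simp_first {α β : Type} (h : α → List β) (hh : ¬ InjR h) :
    ∃ (x x' : ℕ → α) (y : ℕ → β) (n : ℕ), IsIm h x y ∧ IsIm h x' y ∧ x n ≠ x' n ∧
      Simp_pre x n = Simp_pre x' n ∧ h (x n) <+: h (x' n) := by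
  classical
  unfold InjR at hh
  push Not at hh
  obtain ⟨x, x', y, h1, h2, h3⟩ := hh
  have hex : ∃ n, x n ≠ x' n := by
    by_contra hcon
    push Not at hcon
    exact h3 (funext hcon)
  have hn := Nat.find_spec hex
  have hmin : ∀ i, i < Nat.find hex → x i = x' i := fun i hi => by
    by_contra hcon
    exact Nat.find_min hex hi hcon
  generalize Nat.find hex = n at hn hmin
  have hpre : Simp_pre x n = Simp_pre x' n := by
    apply List.map_congr_left
    intro i hi
    exact hmin i (List.mem_range.1 hi)
  obtain ⟨k, hk⟩ := h1 (n + 1)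
  obtain ⟨k', hk'⟩ := h2 (n + 1)
  have e1 : app h (Simp_pre x (n + 1)) = Simp_pre y k := hk
  have e2 : app h (Simp_pre x' (n + 1)) = Simp_pre y k' := hk'
  rw [Simp_pre_succ, app_append, app_singleton] at e1 e2
  rw [← hpre] at e2
  rcases le_total k k' with hkk | hkk
  · refine ⟨x, x', y, n, h1, h2, hn, hpre, ?_⟩
    have h4 := Simp_pre_prefix y hkk
    rw [← e1, ← e2] at h4
    exact (List.prefix_append_right_inj _).1 h4
  · refine ⟨x', x, y, n, h2, h1, hn.symm, hpre.symm, ?_⟩
    have h4 := Simp_pre_prefix y hkk
    rw [← e1, ← e2] at h4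
    exact (List.prefix_append_right_inj _).1 h4

open Classical in
/-- the substitution `b ↦ a b` -/
noncomputable def Simp_f {α : Type} (a b : α) (c : α) : List α := if c = b then [a, b] else [c]

theorem Simp_f_ne {α : Type} (a b c : α) : Simp_f a b c ≠ [] := by
  unfold Simp_f
  split_ifs <;> simp

theorem Simp_f_mem {α : Type} (a b c : α) : c ∈ Simp_f a b c := by
  unfold Simp_f
  split_ifs with h
  · rw [h]
    simp
  · simp

theorem Simp_f_head {α : Type} {a b : α} (hab : a ≠ b) (c : α) :
    (Simp_f a b c)[0]? ≠ some b := by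
  unfold Simp_f
  split_ifs with h
  · simpa using hab
  · simpa using h

theorem Simp_notInj {α β : Type} {h h' : α → List β} {x x' : ℕ → α} {y : ℕ → β} {n : ℕ}
    (h1 : IsIm h x y) (h2 : IsIm h x' y) (hn : x n ≠ x' n) (hpre : Simp_pre x n = Simp_pre x' n)
    (hf : ∀ c, app h' (Simp_f (x n) (x' n) c) = h c) : ¬ InjR h' := by
  intro hinj
  obtain ⟨X1, hX1⟩ := exists_isIm (Simp_f (x n) (x' n)) (Simp_f_ne _ _) x
  obtain ⟨X2, hX2⟩ := exists_isIm (Simp_f (x n) (x' n)) (Simp_f_ne _ _) x'
  have h3 := isIm_comp hf (Simp_f_ne _ _) hX1 h1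
  have h4 := isIm_comp hf (Simp_f_ne _ _) hX2 h2
  have h5 : X1 = X2 := hinj X1 X2 y h3 h4
  obtain ⟨k, hk⟩ := hX1 (n + 1 + 1)
  obtain ⟨k', hk'⟩ := hX2 (n + 1)
  have e1 : app (Simp_f (x n) (x' n)) (Simp_pre x (n + 1 + 1)) = Simp_pre X1 k := hk
  have e2 : app (Simp_f (x n) (x' n)) (Simp_pre x' (n + 1)) = Simp_pre X2 k' := hk'
  have fa : Simp_f (x n) (x' n) (x n) = [x n] := by
    unfold Simp_f
    rw [if_neg hn]
  have fb : Simp_f (x n) (x' n) (x' n) = [x n, x' n] := by
    unfold Simp_f
    rw [if_pos rfl]
  rw [Simp_pre_succ, Simp_pre_succ, app_append, app_append, app_singleton, app_singleton, fa] at e1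
  rw [Simp_pre_succ, app_append, app_singleton, fb, ← hpre] at e2
  generalize app (Simp_f (x n) (x' n)) (Simp_pre x n) = L at e1 e2
  have l1 : L.length + 1 < k := by
    have := congrArg List.length e1
    rw [Simp_pre_length, List.length_append, List.length_append, List.length_singleton] at this
    have h6 := List.length_pos_of_ne_nil (Simp_f_ne (x n) (x' n) (x (n + 1)))
    omega
  have l2 : L.length + 1 < k' := by
    have := congrArg List.length e2
    rw [Simp_pre_length, List.length_append] at this
    simp only [List.length_cons, List.length_nil] at this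
    omega
  have g1 : (L ++ [x n] ++ Simp_f (x n) (x' n) (x (n + 1)))[L.length + 1]? = some (X1 (L.length + 1)) := by
    rw [e1, Simp_pre_get X1 l1]
  have g2 : (L ++ [x n, x' n])[L.length + 1]? = some (X2 (L.length + 1)) := by
    rw [e2, Simp_pre_get X2 l2]
  rw [List.getElem?_append_right (by simp)] at g1
  rw [List.getElem?_append_right (by omega)] at g2
  have a1 : L.length + 1 - (L ++ [x n]).length = 0 := by simp
  have a2 : L.length + 1 - L.length = 1 := by omega
  rw [a1] at g1
  rw [a2] at g2
  have g3 : x' n = X2 (L.length + 1) := by simpa using g2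
  rw [h5, ← g3] at g1
  exact Simp_f_head hn _ g1

theorem Simp_ne_aux {α β : Type} [Fintype α] (N : ℕ) : ∀ (h : α → List β), (∀ a, h a ≠ []) →
    ¬ InjR h → ∑ a, (h a).length = N →
    ∃ (δ : Type) (_ : Fintype δ) (f : α → List δ) (g : δ → List β),
      Fintype.card δ < Fintype.card α ∧ (∀ a, app g (f a) = h a) ∧ (∀ d, g d ≠ []) ∧
      ∀ d, ∃ a, d ∈ f a := by
  classical
  induction N using Nat.strong_induction_on with
  | _ N ih =>
    intro h hne hh hN
    obtain ⟨x, x', y, n, h1, h2, hn, hpre, z, hz⟩ := Simp_first h hh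
    by_cases hz0 : z = []
    · rw [hz0, List.append_nil] at hz
      exact Simp_ident h hne hn hz.symm
    · have hup : ∀ c, c ≠ x' n → Function.update h (x' n) z c = h c := fun c hc =>
        Function.update_of_ne hc _ _
      have hub : Function.update h (x' n) z (x' n) = z := Function.update_self _ _ _
      have hf : ∀ c, app (Function.update h (x' n) z) (Simp_f (x n) (x' n) c) = h c := by
        intro c
        by_cases hc : c = x' n
        · have fb : Simp_f (x n) (x' n) c = [x n, x' n] := by
            unfold Simp_f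
            rw [if_pos hc]
          rw [fb, app_cons, app_singleton, hub, hup _ hn, hz, hc]
        · have fa : Simp_f (x n) (x' n) c = [c] := by
            unfold Simp_f
            rw [if_neg hc]
          rw [fa, app_singleton, hup _ hc]
      have hne' : ∀ c, Function.update h (x' n) z c ≠ [] := by
        intro c
        by_cases hc : c = x' n
        · rw [hc, hub]
          exact hz0
        · rw [hup _ hc]
          exact hne c
      have hni := Simp_notInj h1 h2 hn hpre hf
      have hlt : ∑ a, (Function.update h (x' n) z a).length < N := by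
        rw [← hN]
        refine Finset.sum_lt_sum (fun c _ => ?_) ⟨x' n, Finset.mem_univ _, ?_⟩
        · by_cases hc : c = x' n
          · rw [hc, hub, ← hz, List.length_append]
            omega
          · rw [hup _ hc]
        · rw [hub, ← hz, List.length_append]
          have := List.length_pos_of_ne_nil (hne (x n))
          omega
      obtain ⟨δ, i, f', g, c1, c2, c3, c4⟩ := ih _ hlt _ hne' hni rfl
      refine ⟨δ, i, fun c => app f' (Simp_f (x n) (x' n) c), g, c1, ?_, c3, ?_⟩
      · intro c
        show app g (app f' (Simp_f (x n) (x' n) c)) = h c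
        rw [app_app, ← hf c]
        congr 1
        funext a
        exact c2 a
      · intro d
        obtain ⟨a, ha⟩ := c4 d
        exact ⟨a, mem_app.2 ⟨a, Simp_f_mem _ _ a, ha⟩⟩

/-- The nonerasing case of `simplify`.
Proof: strong induction on `∑ a, (h a).length`.  Let `x ≠ x'` have the same image `y`, `n` the first index
with `x n ≠ x' n`, `a = x n`, `b = x' n`: `h a` and `h b` are both prefixes of the same tail of `y`, so up to
exchanging `x` and `x'` `h b = h a ++ z`.
If `z = []`: `δ = {c // c ≠ b}`, `f c = if c = b then [a] else [c]`, `g c = h c`.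
If `z ≠ []`: `h' = Function.update h b z`, `f1 c = if c = b then [a, b] else [c]`; `app h' (f1 c) = h c` for all `c`, the
total length of `h'` is smaller, `h'` is nonerasing.  `h'` is not injective on right infinite words: take
`X1 = f1(x)`, `X1' = f1(x')` (`exists_isIm`), both have the image `y` under `h'` (`isIm_comp`), and with
`m = |app f1 (x[0..n))|` we have `X1' m = a`, `X1' (m+1) = b`, `X1 m = a`, `X1 (m+1) =` the first letter of
`f1 (x (n+1))`, which is never `b`.  By induction `h' = g f'` with fewer letters; take `f c = app f' (f1 c)`;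
`d ∈ f' a'` implies `d ∈ f a'` because `a' ∈ f1 a'`. -/
theorem simplify_ne {α β : Type} [Fintype α] (h : α → List β) (hne : ∀ a, h a ≠ [])
    (hh : ¬ InjR h) :
    ∃ (δ : Type) (_ : Fintype δ) (f : α → List δ) (g : δ → List β),
      Fintype.card δ < Fintype.card α ∧ (∀ a, app g (f a) = h a) ∧ (∀ d, g d ≠ []) ∧
      ∀ d, ∃ a, d ∈ f a :=
  Simp_ne_aux _ h hne hh rfl

theorem Simp_rev {α β : Type} (g : α → List β) (l : List α) :
    app (rev g) l.reverse = (app g l).reverse := by
  induction l with
  | nil => rfl
  | cons a l ih =>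
    rw [List.reverse_cons, app_append, ih, app_singleton, app_cons, List.reverse_append]
    rfl

/-- A morphism which is not good factors through a smaller alphabet.
Proof: if some `h a = []`: `δ = {a // h a ≠ []}`, `f a = [a]` or `[]`.  Otherwise `simplify_ne` for `h`, or for
`rev h` and then reverse all images (`app (rev g) (rev f a) = (app g (f a)).reverse` when `rev`ersing both). -/
theorem simplify {α β : Type} [Fintype α] (h : α → List β) (hh : ¬ Good h) :
    ∃ (δ : Type) (_ : Fintype δ) (f : α → List δ) (g : δ → List β),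
      Fintype.card δ < Fintype.card α ∧ (∀ a, app g (f a) = h a) ∧ (∀ d, g d ≠ []) ∧
      ∀ d, ∃ a, d ∈ f a := by
  classical
  by_cases hne : ∀ a, h a ≠ []
  · by_cases hR : InjR h
    · have hL : ¬ InjR (rev h) := fun hL => hh ⟨hne, hR, hL⟩
      have hne' : ∀ a, rev h a ≠ [] := fun a ha => hne a (List.reverse_eq_nil_iff.1 ha)
      obtain ⟨δ, i, f, g, c1, c2, c3, c4⟩ := simplify_ne (rev h) hne' hL
      refine ⟨δ, i, rev f, rev g, c1, fun a => ?_, fun d hd => ?_, fun d => ?_⟩
      · show app (rev g) (f a).reverse = h a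
        rw [Simp_rev, c2]
        exact List.reverse_reverse _
      · exact c3 d (List.reverse_eq_nil_iff.1 hd)
      · obtain ⟨a, ha⟩ := c4 d
        exact ⟨a, List.mem_reverse.2 ha⟩
    · exact simplify_ne h hne hR
  · push Not at hne
    obtain ⟨a0, ha0⟩ := hne
    refine ⟨{c // h c ≠ []}, inferInstance, fun c => if hc : h c ≠ [] then [⟨c, hc⟩] else [],
      fun d => h d.1, ?_, ?_, fun d => d.2, ?_⟩
    · exact Fintype.card_subtype_lt (x := a0) (by simpa using ha0)
    · intro c
      by_cases hc : h c ≠ []
      · simp only [dif_pos hc]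
        rw [app_singleton]
      · simp only [dif_neg hc]
        rw [app_nil]
        exact (not_not.1 hc).symm
    · intro d
      refine ⟨d.1, ?_⟩
      simp only [dif_pos d.2]
      exact List.mem_singleton.2 rfl

theorem Simp_getD {α : Type} (x : List α) (a : α) (i : ℕ) :
    Simp_pre (fun n => x.getD n a) (x.length + i) = x ++ List.replicate i a := by
  apply List.ext_getElem?
  intro j
  rcases lt_or_ge j (x.length + i) with hj | hj
  · rw [Simp_pre_get _ hj]
    rcases lt_or_ge j x.length with h1 | h1
    · rw [List.getElem?_append_left h1, List.getElem?_eq_getElem h1, List.getD_eq_getElem _ _ h1]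
    · rw [List.getElem?_append_right h1, List.getElem?_replicate,
        if_pos (by omega), List.getD_eq_default _ _ h1]
  · rw [List.getElem?_eq_none (by rw [Simp_pre_length]; exact hj),
      List.getElem?_eq_none (by rw [List.length_append, List.length_replicate]; exact hj)]

theorem Simp_inj_aux {α β : Type} {h : α → List β} (hh : Good h) {x x' : List α}
    (hle : x.length ≤ x'.length) (he : app h x = app h x') : x = x' := by
  rcases x' with _ | ⟨a, t⟩
  · exact List.eq_nil_of_length_eq_zero (Nat.le_zero.1 hle)
  · generalize a :: t = x' at hle he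
    obtain ⟨Y, hY⟩ := exists_isIm h hh.ne (fun n => x.getD n a)
    have hY' : IsIm h (fun n => x'.getD n a) Y := by
      apply isIm_of_frequently
      intro n
      refine ⟨x'.length + n, Nat.le_add_left _ _, ?_⟩
      obtain ⟨k, hk⟩ := hY (x.length + n)
      have e1 : app h (Simp_pre (fun n => x.getD n a) (x.length + n)) = Simp_pre Y k := hk
      refine ⟨k, ?_⟩
      show app h (Simp_pre (fun n => x'.getD n a) (x'.length + n)) = Simp_pre Y k
      rw [Simp_getD, app_append] at e1 ⊢
      rw [← he]
      exact e1
    have h1 := hh.injR _ _ _ hY hY'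
    obtain ⟨j, hj⟩ := Nat.exists_eq_add_of_le hle
    have h2 := Simp_getD x' a 0
    rw [← h1, Nat.add_zero, hj, Simp_getD, List.replicate_zero, List.append_nil] at h2
    have h3 : app h (List.replicate j a) = [] := by
      rw [← h2, app_append] at he
      exact List.self_eq_append_right.1 he
    have h4 := length_le_app hh.ne (List.replicate j a)
    rw [h3, List.length_replicate] at h4
    have h5 : j = 0 := Nat.le_zero.1 h4
    rw [h5, List.replicate_zero, List.append_nil] at h2
    exact h2

/-- A good morphism is injective on finite words.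
Proof: let `app h x = app h x'`, `|x| ≤ |x'|`.  If there is no letter, both are empty.  Let `a` be a letter, `X n = x.getD n a`,
`X' n = x'.getD n a`.  Let `Y` be the image of `X` (`exists_isIm`).  For all `i` `app h (X[0..|x|+i)) = app h x ++ app h (a^i)
= app h x' ++ app h (a^i) = app h (X'[0..|x'|+i))`, so `Y` is also the image of `X'` (`isIm_of_frequently`).  By injectivity
`X = X'`, so `x' = x ++ a^j` and `app h (a^j) = []`, `j = 0`. -/
theorem Good.inj {α β : Type} {h : α → List β} (hh : Good h) : Function.Injective (app h) := by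
  intro x x' he
  rcases le_total x.length x'.length with h1 | h1
  · exact Simp_inj_aux hh h1 he
  · exact (Simp_inj_aux hh h1 he.symm).symm

end D0L
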