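import Pool.Agent.H.MP_374efc_lc.Red.Defs

/-!
# MP_374efc_lc, general reduction: computable monotone functions
-/

set_option autoImplicit false

namespace D0L

theorem CM.const (c : ℕ) : CM (fun _ => c) := ⟨Computable.const c, monotone_const⟩

theorem CM.id : CM (fun s => s) := ⟨Computable.id, monotone_id⟩

theorem CM.add {f g : ℕ → ℕ} (hf : CM f) (hg : CM g) : CM (fun s => f s + g s) :=
  ⟨Primrec.nat_add.to_comp.comp hf.comp hg.comp, fun _ _ h =>
    Nat.add_le_add (hf.mono h) (hg.mono h)⟩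

theorem CM.mul {f g : ℕ → ℕ} (hf : CM f) (hg : CM g) : CM (fun s => f s * g s) :=
  ⟨Primrec.nat_mul.to_comp.comp hf.comp hg.comp, fun _ _ h =>
    Nat.mul_le_mul (hf.mono h) (hg.mono h)⟩

theorem Cm_pow : Primrec₂ (fun a b : ℕ => a ^ b) := Primrec₂.unpaired'.1 Nat.Primrec.pow

theorem CM.pow {f g : ℕ → ℕ} (hf : CM f) (hg : CM g) : CM (fun s => (f s + 1) ^ g s) := by
  refine ⟨Cm_pow.to_comp.comp (Computable.succ.comp hf.comp) hg.comp, fun a b h => ?_⟩
  exact (Nat.pow_le_pow_left (Nat.add_le_add_right (hf.mono h) 1) _).trans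
    (Nat.pow_le_pow_right (Nat.succ_pos _) (hg.mono h))

theorem CM.comp' {f g : ℕ → ℕ} (hf : CM f) (hg : CM g) : CM (fun s => f (g s)) :=
  ⟨Computable.comp hf.comp hg.comp, fun _ _ h => hf.mono (hg.mono h)⟩

/-- the partial sums of `F` -/
def Cm_sum (F : ℕ → ℕ) (s : ℕ) : ℕ := Nat.rec (F 0) (fun n r => r + F (n + 1)) s

theorem Cm_sum_comp {F : ℕ → ℕ} (hF : Computable F) : Computable (Cm_sum F) := by
  have h1 : Computable₂ fun (_ : ℕ) (p : ℕ × ℕ) => p.2 + F (p.1 + 1) := by
    refine Primrec.nat_add.to_comp.comp (Computable.snd.comp Computable.snd) ?_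
    exact hF.comp (Computable.succ.comp (Computable.fst.comp Computable.snd))
  exact Computable.nat_rec (f := fun s : ℕ => s) (g := fun _ : ℕ => F 0)
    (h := fun (_ : ℕ) (p : ℕ × ℕ) => p.2 + F (p.1 + 1)) Computable.id (Computable.const (F 0)) h1

/-- Every computable function is below a computable monotone one: `G s = F 0 + ... + F s` (computable
by primitive recursion, `Computable.nat_rec`). -/
theorem CM.hull {F : ℕ → ℕ} (hF : Computable F) : ∃ G, CM G ∧ ∀ s, F s ≤ G s := by
  refine ⟨Cm_sum F, ⟨Cm_sum_comp hF, ?_⟩, ?_⟩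
  · refine monotone_nat_of_le_succ fun n => ?_
    show Cm_sum F n ≤ Cm_sum F n + F (n + 1)
    exact Nat.le_add_right _ _
  · intro s
    cases s with
    | zero => exact le_refl (F 0)
    | succ n =>
      show F (n + 1) ≤ Cm_sum F n + F (n + 1)
      exact Nat.le_add_left _ _

end D0L
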