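import Pool.Agent.H.MP_374efc_lc.Red.Defs

/-!
# MP_374efc_lc, general reduction: stable submonoids are free
-/

set_option autoImplicit false

namespace D0L

/-- Irreducible elements of the submonoid `G`. -/
def Irr {α : Type} (G : List α → Prop) (u : List α) : Prop :=
  G u ∧ u ≠ [] ∧ ∀ x y, G x → G y → u = x ++ y → x = [] ∨ y = []

theorem Free_span {α : Type} (G : List α → Prop) (n : ℕ) : ∀ x : List α, x.length ≤ n → G x →
    ∃ v : List {u : List α // Irr G u}, x = app (fun u => u.1) v := by
  induction n with
  | zero =>
    intro x hx _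
    have h1 : x = [] := List.length_eq_zero_iff.mp (Nat.le_zero.mp hx)
    exact ⟨[], by rw [h1]; rfl⟩
  | succ n ih =>
    intro x hx hG
    by_cases h0 : x = []
    · exact ⟨[], by rw [h0]; rfl⟩
    by_cases hi : Irr G x
    · exact ⟨[⟨x, hi⟩], by rw [app_singleton]⟩
    · have h1 : ¬ ∀ y z, G y → G z → x = y ++ z → y = [] ∨ z = [] := fun h => hi ⟨hG, h0, h⟩
      push Not at h1
      obtain ⟨y, z, hy, hz, hxyz, hy0, hz0⟩ := h1
      have hly := List.length_pos_of_ne_nil hy0
      have hlz := List.length_pos_of_ne_nil hz0
      have hl : x.length = y.length + z.length := by rw [hxyz, List.length_append]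
      obtain ⟨v1, h2⟩ := ih y (by omega) hy
      obtain ⟨v2, h3⟩ := ih z (by omega) hz
      exact ⟨v1 ++ v2, by rw [app_append, ← h2, ← h3, hxyz]⟩

theorem Free_app_mem {α : Type} (G : List α → Prop) (h0 : G []) (hmul : ∀ x y, G x → G y → G (x ++ y))
    (v : List {u : List α // Irr G u}) : G (app (fun u => u.1) v) := by
  induction v with
  | nil => exact h0
  | cons a v ih =>
    rw [app_cons]
    exact hmul _ _ a.2.1 ih

/-- Every element of `G` is a product of irreducible elements (strong induction on the length). -/
theorem irr_span {α : Type} (G : List α → Prop) (h0 : G []) (x : List α) (hx : G x) :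
    ∃ v : List {u : List α // Irr G u}, x = app (fun u => u.1) v := by
  exact Free_span G x.length x le_rfl hx

/-- The factorisation is unique.  Proof: let `a v` and `b v'` have the same product, `a = b t` or `b = a t`; say
`b = a t`; `t` is in `G` by stability (with `x = a`, `x ++ t = b`, `y` = product of `v`, `z` = product of `v'`), so
`t = []`. -/
theorem irr_code {α : Type} (G : List α → Prop) (h0 : G [])
    (hmul : ∀ x y, G x → G y → G (x ++ y))
    (hst : ∀ x z t, G x → G z → G (t ++ z) → G (x ++ t) → G t) :
    Function.Injective (app (fun u : {u : List α // Irr G u} => u.1)) := by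
  intro v
  induction v with
  | nil =>
    intro v' h
    cases v' with
    | nil => rfl
    | cons b w' =>
      exfalso
      rw [app_nil, app_cons] at h
      have h1 := (List.append_eq_nil_iff.mp h.symm).1
      exact b.2.2.1 h1
  | cons a w ih =>
    intro v' h
    cases v' with
    | nil =>
      exfalso
      rw [app_nil, app_cons] at h
      exact a.2.2.1 (List.append_eq_nil_iff.mp h).1
    | cons b w' =>
      rw [app_cons, app_cons] at h
      have hw := Free_app_mem G h0 hmul w
      have hw' := Free_app_mem G h0 hmul w'
      rcases List.append_eq_append_iff.mp h with ⟨t, h1, h2⟩ | ⟨t, h1, h2⟩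
      · have ht : G t := hst a.1 (app (fun u => u.1) w') t a.2.1 hw' (by rw [← h2]; exact hw)
          (by rw [← h1]; exact b.2.1)
        have ht0 : t = [] := (b.2.2.2 a.1 t a.2.1 ht h1).resolve_left a.2.2.1
        rw [ht0, List.append_nil] at h1
        rw [ht0, List.nil_append] at h2
        rw [Subtype.ext h1.symm, ih h2]
      · have ht : G t := hst b.1 (app (fun u => u.1) w) t b.2.1 hw (by rw [← h2]; exact hw')
          (by rw [← h1]; exact a.2.1)
        have ht0 : t = [] := (a.2.2.2 b.1 t b.2.1 ht h1).resolve_left b.2.2.1
        rw [ht0, List.append_nil] at h1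
        rw [ht0, List.nil_append] at h2
        rw [Subtype.ext h1, ih h2.symm]

end D0L
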