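import Pool.Agent.H.MP_374efc_lc.Red.Z3
import Pool.Agent.H.MP_374efc_lc.Red.Free
import Pool.Agent.H.MP_374efc_lc.Red.Cm

/-!
# MP_374efc_lc, general reduction: removal of the bounded letters
-/

set_option autoImplicit false

namespace D0L

/-- The submonoid of the words which can be the piece between two cuts. -/
def GG {α : Type} (h : α → List α) (rho sg : ℕ) (x : List α) : Prop :=
  x = [] ∨ ((∃ p d y, x = p ++ d :: y ∧ Bw h p ∧ p.length = rho ∧ PL h d) ∧
    ∃ y d t, x = y ++ d :: t ∧ Bw h t ∧ t.length = sg ∧ PR h d)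

section

variable {α : Type} [Fintype α] {h : α → List α} {w : List α} {s rho sg : ℕ}

omit [Fintype α] in
theorem gg_mul {x y : List α} (hx : GG h rho sg x) (hy : GG h rho sg y) :
    GG h rho sg (x ++ y) := by
  rcases hx with rfl | ⟨⟨p, d, z, h1, h2, h3, h4⟩, hx2⟩
  · simpa using hy
  rcases hy with rfl | ⟨hy1, ⟨z', d', t, h5, h6, h7, h8⟩⟩
  · rw [List.append_nil]
    exact Or.inr ⟨⟨p, d, z, h1, h2, h3, h4⟩, hx2⟩
  · refine Or.inr ⟨⟨p, d, z ++ y, by rw [h1]; simp, h2, h3, h4⟩,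
      ⟨x ++ z', d', t, by rw [h5]; simp, h6, h7, h8⟩⟩

theorem gg_it (inj : Function.Injective (app h)) {x : List α} (hx : GG h rho sg x) (n : ℕ) :
    GG h rho sg (it h n x) := by
  rcases hx with rfl | ⟨⟨p, d, z, h1, h2, h3, h4⟩, ⟨z', d', t, h5, h6, h7, h8⟩⟩
  · rw [it_nil]
    exact Or.inl rfl
  · right
    constructor
    · obtain ⟨p', d1, y', a1, a2, a3, a4⟩ := pl_const (y := z) inj h2 h4 n
      rw [← h1] at a1
      exact ⟨p', d1, y', a1, a2, a3.trans h3, a4⟩
    · obtain ⟨y', d1, t', a1, a2, a3, a4⟩ := pr_const (y := z') inj h6 h8 n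
      rw [← h5] at a1
      exact ⟨y', d1, t', a1, a2, a3.trans h7, a4⟩

omit [Fintype α] in
theorem gg_stable (x z t : List α) (hx : GG h rho sg x) (htz : GG h rho sg (t ++ z))
    (hxt : GG h rho sg (x ++ t)) : GG h rho sg t := by
  by_cases ht : t = []
  · exact Or.inl ht
  rcases hx with rfl | ⟨-, ⟨y1, d1, s1, a1, a2, a3, a4⟩⟩
  · simpa using hxt
  rcases htz with h0 | ⟨⟨p2, d2, y2, b1, b2, b3, b4⟩, -⟩
  · exact absurd (List.append_eq_nil_iff.1 h0).1 ht
  rcases hxt with h0 | ⟨-, ⟨y3, d3, s3, c1, c2, c3, c4⟩⟩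
  · exact absurd (List.append_eq_nil_iff.1 h0).2 ht
  have hnb : ¬ Bw h t := by
    intro hb
    have h1 : y1 ++ d1 :: (s1 ++ t) = y3 ++ d3 :: s3 := by
      rw [← c1, a1]
      simp
    have hb' : Bw h (s1 ++ t) := by
      intro b hb1
      rw [List.mem_append] at hb1
      exact hb1.elim (a2 b) (hb b)
    have h2 := (br_unique hb' (Z3_pr_gr a4) c2 (Z3_pr_gr c4) h1).1
    have h3 := congrArg List.length h2
    rw [List.length_append, a3, c3] at h3
    exact ht (List.length_eq_zero_iff.1 (by omega))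
  obtain ⟨p4, d4, y4, e1, e2, e3⟩ := bl_exists hnb
  obtain ⟨y5, d5, s5, f1, f2, f3⟩ := br_exists hnb
  right
  constructor
  · have h1 : p4 ++ d4 :: (y4 ++ z) = p2 ++ d2 :: y2 := by
      rw [← b1, e1]
      simp
    obtain ⟨g1, g2, -⟩ := bl_unique e2 e3 b2 (Z3_pl_gr b4) h1
    exact ⟨p4, d4, y4, e1, e2, by rw [g1, b3], by rw [g2]; exact b4⟩
  · have h1 : (x ++ y5) ++ d5 :: s5 = y3 ++ d3 :: s3 := by
      rw [← c1, f1]
      simp
    obtain ⟨g1, g2, -⟩ := br_unique f2 f3 c2 (Z3_pr_gr c4) h1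
    exact ⟨y5, d5, s5, f1, f2, by rw [g1, c3], by rw [g2]; exact c4⟩

omit [Fintype α] in
/-- A word of `GG` which contains a cut is a product. -/
theorem gg_cut {u v : List α} {d d' : α} (hu : GG h rho sg u) (ht : Tri h u d v d')
    (hd : PR h d) (hd' : PL h d') (hv : v.length = sg + rho) :
    ∃ x y, GG h rho sg x ∧ GG h rho sg y ∧ u = x ++ y ∧ x ≠ [] ∧ y ≠ [] := by
  obtain ⟨t1, t2, t3, A, B, hAB⟩ := ht
  have hu0 : u ≠ [] := by
    rintro rfl
    simp at hAB
  rcases hu with h0 | ⟨⟨p, d0, y0, a1, a2, a3, a4⟩, ⟨z0, d1, s0, b1, b2, b3, b4⟩⟩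
  · exact absurd h0 hu0
  set v1 := v.take sg with hv1
  set v2 := v.drop sg with hv2
  have hv12 : v1 ++ v2 = v := List.take_append_drop sg v
  have hl1 : v1.length = sg := by rw [hv1, List.length_take]; omega
  have hl2 : v2.length = rho := by rw [hv2, List.length_drop]; omega
  have hbv1 : Bw h v1 := fun b hb => t3 b (by rw [← hv12]; exact List.mem_append_left _ hb)
  have hbv2 : Bw h v2 := fun b hb => t3 b (by rw [← hv12]; exact List.mem_append_right _ hb)
  have hu1 : u = (A ++ d :: v1) ++ (v2 ++ d' :: B) := by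
    rw [← hAB, ← hv12]
    simp
  refine ⟨A ++ d :: v1, v2 ++ d' :: B, ?_, ?_, hu1, by simp, by simp⟩
  · right
    refine ⟨?_, ⟨A, d, v1, rfl, hbv1, hl1, hd⟩⟩
    have hnb : ¬ Bw h (A ++ d :: v1) := fun hb => hb d (by simp) t1
    obtain ⟨p4, d4, y4, e1, e2, e3⟩ := bl_exists hnb
    have h1 : p4 ++ d4 :: (y4 ++ (v2 ++ d' :: B)) = p ++ d0 :: y0 := by
      rw [← a1, hu1, e1]
      simp
    obtain ⟨g1, g2, -⟩ := bl_unique e2 e3 a2 (Z3_pl_gr a4) h1
    exact ⟨p4, d4, y4, e1, e2, by rw [g1, a3], by rw [g2]; exact a4⟩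
  · right
    refine ⟨⟨v2, d', B, rfl, hbv2, hl2, hd'⟩, ?_⟩
    have hnb : ¬ Bw h (v2 ++ d' :: B) := fun hb => hb d' (by simp) t2
    obtain ⟨y5, d5, s5, f1, f2, f3⟩ := br_exists hnb
    have h1 : ((A ++ d :: v1) ++ y5) ++ d5 :: s5 = z0 ++ d1 :: s0 := by
      rw [← b1, hu1, f1]
      simp
    obtain ⟨g1, g2, -⟩ := br_unique f2 f3 b2 (Z3_pr_gr b4) h1
    exact ⟨y5, d5, s5, f1, f2, by rw [g1, b3], by rw [g2]; exact b4⟩

/-- The bound of the lengths of the new letters. -/
def LZ (s : ℕ) : ℕ := (s + 1) ^ (2 ^ s + s + 1) * (s + 2) + (s + 2 * (s + 1) ^ s) + 1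

theorem irr_length (hm : Mix h w) (hs : Sz s h w)
    (hl : ∃ p d y, w = p ++ d :: y ∧ Bw h p ∧ p.length = rho ∧ PL h d)
    (hr : ∃ y d t, w = y ++ d :: t ∧ Bw h t ∧ t.length = sg ∧ PR h d) {u : List α} {n : ℕ}
    (hu : Irr (GG h rho sg) u) (hun : u <:+: it h n w) : u.length ≤ LZ s := by
  set m := 2 ^ s + s + 1 with hmdef
  have hne : ∀ a, h a ≠ [] := fun a => ne_of_inj hm.inj a
  have hlen : ∀ a, (h a).length ≤ s + 1 := fun a => (hs.2.1 a).trans (by omega)
  have hA : ∀ a, (it h m [a]).length ≤ (s + 1) ^ m := by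
    intro a
    have := length_it_le hlen m [a]
    simpa using this
  rcases lt_or_ge n m with hn | hn
  · have h1 := hun.length_le
    have h2 := length_it_mono hne w hn.le
    have h3 := length_it_le hlen m w
    have h4 : (s + 1) ^ m * w.length ≤ (s + 1) ^ m * (s + 2) :=
      Nat.mul_le_mul_left _ (hs.2.2.trans (by omega))
    have h5 : (s + 1) ^ m * (s + 2) ≤ LZ s := by
      rw [LZ, ← hmdef]
      omega
    omega
  · obtain ⟨n', rfl⟩ := Nat.exists_eq_add_of_le hn
    rw [it_add, it_eq_app, app, List.flatMap_def] at hun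
    have hpiece : ∀ e : List α, (e = [] ∨ ∃ y ∈ List.map (fun a => it h m [a]) (it h n' w),
        e.length ≤ y.length) → e.length ≤ (s + 1) ^ m := by
      intro e he
      rcases he with rfl | ⟨y, hy, hey⟩
      · simp
      · rw [List.mem_map] at hy
        obtain ⟨a, -, rfl⟩ := hy
        exact hey.trans (hA a)
    have hle1 : (s + 1) ^ m * (s + 2) = (s + 1) ^ m * s + (s + 1) ^ m + (s + 1) ^ m := by ring
    rcases infix_flatten _ _ hun with ⟨y, hy, hyu⟩ | ⟨e, M, f, hM, he1, he, hf⟩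
    · have h1 := hpiece u (Or.inr ⟨y, hy, hyu.length_le⟩)
      rw [LZ, ← hmdef]
      omega
    · have h1 := hpiece e (he.imp id (fun ⟨y, hy, hye⟩ => ⟨y, hy, hye.length_le⟩))
      have h2 := hpiece f (hf.imp id (fun ⟨y, hy, hye⟩ => ⟨y, hy, hye.length_le⟩))
      rw [List.infix_map_iff] at hM
      obtain ⟨y', hy', rfl⟩ := hM
      have hfl : (List.map (fun a => it h m [a]) y').flatten = it h m y' := by
        rw [it_eq_app, app, List.flatMap_def]
      rw [hfl] at he1
      have hb : Bw h y' := by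
        intro c hc hcg
        obtain ⟨d, v, d', c1, c2, c3, c4⟩ := cut_exists hm hs hl hr hcg
        have h3 : Tri h u d v d' := by
          refine ⟨c1.1, c1.2.1, c1.2.2.1, c1.2.2.2.trans ?_⟩
          refine (Z3_infix_it m hc).trans ?_
          rw [he1]
          exact ⟨e, f, rfl⟩
        obtain ⟨x, y, g1, g2, g3, g4, g5⟩ := gg_cut hu.1 h3 c2 c3 c4
        exact (hu.2.2 x y g1 g2 g3).elim g4 g5
      have h3 := block_le hm hs n' y' hy' hb
      have h4 := (bw_it hm.inj hb m).2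
      have h5 : s ^ s ≤ (s + 1) ^ s := Nat.pow_le_pow_left (by omega) s
      have h6 : u.length = e.length + (it h m y').length + f.length := by
        rw [he1, List.length_append, List.length_append]
      rw [LZ, ← hmdef]
      omega

end

theorem lists_card {α β : Type} [Fintype α] (L : ℕ) (c : β → List α)
    (hc : Function.Injective c) (hL : ∀ b, (c b).length ≤ L) :
    ∃ _ : Fintype β, Fintype.card β ≤ (Fintype.card α + 1) ^ L := by
  classical
  let F : β → (Fin L → Option α) := fun b i => (c b)[(i : ℕ)]?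
  have hF : Function.Injective F := by
    intro b b' hbb
    apply hc
    apply List.ext_getElem?
    intro i
    rcases lt_or_ge i L with hi | hi
    · exact congrFun hbb ⟨i, hi⟩
    · rw [List.getElem?_eq_none ((hL b).trans hi), List.getElem?_eq_none ((hL b').trans hi)]
  have : Fintype β := Fintype.ofInjective F hF
  refine ⟨inferInstance, ?_⟩
  have h1 := Fintype.card_le_of_injective F hF
  simpa [Fintype.card_option] using h1

/-- Normalised systems: first and last growing letters in `PL`, `PR`. -/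
theorem zrec_core {α : Type} [Fintype α] {h : α → List α} {w : List α} {s rho sg : ℕ}
    (hm : Mix h w) (hs : Sz s h w)
    (hl : ∃ p d y, w = p ++ d :: y ∧ Bw h p ∧ p.length = rho ∧ PL h d)
    (hr : ∃ y d t, w = y ++ d :: t ∧ Bw h t ∧ t.length = sg ∧ PR h d) :
    ∃ (β : Type) (_ : Fintype β) (k : β → List β) (v : List β),
      Sz ((s + 1) ^ LZ s + (s + 1) * LZ s) k v ∧ LC k v ∧ (∀ b, k b ≠ []) ∧ (∀ b, Gr k b) ∧
      v ≠ [] ∧ ∀ p, Rel k v p → Rel h w p := by
  classical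
  have inj := hm.inj
  have hne : ∀ a, h a ≠ [] := fun a => ne_of_inj inj a
  have hw0 : w ≠ [] := by
    obtain ⟨p, d, y, h1, -⟩ := hl
    rw [h1]
    simp
  have hGw : GG h rho sg w := Or.inr ⟨hl, hr⟩
  set V0 := {u : List α // Irr (GG h rho sg) u} with hV0
  set c0 : V0 → List α := fun u => u.1 with hc0
  have hspan : ∀ x, GG h rho sg x → ∃ v : List V0, x = app c0 v :=
    irr_span (GG h rho sg) (Or.inl rfl)
  have hcode : Function.Injective (app c0) :=
    irr_code (GG h rho sg) (Or.inl rfl) (fun x y => gg_mul)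
      (fun x z t hx _ htz hxt => gg_stable x z t hx htz hxt)
  have hk0 : ∀ u : V0, ∃ v : List V0, app h (c0 u) = app c0 v := by
    intro u
    have := gg_it inj u.2.1 1
    rw [it_one] at this
    exact hspan _ this
  choose k0 hk0 using hk0
  obtain ⟨v0, hv0⟩ := hspan w hGw
  have hcl : ∀ n, ∀ u ∈ it k0 n v0, ∀ u' ∈ k0 u, u' ∈ it k0 (n + 1) v0 := by
    intro n u hu u' hu'
    rw [it_succ, mem_app]
    exact ⟨u, hu, hu'⟩
  set β := {u : V0 // ∃ n, u ∈ it k0 n v0} with hβ
  let k : β → List β := fun b => (k0 b.1).attachWith (fun u => ∃ n, u ∈ it k0 n v0)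
    (fun u' hu' => by
      obtain ⟨n, hn⟩ := b.2
      exact ⟨n + 1, hcl n _ hn u' hu'⟩)
  let v : List β := v0.attachWith (fun u => ∃ n, u ∈ it k0 n v0) (fun u hu => ⟨0, hu⟩)
  let c : β → List α := fun b => c0 b.1
  have hcmap : ∀ x : List β, app c x = app c0 (x.map Subtype.val) := by
    intro x
    induction x with
    | nil => rfl
    | cons a x ih => rw [app_cons, ih, List.map_cons, app_cons]
  have hkmap : ∀ b, (k b).map Subtype.val = k0 b.1 := by
    intro b
    exact List.attachWith_map_subtype_val _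
  have hvmap : v.map Subtype.val = v0 := List.attachWith_map_subtype_val _
  have hcinj : Function.Injective (app c) := by
    intro x y hxy
    rw [hcmap, hcmap] at hxy
    exact (List.map_injective_iff.2 Subtype.val_injective) (hcode hxy)
  have hkc : ∀ b, app h (c b) = app c (k b) := by
    intro b
    rw [hcmap, hkmap]
    exact hk0 b.1
  have hwv : w = app c v := by
    rw [hcmap, hvmap]
    exact hv0
  have hlenc : ∀ b, (c b).length ≤ LZ s := by
    intro b
    obtain ⟨n, hn⟩ := b.2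
    refine irr_length hm hs hl hr b.1.2 (n := n) ?_
    rw [hv0, ← it_code hk0]
    obtain ⟨l1, l2, h1⟩ := List.append_of_mem hn
    rw [h1, app_append, app_cons]
    refine ⟨app c0 l1, app c0 l2, ?_⟩
    change app c0 l1 ++ c0 b.1 ++ app c0 l2 = _
    rw [List.append_assoc]
  have hcinj' : Function.Injective c := by
    intro b b' hbb
    exact Subtype.ext (Subtype.ext hbb)
  obtain ⟨iF, hcard⟩ := lists_card (LZ s) c hcinj' hlenc
  have hcne : ∀ b, c b ≠ [] := fun b => b.1.2.2.1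
  have hrel : ∀ p, Rel h w p ↔ Rel k v p := fun p => rel_code hcinj hkc hwv
  refine ⟨β, iF, k, v, ⟨?_, ?_, ?_⟩, ?_, ?_, ?_, ?_, fun p => (hrel p).2⟩
  · have h1 : (Fintype.card α + 1) ^ LZ s ≤ (s + 1) ^ LZ s :=
      Nat.pow_le_pow_left (Nat.succ_le_succ hs.1) _
    omega
  · intro b
    have h1 := length_le_app hcne (k b)
    rw [← hkc] at h1
    have h2 := length_app_le hs.2.1 (c b)
    have h3 : s * (c b).length ≤ s * LZ s := Nat.mul_le_mul_left _ (hlenc b)
    have h4 : (s + 1) * LZ s = s * LZ s + LZ s := by ring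
    omega
  · have h1 := length_le_app hcne v
    rw [← hwv] at h1
    have h2 := hs.2.2
    have h3 : 1 ≤ LZ s := by rw [LZ]; omega
    have h4 : (s + 1) * 1 ≤ (s + 1) * LZ s := Nat.mul_le_mul_left _ h3
    omega
  · obtain ⟨p, hp⟩ := hm.lc
    exact ⟨p, (hrel p).1 hp⟩
  · intro b hb
    have h1 := hkc b
    rw [hb, app_nil] at h1
    have h2 := length_le_app hne (c b)
    rw [h1] at h2
    exact hcne b (List.length_eq_zero_iff.1 (by simpa using h2))
  · intro b B
    have hb : GG h rho sg (c b) := b.1.2.1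
    rcases hb with h0 | ⟨⟨p, d, y, h1, h2, h3, h4⟩, -⟩
    · exact absurd h0 (hcne b)
    obtain ⟨n, hn⟩ := Z3_pl_gr h4 (LZ s * B)
    refine ⟨n, ?_⟩
    have h5 : (it h n [d]).length ≤ (it h n (c b)).length :=
      (Z3_infix_it n (by rw [h1]; simp)).length_le
    have h6 : app c (it k n [b]) = it h n (c b) := by
      rw [it_code hkc, app_singleton]
    have h7 := length_app_le hlenc (it k n [b])
    rw [h6] at h7
    have h8 : LZ s * B ≤ LZ s * (it k n [b]).length := by omega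
    exact Nat.le_of_mul_le_mul_left h8 (by rw [LZ]; omega)
  · intro hv
    rw [hv] at hwv
    exact hw0 hwv

theorem zrec : ∃ tz : ℕ → ℕ, CM tz ∧ ∀ (α : Type) [Fintype α] (h : α → List α) (w : List α)
    (s : ℕ), Sz s h w → Mix h w → ∃ (β : Type) (_ : Fintype β) (k : β → List β) (v : List β),
      Sz (tz s) k v ∧ LC k v ∧ (∀ b, k b ≠ []) ∧ (∀ b, Gr k b) ∧ v ≠ [] ∧
      ∀ p, Rel k v p → Rel h w (p + s) := by
  have two : CM (fun s => 2 ^ s) := CM.pow (CM.const 1) CM.id
  have one := CM.add CM.id (CM.const 1)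
  have cL : CM LZ := by
    refine CM.add (CM.add (CM.mul (CM.pow CM.id (CM.add (CM.add two CM.id) (CM.const 1)))
      (CM.add CM.id (CM.const 2))) (CM.add CM.id (CM.mul (CM.const 2) (CM.pow CM.id CM.id))))
      (CM.const 1)
  have c1 : CM (fun s => (s + 1) ^ LZ s + (s + 1) * LZ s) :=
    CM.add (CM.pow CM.id cL) (CM.mul one cL)
  have c2 : CM (fun s => (s + 1) ^ (s + 1)) := CM.pow CM.id one
  refine ⟨_, CM.comp' c1 c2, ?_⟩
  intro α _ h w s hs hm
  have inj := hm.inj
  have hne : ∀ a, h a ≠ [] := fun a => ne_of_inj inj a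
  have hnb : ¬ Bw h w := by
    obtain ⟨a, ha⟩ := hm.gr
    exact fun hb => hb a (hm.full 0 a) ha
  have hlen : ∀ a, (h a).length ≤ s + 1 := fun a => (hs.2.1 a).trans (by omega)
  have hs' : Sz ((s + 1) ^ (s + 1)) h (it h s w) := by
    have h0 : s + 1 ≤ (s + 1) ^ (s + 1) := Nat.le_self_pow (by omega) _
    refine ⟨hs.1.trans (by omega), fun a => (hlen a).trans h0, ?_⟩
    refine (length_it_le hlen s w).trans ?_
    rw [pow_succ]
    exact Nat.mul_le_mul_left _ (hs.2.2.trans (by omega))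
  have hm' : Mix h (it h s w) := by
    refine ⟨inj, ?_, hm.mix, hm.gr, hm.lc.shift s⟩
    intro n a
    rw [← it_add]
    exact hm.full _ a
  have hl : ∃ p d y, it h s w = p ++ d :: y ∧ Bw h p ∧ PL h d := by
    obtain ⟨p0, a, y0, h1, h2, h3⟩ := bl_exists hnb
    obtain ⟨p1, d, y1, h4, h5, h6⟩ := bl_exists (Z3_notbw_it hne h3 s)
    refine ⟨it h s p0 ++ p1, d, y1 ++ it h s y0, ?_, ?_, first_pl hm h3 hs.1 h4 h5 h6⟩
    · rw [h1, it_append, Z1_it_cons, h4]
      simp
    · exact Z3_bw_append (bw_it inj h2 s).1 h5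
  have hr : ∃ y d t, it h s w = y ++ d :: t ∧ Bw h t ∧ PR h d := by
    obtain ⟨y0, a, t0, h1, h2, h3⟩ := br_exists hnb
    obtain ⟨y1, d, t1, h4, h5, h6⟩ := br_exists (Z3_notbw_it hne h3 s)
    refine ⟨it h s y0 ++ y1, d, t1 ++ it h s t0, ?_, ?_, last_pr hm h3 hs.1 h4 h5 h6⟩
    · rw [h1, it_append, Z1_it_cons, h4]
      simp
    · exact Z3_bw_append h5 (bw_it inj h2 s).1
  obtain ⟨p, d, y, a1, a2, a3⟩ := hl
  obtain ⟨y', d', t', b1, b2, b3⟩ := hr
  obtain ⟨β, iF, k, v, c1, c2, c3, c4, c5, c6⟩ := zrec_core (rho := p.length) (sg := t'.length)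
    hm' hs' ⟨p, d, y, a1, a2, rfl, a3⟩ ⟨y', d', t', b1, b2, rfl, b3⟩
  exact ⟨β, iF, k, v, c1, c2, c3, c4, c5, fun q hq => (c6 q hq).unshift⟩

end D0L
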