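import Pool.Agent.H.MP_374efc_lc.Red.Cm
import Pool.Agent.H.MP_374efc_lc.Red.Simp
import Pool.Agent.H.MP_374efc_lc.Red.Orbit
import Pool.Agent.H.MP_374efc_lc.Red.Bdd
import Pool.Agent.H.MP_374efc_lc.Red.Legal
import Pool.Agent.H.MP_374efc_lc.Red.Per2
import Pool.Agent.H.MP_374efc_lc.Red.Z4

/-!
# MP_374efc_lc, general reduction: the final statement
-/

set_option autoImplicit false

namespace D0L

/-- A bound `F` for the systems in the class `Q`. -/
def BdOn (Q : ∀ (α : Type) [Fintype α], (α → List α) → List α → Prop) (F : ℕ → ℕ) : Prop :=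
  ∀ (α : Type) [Fintype α] (h : α → List α) (w : List α) (s : ℕ), Sz s h w → Q α h w → LC h w →
    ∃ p ≤ F s, Rel h w p

theorem Sz.mono {α : Type} [Fintype α] {h : α → List α} {w : List α} {s t : ℕ} (hs : Sz s h w)
    (hst : s ≤ t) : Sz t h w :=
  ⟨hs.1.trans hst, fun a => (hs.2.1 a).trans hst, hs.2.2.trans hst⟩

theorem rel_nil {α : Type} (h : α → List α) : Rel h [] 1 := by
  refine ⟨[0], by simp, by simp, ?_⟩
  simp [it_nil]

/-- Step F: good primitive systems. -/
theorem bd_good (F : ℕ → ℕ) (hc : CoreBound F) :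
    BdOn (fun _ _ h _ => Good h ∧ Prim h) (fun s => F s + s + 1) := by
  intro α _ h w s hs hq hlc
  change ∃ p ≤ F s + s + 1, Rel h w p
  obtain ⟨hg, hp⟩ := hq
  by_cases hw : w = []
  · subst hw
    exact ⟨1, by omega, rel_nil h⟩
  by_cases hgr : ∀ a, Gr h a
  · have hl := legal hg.ne hg.inj hw hlc hgr
    by_cases hper : Per h
    · obtain ⟨σ, hσ⟩ := per1 hg hp hgr hper
      obtain ⟨p, h1, h2⟩ := per2 hσ hgr hl hw hlc
      have := hs.1
      exact ⟨p, by omega, h2⟩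
    · obtain ⟨p, h1, h2⟩ := hc α h w s hs hg hp hper hl hw hlc
      exact ⟨p, by omega, h2⟩
  · push Not at hgr
    obtain ⟨a, ha⟩ := hgr
    exact ⟨1, by omega, rel_of_prim_bdd hg.ne hp ha w⟩

/-- Steps A and E: simplification inside a class. -/
theorem bd_simp (Q : ∀ (α : Type) [Fintype α], (α → List α) → List α → Prop)
    (hQ : ∀ (α δ : Type) [Fintype α] [Fintype δ] (h : α → List α) (f : α → List δ)
      (g : δ → List α) (w : List α), (∀ a, app g (f a) = h a) → (∀ d, g d ≠ []) →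
      (∀ d, ∃ a, d ∈ f a) → Q α h w → Q δ (fun d => app f (g d)) (app f w))
    (F : ℕ → ℕ) (hF : Monotone F)
    (hb : BdOn (fun α _ h w => Good h ∧ Q α h w) F) :
    BdOn Q (fun s => F (s ^ 2 ^ s) + s) := by
  have key : ∀ n : ℕ, ∀ (α : Type) [Fintype α] (h : α → List α) (w : List α) (s : ℕ),
      Fintype.card α ≤ n → Sz s h w → Q α h w → LC h w →
        ∃ p ≤ F (s ^ 2 ^ n) + n, Rel h w p := by
    intro n
    induction n with
    | zero =>
      intro α _ h w s hn hs hq hlc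
      by_cases hg : Good h
      · obtain ⟨p, h1, h2⟩ := hb α h w s hs ⟨hg, hq⟩ hlc
        exact ⟨p, by simpa using h1, h2⟩
      · obtain ⟨δ, _, f, g, h1, -⟩ := simplify h hg
        omega
    | succ n ih =>
      intro α _ h w s hn hs hq hlc
      have hpow : ∀ i : ℕ, s ≤ s ^ 2 ^ i := by
        intro i
        exact Nat.le_self_pow (by positivity) s
      by_cases hg : Good h
      · obtain ⟨p, h1, h2⟩ := hb α h w s hs ⟨hg, hq⟩ hlc
        have := hF (hpow (n + 1))
        exact ⟨p, by omega, h2⟩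
      · obtain ⟨δ, hδ, f, g, h1, h2, h3, h4⟩ := simplify h hg
        have h5 := simp_sizes h1 h2 h3 h4 hs
        have h6 := hQ α δ h f g w h2 h3 h4 hq
        have h7 : LC (fun d => app f (g d)) (app f w) := by
          obtain ⟨p, hp⟩ := hlc
          exact ⟨p, rel_gf h2 hp⟩
        obtain ⟨p, h8, h9⟩ := ih δ _ _ (s * s) (by omega) h5 h6 h7
        refine ⟨p + 1, ?_, rel_of_gf h2 h9⟩
        have h10 : (s * s) ^ 2 ^ n = s ^ 2 ^ (n + 1) := by
          rw [← pow_two, ← pow_mul, pow_succ']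
        rw [h10] at h8
        omega
  intro α _ h w s hs hq hlc
  exact key s α h w s hs.1 hs hq hlc

theorem it_map {α β : Type} {h : α → List α} {g : β → List β} {ι : β → α} {t : ℕ}
    (hg : ∀ b, (g b).map ι = it h t [ι b]) (n : ℕ) (x : List β) :
    (it g n x).map ι = it h (t * n) (x.map ι) := by
  have h1 : ∀ x : List β, app (fun b => [ι b]) x = x.map ι := by
    intro x
    induction x with
    | nil => rfl
    | cons a x ih => rw [app_cons, ih]; rfl
  rw [← h1, ← h1, it_code (h := fun a => it h t [a]) (k := g) (c := fun b => [ι b]), it_pow]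
  intro b
  rw [app_singleton, h1, hg]

theorem gr_of_map {α β : Type} {h : α → List α} {g : β → List β} {ι : β → α} {t : ℕ}
    (hne : ∀ a, h a ≠ []) (ht : 0 < t)
    (hg : ∀ b, (g b).map ι = it h t [ι b]) {b : β} (hb : Gr h (ι b)) : Gr g b := by
  intro B
  obtain ⟨n, hn⟩ := hb B
  refine ⟨n, ?_⟩
  have h1 := it_map hg n [b]
  have h2 : (it g n [b]).length = (it h (t * n) [ι b]).length := by
    rw [← List.map_singleton, ← h1, List.length_map]
  rw [h2]
  exact hn.trans (length_it_mono hne _ (Nat.le_mul_of_pos_left n ht))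

theorem inj_of_map {α β : Type} {h : α → List α} {g : β → List β} {ι : β → α} {t : ℕ}
    (inj : Function.Injective (app h)) (hι : Function.Injective ι)
    (hg : ∀ b, (g b).map ι = it h t [ι b]) : Function.Injective (app g) := by
  intro x y hxy
  have h1 : ∀ x : List β, (app g x).map ι = it h t (x.map ι) := by
    intro x
    have := it_map hg 1 x
    rwa [it_one, mul_one] at this
  have h2 : it h t (x.map ι) = it h t (y.map ι) := by rw [← h1, ← h1, hxy]
  have h3 : x.map ι = y.map ι := (inj.iterate t) h2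
  exact (List.map_injective_iff.2 hι) h3

/-- The size after the orbit step. -/
def tO (s : ℕ) : ℕ := (s + 1) ^ (2 ^ (s + 1) + 1)

theorem sz_orbit {α β : Type} [Fintype α] [Fintype β] {h : α → List α} {w : List α} {s : ℕ}
    (hs : Sz s h w) {g : β → List β} {u : List β} {ι : β → α} {t m : ℕ}
    (hι : Function.Injective ι) (ht : t ≤ 2 ^ s) (hm : m ≤ 2 ^ (s + 1))
    (hg : ∀ b, (g b).map ι = it h t [ι b]) (hu : u.map ι = it h m w) : Sz (tO s) g u := by
  obtain ⟨h1, h2, h3⟩ := hs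
  have hb : ∀ n x, n ≤ 2 ^ (s + 1) → x.length ≤ s + 1 → (it h n x).length ≤ tO s := by
    intro n x hn hx
    have h4 : ∀ a, (h a).length ≤ s + 1 := fun a => (h2 a).trans (by omega)
    refine (length_it_le h4 n x).trans ?_
    calc (s + 1) ^ n * x.length ≤ (s + 1) ^ (2 ^ (s + 1)) * (s + 1) :=
          Nat.mul_le_mul (Nat.pow_le_pow_right (by omega) hn) hx
      _ = tO s := (pow_succ _ _).symm
  refine ⟨?_, ?_, ?_⟩
  · have h4 : Fintype.card β ≤ Fintype.card α := Fintype.card_le_of_injective ι hι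
    have h5 : s + 1 ≤ tO s := Nat.le_self_pow (by omega) _
    omega
  · intro b
    rw [← List.length_map (f := ι), hg]
    apply hb
    · exact ht.trans (Nat.pow_le_pow_right (by omega) (by omega))
    · simp
  · rw [← List.length_map (f := ι), hu]
    exact hb _ _ hm (by omega)

/-- Step D: all letters grow. -/
theorem bd_grow (F : ℕ → ℕ) (hb : BdOn (fun _ _ h _ => Prim h) F) :
    BdOn (fun _ _ h w => (∀ a, h a ≠ []) ∧ (∀ a, Gr h a) ∧ w ≠ [])
      (fun s => 2 ^ s * F (tO s) + 2 ^ (s + 1)) := by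
  intro α _ h w s hs hq hlc
  change ∃ p ≤ 2 ^ s * F (tO s) + 2 ^ (s + 1), Rel h w p
  obtain ⟨hne, hgr, hw⟩ := hq
  obtain ⟨β, _, g, u, ι, t, m, hι, ht0, ht, hm, hg, hu, hlc', hfull, hmix, hrel⟩ :=
    orbit_step hs hne hw hlc
  have hs' := sz_orbit hs hι ht hm hg hu
  have hp : Prim g := by
    refine ⟨2 ^ Fintype.card β, by positivity, ?_⟩
    intro a b
    exact hmix a (gr_of_map hne ht0 hg (hgr _)) _ le_rfl b
  obtain ⟨p, h1, h2⟩ := hb β g u (tO s) hs' hp hlc'
  refine ⟨t * p + m, ?_, hrel p h2⟩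
  have h3 := Nat.mul_le_mul ht h1
  omega

/-- Step C: removal of the bounded letters. -/
theorem bd_mix (tz : ℕ → ℕ) (htz : ∀ (α : Type) [Fintype α] (h : α → List α) (w : List α)
    (s : ℕ), Sz s h w → Mix h w → ∃ (β : Type) (_ : Fintype β) (k : β → List β) (v : List β),
      Sz (tz s) k v ∧ LC k v ∧ (∀ b, k b ≠ []) ∧ (∀ b, Gr k b) ∧ v ≠ [] ∧
      ∀ p, Rel k v p → Rel h w (p + s)) (F : ℕ → ℕ)
    (hb : BdOn (fun _ _ h w => (∀ a, h a ≠ []) ∧ (∀ a, Gr h a) ∧ w ≠ []) F) :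
    BdOn (fun _ _ h w => Mix h w) (fun s => F (tz s) + s) := by
  intro α _ h w s hs hq hlc
  change ∃ p ≤ F (tz s) + s, Rel h w p
  obtain ⟨β, _, k, v, h1, h2, h3, h4, h5, h6⟩ := htz α h w s hs hq
  obtain ⟨p, h7, h8⟩ := hb β k v (tz s) h1 ⟨h3, h4, h5⟩ h2
  exact ⟨p + s, by omega, h6 p h8⟩

/-- Step B: injective systems. -/
theorem bd_inj (F : ℕ → ℕ) (hb : BdOn (fun _ _ h w => Mix h w) F) :
    BdOn (fun _ _ h _ => Function.Injective (app h))
      (fun s => 2 ^ s * F (tO s) + 2 ^ (s + 1) + (s + 1) ^ (s + 1)) := by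
  intro α _ h w s hs inj hlc
  change ∃ p ≤ 2 ^ s * F (tO s) + 2 ^ (s + 1) + (s + 1) ^ (s + 1), Rel h w p
  have hne := ne_of_inj inj
  by_cases hbw : Bw h w
  · obtain ⟨p, h1, h2⟩ := rel_of_bw hs inj hbw
    exact ⟨p, h1.trans (Nat.le_add_left _ _), h2⟩
  have hw : w ≠ [] := by
    rintro rfl
    exact hbw (by simp [Bw])
  obtain ⟨β, _, g, u, ι, t, m, hι, ht0, ht, hm, hg, hu, hlc', hfull, hmix, hrel⟩ :=
    orbit_step hs hne hw hlc
  have hs' := sz_orbit hs hι ht hm hg hu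
  have hM : Mix g u := by
    refine ⟨inj_of_map inj hι hg, hfull, hmix, ?_, hlc'⟩
    simp only [Bw, not_forall, not_not] at hbw
    obtain ⟨a, ha, ha'⟩ := hbw
    obtain ⟨b, hb1, hb2⟩ := (gr_iff hne a m).1 ha'
    have h1 : b ∈ u.map ι := by
      rw [hu, it_eq_app, mem_app]
      exact ⟨a, ha, hb1⟩
    rw [List.mem_map] at h1
    obtain ⟨c, -, rfl⟩ := h1
    exact ⟨c, gr_of_map hne ht0 hg hb2⟩
  obtain ⟨p, h1, h2⟩ := hb β g u (tO s) hs' hM hlc'
  refine ⟨t * p + m, ?_, hrel p h2⟩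
  have h3 := Nat.mul_le_mul ht h1
  omega

/-- **The general reduction.**  A computable bound for the core class gives a computable bound for
all systems. -/
theorem main4 (F : ℕ → ℕ) (hF : Computable F) (hc : CoreBound F) :
    ∃ F', Computable F' ∧ Bound F' := by
  obtain ⟨G, hG, hFG⟩ := CM.hull hF
  have hcG : CoreBound G := by
    intro α _ h w s h1 h2 h3 h4 h5 h6 h7
    obtain ⟨p, h8, h9⟩ := hc α h w s h1 h2 h3 h4 h5 h6 h7
    exact ⟨p, h8.trans (hFG s), h9⟩
  obtain ⟨tz, htz, hz⟩ := zrec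
  have two : CM (fun s => 2 ^ s) := CM.pow (CM.const 1) CM.id
  have two' : CM (fun s => 2 ^ (s + 1)) := CM.pow (CM.const 1) (CM.add CM.id (CM.const 1))
  have ctO : CM tO := CM.pow CM.id (CM.add two' (CM.const 1))
  have selfpow : CM (fun s => (s + 1) ^ 2 ^ s) := CM.pow CM.id two
  -- F
  set F1 : ℕ → ℕ := fun s => G s + s + 1 with hF1
  have c1 : CM F1 := CM.add (CM.add hG CM.id) (CM.const 1)
  have b1 : BdOn (fun _ _ h _ => Good h ∧ Prim h) F1 := bd_good G hcG
  -- E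
  set F2 : ℕ → ℕ := fun s => F1 ((s + 1) ^ 2 ^ s) + s with hF2
  have c2 : CM F2 := CM.add (CM.comp' c1 selfpow) CM.id
  have b2 : BdOn (fun _ _ h _ => Prim h) F2 := by
    intro α _ h w s hs hq hlc
    obtain ⟨p, h1, h2⟩ := bd_simp (fun _ _ h _ => Prim h)
      (fun α δ _ _ h f g w h1 h2 h3 h4 => prim_gf h1 h2 h3 h4) F1 c1.mono b1 α h w s hs hq hlc
    refine ⟨p, h1.trans ?_, h2⟩
    have := c1.mono (Nat.pow_le_pow_left (Nat.le_succ s) (2 ^ s))
    simp only [hF2]
    exact Nat.add_le_add_right this s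
  -- D
  set F3 : ℕ → ℕ := fun s => 2 ^ s * F2 (tO s) + 2 ^ (s + 1) with hF3
  have c3 : CM F3 := CM.add (CM.mul two (CM.comp' c2 ctO)) two'
  have b3 := bd_grow F2 b2
  -- C
  set F4 : ℕ → ℕ := fun s => F3 (tz s) + s with hF4
  have c4 : CM F4 := CM.add (CM.comp' c3 htz) CM.id
  have b4 : BdOn (fun _ _ h w => Mix h w) F4 := bd_mix tz hz F3 b3
  -- B
  set F5 : ℕ → ℕ := fun s => 2 ^ s * F4 (tO s) + 2 ^ (s + 1) + (s + 1) ^ (s + 1) with hF5
  have c5 : CM F5 := CM.add (CM.add (CM.mul two (CM.comp' c4 ctO)) two')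
    (CM.pow CM.id (CM.add CM.id (CM.const 1)))
  have b5 : BdOn (fun _ _ h _ => Function.Injective (app h)) F5 := bd_inj F4 b4
  -- A
  refine ⟨fun s => F5 ((s + 1) ^ 2 ^ s) + s,
    (CM.add (CM.comp' c5 selfpow) CM.id).comp, ?_⟩
  intro α _ h w s hs hlc
  obtain ⟨p, h1, h2⟩ := bd_simp (fun _ _ _ _ => True)
    (fun α δ _ _ h f g w h1 h2 h3 h4 => trivial) F5 c5.mono
    (fun α _ h w s hs hq hlc => b5 α h w s hs hq.1.inj hlc) α h w s hs trivial hlc
  refine ⟨p, h1.trans ?_, h2⟩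
  have := c5.mono (Nat.pow_le_pow_left (Nat.le_succ s) (2 ^ s))
  exact Nat.add_le_add_right this s

end D0L
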