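import Pool.Agent.H.MP_374efc_lc.Base

/-!
# MP_374efc_lc, general reduction (L4): definitions

Bounded and growing letters, the class `Mix` of systems in which every growing letter produces all
letters, computable monotone functions.
-/

set_option autoImplicit false

namespace D0L

/-- A growing letter. -/
def Gr {α : Type*} (h : α → List α) (a : α) : Prop := ∀ B : ℕ, ∃ n, B ≤ (it h n [a]).length

/-- A word all letters of which are bounded. -/
def Bw {α : Type*} (h : α → List α) (x : List α) : Prop := ∀ b ∈ x, ¬ Gr h b

/-- All images of the letter `d` begin with a growing letter. -/
def PL {α : Type*} (h : α → List α) (d : α) : Prop := ∀ n, ∃ b y, it h n [d] = b :: y ∧ Gr h b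

/-- All images of the letter `d` end with a growing letter. -/
def PR {α : Type*} (h : α → List α) (d : α) : Prop := ∀ n, ∃ b y, it h n [d] = y ++ [b] ∧ Gr h b

/-- Injective systems in which all letters occur in all `w_n` and all growing letters produce
all letters (in all images from `2 ^ card α` on); with at least one growing letter; locally
catenative. -/
structure Mix {α : Type*} [Fintype α] (h : α → List α) (w : List α) : Prop where
  inj : Function.Injective (app h)
  full : ∀ n a, a ∈ it h n w
  mix : ∀ a, Gr h a → ∀ i, 2 ^ Fintype.card α ≤ i → ∀ b, b ∈ it h i [a]
  gr : ∃ a, Gr h a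
  lc : LC h w

/-- Computable monotone functions. -/
structure CM (f : ℕ → ℕ) : Prop where
  comp : Computable f
  mono : Monotone f

end D0L
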