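import Pool.Agent.H.MP_374efc_lc.Red.Z1

/-!
# MP_374efc_lc, general reduction: triples (growing letter, bounded block, growing letter)
-/

set_option autoImplicit false

namespace D0L

variable {α : Type} [Fintype α] {h : α → List α}

/-- `d v d'` is a factor of `x`, `d`, `d'` are growing letters and `v` is a bounded word. -/
def Tri (h : α → List α) (x : List α) (d : α) (v : List α) (d' : α) : Prop :=
  Gr h d ∧ Gr h d' ∧ Bw h v ∧ (d :: (v ++ [d'])) <:+: x

/-- `(e, u, e')` is the image of the triple `(d, v, d')` under `h^n`. -/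
def TT (h : α → List α) (n : ℕ) (d : α) (v : List α) (d' : α) (e : α) (u : List α) (e' : α) :
    Prop :=
  ∃ y s p z, it h n [d] = y ++ e :: s ∧ it h n [d'] = p ++ e' :: z ∧ Bw h s ∧ Bw h p ∧
    Gr h e ∧ Gr h e' ∧ u = s ++ it h n v ++ p

theorem Z2_bw_append {x y : List α} (hx : Bw h x) (hy : Bw h y) : Bw h (x ++ y) := by
  intro b hb
  rcases List.mem_append.mp hb with h1 | h1
  · exact hx b h1
  · exact hy b h1

theorem Z2_bw_left {x y : List α} (hxy : Bw h (x ++ y)) : Bw h x :=
  fun b hb => hxy b (List.mem_append_left _ hb)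

theorem Z2_bw_right {x y : List α} (hxy : Bw h (x ++ y)) : Bw h y :=
  fun b hb => hxy b (List.mem_append_right _ hb)

theorem Z2_bw_nil : Bw h ([] : List α) := fun b hb => absurd hb List.not_mem_nil

theorem Z2_not_bw (inj : Function.Injective (app h)) {d : α} (hd : Gr h d) (n : ℕ) :
    ¬ Bw h (it h n [d]) := by
  intro hb
  obtain ⟨b, h1, h2⟩ := (gr_iff (ne_of_inj inj) d n).mp hd
  exact hb b h1 h2

theorem tt_zero {d d' : α} (hd : Gr h d) (hd' : Gr h d') (v : List α) :
    TT h 0 d v d' d v d' := by
  refine ⟨[], [], [], [], ?_, ?_, Z2_bw_nil, Z2_bw_nil, hd, hd', ?_⟩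
  · rw [it_zero]
    rfl
  · rw [it_zero]
    rfl
  · rw [it_zero, List.nil_append, List.append_nil]

theorem tt_exists (inj : Function.Injective (app h)) {d d' : α} (hd : Gr h d) (hd' : Gr h d')
    (v : List α) (n : ℕ) : ∃ e u e', TT h n d v d' e u e' := by
  obtain ⟨y, e, s, h1, h2, h3⟩ := br_exists (Z2_not_bw inj hd n)
  obtain ⟨p, e', z, h4, h5, h6⟩ := bl_exists (Z2_not_bw inj hd' n)
  exact ⟨e, s ++ it h n v ++ p, e', y, s, p, z, h1, h4, h2, h5, h3, h6, rfl⟩

theorem tt_tri (inj : Function.Injective (app h)) {x v u : List α} {d d' e e' : α} {n : ℕ}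
    (h1 : Tri h x d v d') (h2 : TT h n d v d' e u e') : Tri h (it h n x) e u e' := by
  obtain ⟨hd, hd', hv, a, b, hx⟩ := h1
  obtain ⟨y, s, p, z, e1, e2, hs, hp, he, he', hu⟩ := h2
  refine ⟨he, he', ?_, it h n a ++ y, z ++ it h n b, ?_⟩
  · rw [hu]
    exact Z2_bw_append (Z2_bw_append hs (bw_it inj hv n).1) hp
  · have e3 : d :: (v ++ [d']) = [d] ++ (v ++ [d']) := rfl
    rw [← hx, it_append, it_append, e3, it_append, it_append, e1, e2, hu]
    simp only [List.append_assoc, List.cons_append, List.nil_append]

theorem tt_trans (inj : Function.Injective (app h)) {v u t : List α} {d d' e e' f f' : α}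
    {m n : ℕ} (h1 : TT h m d v d' e u e') (h2 : TT h n e u e' f t f') :
    TT h (m + n) d v d' f t f' := by
  obtain ⟨y, s, p, z, e1, e2, hs, hp, he, he', hu⟩ := h1
  obtain ⟨y', s', p', z', e1', e2', hs', hp', hf, hf', ht⟩ := h2
  refine ⟨it h n y ++ y', s' ++ it h n s, it h n p ++ p', z' ++ it h n z, ?_, ?_,
    Z2_bw_append hs' (bw_it inj hs n).1, Z2_bw_append (bw_it inj hp n).1 hp', hf, hf', ?_⟩
  · have e3 : e :: s = [e] ++ s := rfl
    rw [Nat.add_comm m n, it_add, e1, e3, it_append, it_append, e1']
    simp only [List.append_assoc, List.cons_append]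
  · have e3 : e' :: z = [e'] ++ z := rfl
    rw [Nat.add_comm m n, it_add, e2, e3, it_append, it_append, e2']
    simp only [List.append_assoc, List.cons_append]
  · rw [ht, hu, Nat.add_comm m n, it_append, it_append, ← it_add]
    simp only [List.append_assoc]

/-- Origin of a triple of `app h x`, one step.
Proof: induction on `x`.  `x = a :: x'`: `d v d'` (I write `(d, v, d')` for the given triple) is a factor of
`h a ++ app h x'`: a factor of `h a` (then `a` is growing because `h a` contains the growing letter `d`, see `gr_iff`), or a factor of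
`app h x'` (induction), or straddling: `h a = y ++ d :: v1`, `app h x' = v2 ++ d' :: z`, `v = v1 ++ v2` (possibly `v1` or `v2`
empty).  Then `a` is growing, `x'` contains a growing letter, `x' = p ++ b :: x''` with `p` bounded, `b` growing (`bl_exists`), `h b = p' ++ c :: z'`,
and `app h x' = (app h p ++ p') ++ c :: ...`; by `bl_unique` `v2 = app h p ++ p'`, `d' = c`: the triple is the image of `(a, p, b)`. -/
theorem tri_app (inj : Function.Injective (app h)) {x u : List α} {e e' : α}
    (h1 : Tri h (app h x) e u e') :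
    (∃ c ∈ x, Gr h c ∧ Tri h (h c) e u e') ∨
      ∃ d v d', Tri h x d v d' ∧ TT h 1 d v d' e u e' := by
  induction x with
  | nil =>
    obtain ⟨-, -, -, h2⟩ := h1
    rw [app_nil] at h2
    exact absurd (List.infix_nil.mp h2) (List.cons_ne_nil _ _)
  | cons a x ih =>
    obtain ⟨he, he', hu, A, B, hAB⟩ := h1
    have inA : (e :: (u ++ [e'])) <:+: h a → (∃ c ∈ a :: x, Gr h c ∧ Tri h (h c) e u e') := by
      intro hi
      refine ⟨a, List.mem_cons_self, ?_, he, he', hu, hi⟩
      refine (gr_iff (ne_of_inj inj) a 1).mpr ⟨e, ?_, he⟩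
      rw [it_one, app_singleton]
      exact hi.subset List.mem_cons_self
    have inB : (e :: (u ++ [e'])) <:+: app h x → (∃ c ∈ a :: x, Gr h c ∧ Tri h (h c) e u e') ∨
        ∃ d v d', Tri h (a :: x) d v d' ∧ TT h 1 d v d' e u e' := by
      intro hi
      rcases ih ⟨he, he', hu, hi⟩ with ⟨c, hc, hc2⟩ | ⟨d, v, d', ⟨k1, k2, k3, k4⟩, k5⟩
      · exact Or.inl ⟨c, List.mem_cons_of_mem _ hc, hc2⟩
      · exact Or.inr ⟨d, v, d', ⟨k1, k2, k3, k4.trans (List.suffix_cons a x).isInfix⟩, k5⟩
    rw [app_cons, List.append_assoc] at hAB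
    rcases List.append_eq_append_iff.mp hAB with ⟨c, h1, h2⟩ | ⟨c, h1, h2⟩
    · -- `h a = A ++ c`
      rcases List.append_eq_append_iff.mp h2 with ⟨c', h3, h4⟩ | ⟨c', h3, h4⟩
      · exact Or.inl (inA ⟨A, c', by rw [h1, h3, List.append_assoc]⟩)
      · -- `e :: (u ++ [e']) = c ++ c'`
        rcases c with _ | ⟨c0, v1⟩
        · exact inB ⟨[], B, by rw [h4, List.nil_append, h3, List.nil_append]⟩
        · rcases List.eq_nil_or_concat' c' with h5 | ⟨v2, l, h5⟩
          · refine Or.inl (inA ⟨A, [], ?_⟩)
            rw [h3, h5, h1, List.append_nil, List.append_nil]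
          · rw [h5, List.cons_append, ← List.append_assoc] at h3
            have h6 := List.cons.inj h3
            have h7 := List.append_inj' h6.2 rfl
            have h8 : e' = l := (List.cons.inj h7.2).1
            have h9 : u = v1 ++ v2 := h7.1
            have h10 : h a = A ++ e :: v1 := by rw [h1, h6.1]
            have h11 : app h x = v2 ++ e' :: B := by
              rw [h4, h5, h8, List.append_assoc]
              rfl
            have ga : Gr h a := by
              refine (gr_iff (ne_of_inj inj) a 1).mpr ⟨e, ?_, he⟩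
              rw [it_one, app_singleton, h10]
              exact List.mem_append_right _ List.mem_cons_self
            have hxb : ¬ Bw h x := by
              intro hb
              have := (bw_it inj hb 1).1
              rw [it_one, h11] at this
              exact this e' (List.mem_append_right _ List.mem_cons_self) he'
            obtain ⟨p, b, x'', e1, e2, e3⟩ := bl_exists hxb
            obtain ⟨p', c, z', f1, f2, f3⟩ := bl_exists (Z2_not_bw inj e3 1)
            have f4 : h b = p' ++ c :: z' := by
              rw [it_one, app_singleton] at f1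
              exact f1
            have f5 : v2 ++ e' :: B = (app h p ++ p') ++ c :: (z' ++ app h x'') := by
              rw [← h11, e1, app_append, app_cons, f4]
              simp only [List.append_assoc, List.cons_append]
            have hv1 : Bw h v1 := by
              rw [h9] at hu
              exact Z2_bw_left hu
            have hv2 : Bw h v2 := by
              rw [h9] at hu
              exact Z2_bw_right hu
            have hpb : Bw h (app h p ++ p') := by
              have := (bw_it inj e2 1).1
              rw [it_one] at this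
              exact Z2_bw_append this f2
            obtain ⟨g1, g2, g3⟩ := bl_unique hv2 he' hpb f3 f5
            refine Or.inr ⟨a, p, b, ⟨ga, e3, e2, [], x'', ?_⟩, A, v1, p', z', ?_, ?_, hv1, f2, he,
              he', ?_⟩
            · rw [e1]
              simp only [List.append_assoc, List.cons_append, List.nil_append]
            · rw [it_one, app_singleton, h10]
            · rw [f1, g2]
            · rw [h9, g1, it_one, List.append_assoc]
    · exact inB ⟨c, B, by rw [h2, List.append_assoc]⟩

/-- Origin of a triple of `it h n x` (induction on `n`, `tri_app`, `tt_trans`). -/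
theorem tri_it (inj : Function.Injective (app h)) (n : ℕ) {x u : List α} {e e' : α}
    (h1 : Tri h (it h n x) e u e') :
    (∃ j < n, ∃ c d v d', Gr h c ∧ Tri h (h c) d v d' ∧ TT h j d v d' e u e') ∨
      ∃ d v d', Tri h x d v d' ∧ TT h n d v d' e u e' := by
  induction n generalizing u e e' with
  | zero =>
    rw [it_zero] at h1
    exact Or.inr ⟨e, u, e', h1, tt_zero h1.1 h1.2.1 u⟩
  | succ n ih =>
    rw [it_succ] at h1
    rcases tri_app inj h1 with ⟨c, -, hc, hc2⟩ | ⟨d, v, d', h2, h3⟩
    · exact Or.inl ⟨0, Nat.succ_pos n, c, e, u, e', hc, hc2, tt_zero h1.1 h1.2.1 u⟩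
    · rcases ih h2 with ⟨j, hj, c, d0, v0, d0', hc, h4, h5⟩ | ⟨d0, v0, d0', h4, h5⟩
      · exact Or.inl ⟨j + 1, Nat.succ_lt_succ hj, c, d0, v0, d0', hc, h4, tt_trans inj h5 h3⟩
      · exact Or.inr ⟨d0, v0, d0', h4, tt_trans inj h5 h3⟩

/-- A bounded factor of `y` is (by length) in the first block, in the last block or in the middle of a triple. -/
theorem bw_cases {x y : List α} (hx : Bw h x) (hxy : x <:+: y) (hy : ¬ Bw h y) :
    (∃ p d z, y = p ++ d :: z ∧ Bw h p ∧ Gr h d ∧ x.length ≤ p.length) ∨
    (∃ z d s, y = z ++ d :: s ∧ Bw h s ∧ Gr h d ∧ x.length ≤ s.length) ∨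
    ∃ d v d', Tri h y d v d' ∧ x.length ≤ v.length := by
  obtain ⟨A, B, rfl⟩ := hxy
  by_cases hA : Bw h A
  · have hB : ¬ Bw h B := fun hB => hy (Z2_bw_append (Z2_bw_append hA hx) hB)
    obtain ⟨p, d, z, h1, h2, h3⟩ := bl_exists hB
    refine Or.inl ⟨A ++ x ++ p, d, z, ?_, Z2_bw_append (Z2_bw_append hA hx) h2, h3, ?_⟩
    · rw [h1]
      simp only [List.append_assoc]
    · rw [List.length_append, List.length_append]
      omega
  · obtain ⟨y1, d, s1, h1, h2, h3⟩ := br_exists hA
    by_cases hB : Bw h B
    · refine Or.inr (Or.inl ⟨y1, d, s1 ++ x ++ B, ?_, Z2_bw_append (Z2_bw_append h2 hx) hB, h3, ?_⟩)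
      · rw [h1]
        simp only [List.append_assoc, List.cons_append]
      · rw [List.length_append, List.length_append]
        omega
    · obtain ⟨p1, d', z1, h4, h5, h6⟩ := bl_exists hB
      refine Or.inr (Or.inr ⟨d, s1 ++ x ++ p1, d', ⟨h3, h6,
        Z2_bw_append (Z2_bw_append h2 hx) h5, y1, z1, ?_⟩, ?_⟩)
      · rw [h1, h4]
        simp only [List.append_assoc, List.cons_append, List.nil_append]
      · rw [List.length_append, List.length_append]
        omega

end D0L
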